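import Pool.Agent.D0H94.T12.Ren
import Pool.Agent.R956.K10
import Pool.Agent.R956.K3

/-!
# Exponents of a sequence and of its means with renewal weights
-/

set_option autoImplicit false
set_option linter.unusedVariables false

namespace Pool.Agent.D0H94.T12

open Finset Filter Topology
open Pool.Agent.Y943.SL (Wk)

variable {p q : ℝ}

/-- the means -/
noncomputable def GG (p q : ℝ) (r : ℕ → ℝ) (N : ℕ) : ℝ := ∑ m ∈ range N, r m * pw p q (m + 1) N

lemma pw_supp {m N : ℕ} (h : pw p q (m + 1) N ≠ 0) : 2 * (m + 1) ≤ N ∧ N ≤ 3 * (m + 1) := by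
  constructor
  · by_contra h1
    exact h (pw_zero_low _ _ (by omega))
  · by_contra h1
    exact h (pw_zero_high _ _ (by omega))

lemma ren_shift (N : ℕ) (hN : 1 ≤ N) :
    ∑ m ∈ range N, pw p q (m + 1) N = ∑ m ∈ range (N + 1), pw p q m N := by
  rw [sum_range_succ' _ N]
  have : pw p q 0 (N : ℤ) = 0 := by
    unfold pw
    rw [if_neg]
    omega
  rw [this, add_zero]

lemma GG_le (hp : 0 ≤ p) (hq : 0 ≤ q) (h : p + q = 1) {r : ℕ → ℝ} {N : ℕ} {B : ℝ} (hB : 0 ≤ B)
    (hr : ∀ m, 2 * (m + 1) ≤ N → N ≤ 3 * (m + 1) → r m ≤ B) : GG p q r N ≤ B := by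
  rcases Nat.eq_zero_or_pos N with h0 | h0
  · subst h0
    simpa [GG] using hB
  · calc GG p q r N ≤ ∑ m ∈ range N, B * pw p q (m + 1) N := by
          refine sum_le_sum fun m _ => ?_
          by_cases hz : pw p q (m + 1) (N : ℤ) = 0
          · rw [hz]; simp
          · obtain ⟨h1, h2⟩ := pw_supp hz
            exact mul_le_mul_of_nonneg_right (hr m h1 h2) (pw_nonneg hp hq _ _)
      _ = B * ∑ m ∈ range (N + 1), pw p q m N := by rw [← mul_sum, ren_shift N h0]
      _ ≤ B * 1 := mul_le_mul_of_nonneg_left (ren_le hp hq h _ _) hB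
      _ = B := mul_one B

lemma GG_ge (hp : 0 < p) (hq : 0 < q) (h : p + q = 1) {r : ℕ → ℝ} {N : ℕ} (hN : 2 ≤ N) {b : ℝ}
    (hb : 0 ≤ b) (hr : ∀ m, 2 * (m + 1) ≤ N → N ≤ 3 * (m + 1) → b ≤ r m) :
    b * (p ^ 2 * q) ≤ GG p q r N := by
  calc b * (p ^ 2 * q) ≤ b * ∑ m ∈ range (N + 1), pw p q m N :=
        mul_le_mul_of_nonneg_left (ren_ge hp hq h N (N + 1) hN (by omega)) hb
    _ = ∑ m ∈ range N, b * pw p q (m + 1) N := by rw [← mul_sum, ren_shift N (by omega)]
    _ ≤ _ := by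
        refine sum_le_sum fun m _ => ?_
        by_cases hz : pw p q (m + 1) (N : ℤ) = 0
        · rw [hz]; simp
        · obtain ⟨h1, h2⟩ := pw_supp hz
          exact mul_le_mul_of_nonneg_right (hr m h1 h2) (pw_nonneg hp.le hq.le _ _)

/-- the two sequences -/
structure Cmp (p q : ℝ) (r s : ℕ → ℝ) (c0 C0 : ℝ) : Prop where
  hp : 0 < p
  hq : 0 < q
  hpq : p + q = 1
  hc0 : 0 < c0
  hC0 : 0 < C0
  r1 : ∀ n, 1 ≤ r n
  lo : ∀ n, c0 * GG p q r (n + 1) ≤ s n
  up : ∀ n, s (n + 3) ≤ C0 * (GG p q r (n + 4) + GG p q r (n + 3) + GG p q r (n + 2))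

variable {r s : ℕ → ℝ} {c0 C0 : ℝ}

lemma Cmp.GG_nonneg (H : Cmp p q r s c0 C0) (N : ℕ) : 0 ≤ GG p q r N :=
  sum_nonneg fun m _ => mul_nonneg (zero_le_one.trans (H.r1 m)) (pw_nonneg H.hp.le H.hq.le _ _)

lemma Cmp.s_ge (H : Cmp p q r s c0 C0) {n : ℕ} (hn : 1 ≤ n) : c0 * (p ^ 2 * q) ≤ s n := by
  refine le_trans ?_ (H.lo n)
  refine mul_le_mul_of_nonneg_left ?_ H.hc0.le
  have := GG_ge H.hp H.hq H.hpq (r := r) (N := n + 1) (by omega) zero_le_one
    (fun m _ _ => H.r1 m)
  linarith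

lemma Cmp.s_pos (H : Cmp p q r s c0 C0) {n : ℕ} (hn : 1 ≤ n) : 0 < s n := by
  have h1 := H.hp
  have h2 := H.hq
  have h3 := H.hc0
  exact lt_of_lt_of_le (by positivity) (H.s_ge hn)

/-- `f n ≤ n ^ (β + o(1))` -/
def Up (f : ℕ → ℝ) (β : ℝ) : Prop :=
  ∀ ε : ℝ, 0 < ε → ∀ᶠ n : ℕ in atTop, Real.log (f n) ≤ (β + ε) * Real.log n

/-- `f n ≥ n ^ (β - o(1))` -/
def Lo (f : ℕ → ℝ) (β : ℝ) : Prop :=
  ∀ ε : ℝ, 0 < ε → ∀ᶠ n : ℕ in atTop, (β - ε) * Real.log n ≤ Real.log (f n)

lemma tlog : Tendsto (fun n : ℕ => Real.log (n : ℝ)) atTop atTop :=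
  Real.tendsto_log_atTop.comp tendsto_natCast_atTop_atTop

lemma log4 : Real.log 4 ≤ 2 := by
  rw [Real.log_le_iff_le_exp (by norm_num)]
  have h1 := Real.add_one_le_exp (1 : ℝ)
  have h2 : Real.exp 2 = Real.exp 1 * Real.exp 1 := by rw [← Real.exp_add]; norm_num
  rw [h2]
  nlinarith

/-- comparison of logarithms -/
lemma log_cmp {a b : ℕ} (ha : 1 ≤ a) (h1 : a ≤ 4 * b) (h2 : b ≤ 4 * a) (β : ℝ) :
    β * Real.log a ≤ β * Real.log b + |β| * 2 := by
  have ha0 : (0 : ℝ) < a := by exact_mod_cast ha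
  have hb0 : (0 : ℝ) < b := by exact_mod_cast (show 0 < b by omega)
  have h3 : Real.log a ≤ Real.log b + 2 := by
    have : Real.log a ≤ Real.log (4 * b) := Real.log_le_log ha0 (by exact_mod_cast h1)
    rw [Real.log_mul (by norm_num) hb0.ne'] at this
    linarith [log4]
  have h4 : Real.log b ≤ Real.log a + 2 := by
    have : Real.log b ≤ Real.log (4 * a) := Real.log_le_log hb0 (by exact_mod_cast h2)
    rw [Real.log_mul (by norm_num) ha0.ne'] at this
    linarith [log4]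
  have h5 : |Real.log a - Real.log b| ≤ 2 := by rw [abs_le]; constructor <;> linarith
  have h6 : β * (Real.log a - Real.log b) ≤ |β| * 2 := by
    calc β * (Real.log a - Real.log b) ≤ |β * (Real.log a - Real.log b)| := le_abs_self _
      _ = |β| * |Real.log a - Real.log b| := abs_mul _ _
      _ ≤ |β| * 2 := mul_le_mul_of_nonneg_left h5 (abs_nonneg _)
  linarith

/-- **from the honeycomb lattice, upper bound** -/
theorem up_of (H : Cmp p q r s c0 C0) {β : ℝ} (h : Up r β) : Up s β := by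
  intro ε hε
  obtain ⟨N0, hN0⟩ := eventually_atTop.1 (h (ε / 2) (by positivity))
  have hβ : 0 ≤ β + ε / 2 := by
    have h1 := hN0 (N0 + 2) (by omega)
    have h2 := Real.log_nonneg (H.r1 (N0 + 2))
    have h3 : 0 < Real.log ((N0 + 2 : ℕ) : ℝ) :=
      Real.log_pos (by exact_mod_cast (show 1 < N0 + 2 by omega))
    nlinarith
  have hC := H.hC0
  have key : ∀ᶠ n : ℕ in atTop, Real.log (s (n + 3)) ≤ (β + ε) * Real.log ((n + 3 : ℕ) : ℝ) := by
    have e1 := tlog.eventually_ge_atTop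
      ((Real.log (3 * C0) + |β + ε / 2| * 2) / (ε / 2))
    filter_upwards [eventually_ge_atTop (4 * N0 + 20), (tendsto_add_atTop_nat 3).eventually e1]
      with n hn hL
    rw [div_le_iff₀ (by positivity)] at hL
    have bd : ∀ N, n + 2 ≤ N → N ≤ n + 4 →
        GG p q r N ≤ Real.exp ((β + ε / 2) * Real.log ((n + 3 : ℕ) : ℝ) + |β + ε / 2| * 2) := by
      intro N h1 h2
      refine GG_le H.hp.le H.hq.le H.hpq (Real.exp_pos _).le fun m h3 h4 => ?_
      rw [← Real.log_le_iff_le_exp (zero_lt_one.trans_le (H.r1 m))]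
      refine (hN0 m (by omega)).trans ?_
      exact log_cmp (by omega) (by omega) (by omega) _
    have h1 := H.up n
    have h2 := bd (n + 4) (by omega) (by omega)
    have h3 := bd (n + 3) (by omega) (by omega)
    have h4 := bd (n + 2) (by omega) (by omega)
    have h5 : s (n + 3) ≤ 3 * C0 *
        Real.exp ((β + ε / 2) * Real.log ((n + 3 : ℕ) : ℝ) + |β + ε / 2| * 2) := by
      nlinarith
    have h6 := Real.log_le_log (H.s_pos (by omega)) h5
    rw [Real.log_mul (by positivity) (Real.exp_pos _).ne', Real.log_exp] at h6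
    linarith
  obtain ⟨N1, hN1⟩ := eventually_atTop.1 key
  filter_upwards [eventually_ge_atTop (N1 + 3)] with n hn
  have := hN1 (n - 3) (by omega)
  rwa [show n - 3 + 3 = n by omega] at this

/-- **from the honeycomb lattice, lower bound** -/
theorem lo_of (H : Cmp p q r s c0 C0) {β : ℝ} (h : Lo r β) : Lo s β := by
  intro ε hε
  obtain ⟨N0, hN0⟩ := eventually_atTop.1 (h (ε / 2) (by positivity))
  have hp := H.hp
  have hq := H.hq
  have hc := H.hc0
  have e1 := tlog.eventually_ge_atTop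
      ((|β - ε / 2| * 4 - Real.log (c0 * (p ^ 2 * q))) / (ε / 2))
  filter_upwards [eventually_ge_atTop (4 * N0 + 20), e1] with n hn hL
  rw [div_le_iff₀ (by positivity)] at hL
  have h1 := GG_ge hp hq H.hpq (r := r) (N := n + 1) (by omega)
    (b := Real.exp ((β - ε / 2) * Real.log n - |β - ε / 2| * 2)) (Real.exp_pos _).le
    (fun m h3 h4 => by
      rw [← Real.le_log_iff_exp_le (zero_lt_one.trans_le (H.r1 m))]
      refine le_trans ?_ (hN0 m (by omega))
      have := log_cmp (a := n) (b := m) (by omega) (by omega) (by omega) (β - ε / 2)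
      linarith)
  have h2 := H.lo n
  have h3 : c0 * (p ^ 2 * q) * Real.exp ((β - ε / 2) * Real.log n - |β - ε / 2| * 2) ≤ s n := by
    calc _ = c0 * (Real.exp ((β - ε / 2) * Real.log n - |β - ε / 2| * 2) * (p ^ 2 * q)) := by ring
      _ ≤ c0 * GG p q r (n + 1) := mul_le_mul_of_nonneg_left h1 hc.le
      _ ≤ _ := h2
  have h4 := Real.log_le_log (by positivity) h3
  rw [Real.log_mul (by positivity) (Real.exp_pos _).ne', Real.log_exp] at h4
  have := abs_nonneg (β - ε / 2)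
  linarith

open Pool.Agent.R956 in
/-- slow decrease at the scale `√m` -/
lemma slow {K β : ℝ} (S : V1.Sq r K β) {ε : ℝ} (hε : 0 < ε) : ∃ δ : ℝ, 0 < δ ∧ δ ≤ 1 ∧
    ∀ᶠ m : ℕ in atTop, ∀ i : ℕ, (i : ℝ) ≤ δ * √(m : ℝ) →
      r m * Real.exp (-(ε * Real.log m)) ≤ r (m + 2 * i) := by
  have hK := S.hK
  refine ⟨min 1 (ε / (4 * (K + 1))), by positivity, min_le_left _ _, ?_⟩
  have t : Tendsto (fun n => K * D2.f n) atTop (𝓝 0) := by
    simpa using D2.f_tendsto.const_mul K
  filter_upwards [t.eventually_lt_const (show (0 : ℝ) < 1 / 4 by norm_num),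
    eventually_ge_atTop 16] with m hm hm16
  intro i hi
  have hm0 : (0 : ℝ) < m := by exact_mod_cast (show 0 < m by omega)
  have hs := Real.sqrt_nonneg (m : ℝ)
  have hss : √(m : ℝ) * √(m : ℝ) = m := Real.mul_self_sqrt hm0.le
  have hs4 : 4 ≤ √(m : ℝ) := by
    rw [Real.le_sqrt (by norm_num) hm0.le]
    have : ((16 : ℕ) : ℝ) ≤ m := by exact_mod_cast hm16
    norm_num at this ⊢
    linarith
  have hlog : 0 ≤ Real.log m := Real.log_natCast_nonneg m
  have hi1 : (i : ℝ) ≤ √(m : ℝ) :=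
    hi.trans (mul_le_of_le_one_left hs (min_le_left _ _))
  have him : 2 * i ≤ m := by
    have : (2 * i : ℝ) ≤ m := by nlinarith
    exact_mod_cast this
  have fm0 := D2.f_nonneg m
  have step : ∀ j : ℕ, j ≤ i → r m * Real.exp (-(4 * K * D2.f m * j)) ≤ r (m + 2 * j) := by
    intro j
    induction j with
    | zero => intro _; simp
    | succ j ih =>
      intro hj
      have h1 := ih (by omega)
      have h2 := (abs_le.1 (S.rate (m + 2 * j) (by omega))).1
      have h3 := D2.f_window (show 2 ≤ m by omega) (show m ≤ m + 2 * j by omega) (by omega)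
      have h4 : K * D2.f (m + 2 * j) ≤ 2 * (K * D2.f m) := by nlinarith
      have h5 := S.pos (m + 2 * j)
      have h6 : 1 - 2 * (K * D2.f m) ≤ r (m + 2 * j + 2) / r (m + 2 * j) := by linarith
      rw [le_div_iff₀ h5] at h6
      have h7 : Real.exp (-(4 * K * D2.f m)) ≤ 1 - 2 * (K * D2.f m) := by
        obtain ⟨y, hy⟩ : ∃ y, y = 2 * (K * D2.f m) := ⟨_, rfl⟩
        have hy0 : 0 ≤ y := by rw [hy]; positivity
        have hy1 : y ≤ 1 / 2 := by rw [hy]; linarith
        have e : -(4 * K * D2.f m) = -(2 * y) := by rw [hy]; ring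
        rw [e, ← hy, Real.exp_neg, inv_eq_one_div, div_le_iff₀ (Real.exp_pos _)]
        have := Real.add_one_le_exp (2 * y)
        nlinarith
      have e : Real.exp (-(4 * K * D2.f m * ((j + 1 : ℕ) : ℝ))) =
          Real.exp (-(4 * K * D2.f m * j)) * Real.exp (-(4 * K * D2.f m)) := by
        rw [← Real.exp_add]; congr 1; push_cast; ring
      rw [e, show m + 2 * (j + 1) = m + 2 * j + 2 by ring]
      calc r m * (Real.exp (-(4 * K * D2.f m * j)) * Real.exp (-(4 * K * D2.f m)))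
          = (r m * Real.exp (-(4 * K * D2.f m * j))) * Real.exp (-(4 * K * D2.f m)) := by ring
        _ ≤ r (m + 2 * j) * (1 - 2 * (K * D2.f m)) := by
            apply mul_le_mul h1 h7 (Real.exp_pos _).le h5.le
        _ ≤ _ := by linarith
  refine le_trans ?_ (step i le_rfl)
  refine mul_le_mul_of_nonneg_left (Real.exp_le_exp.2 ?_) (S.pos m).le
  rw [neg_le_neg_iff]
  have h1 : D2.f m * √(m : ℝ) = Real.log m := by
    unfold D2.f
    have : √(m : ℝ) ≠ 0 := by
      intro e; rw [e] at hs4; norm_num at hs4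
    field_simp
  calc 4 * K * D2.f m * i ≤ 4 * K * D2.f m * (min 1 (ε / (4 * (K + 1))) * √(m : ℝ)) := by gcongr
    _ = 4 * K * min 1 (ε / (4 * (K + 1))) * (D2.f m * √(m : ℝ)) := by ring
    _ = 4 * K * min 1 (ε / (4 * (K + 1))) * Real.log m := by rw [h1]
    _ ≤ 4 * K * (ε / (4 * (K + 1))) * Real.log m := by
        gcongr
        exact min_le_right _ _
    _ ≤ ε * Real.log m := by
        refine mul_le_mul_of_nonneg_right ?_ hlog
        rw [mul_div_assoc', div_le_iff₀ (by positivity)]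
        nlinarith

end Pool.Agent.D0H94.T12
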