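import Pool.Agent.D0H94.T12.Ana

/-!
# Exponents: back to the honeycomb lattice, upper bound
-/

set_option autoImplicit false
set_option linter.unusedVariables false

namespace Pool.Agent.D0H94.T12

open Finset Filter Topology
open Pool.Agent.Y943.SL (Wk)

variable {p q : ℝ} {r s : ℕ → ℝ} {c0 C0 : ℝ}

lemma GG_ext (r : ℕ → ℝ) {N L : ℕ} (h : N ≤ L) :
    ∑ m ∈ range L, r m * pw p q (m + 1) N = GG p q r N := by
  unfold GG
  refine (sum_subset (range_subset_range.2 h) fun m _ hm => ?_).symm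
  rw [mem_range, not_lt] at hm
  rw [pw_zero_low _ _ (by omega), mul_zero]

lemma GG_part (H : Cmp p q r s c0 C0) (N m I : ℕ) :
    ∑ i ∈ range (I + 1), r (m + 2 * i) * pw p q (m + 2 * i + 1) N ≤ GG p q r N := by
  classical
  rw [← GG_ext r (show N ≤ N + (m + 2 * I + 1) by omega)]
  have hinj : Set.InjOn (fun i => m + 2 * i) (range (I + 1) : Set ℕ) := by
    intro a _ b _ h
    simp only at h
    omega
  have e : ∑ i ∈ range (I + 1), r (m + 2 * i) * pw p q (m + 2 * i + 1) N =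
      ∑ m' ∈ (range (I + 1)).image (fun i => m + 2 * i), r m' * pw p q (m' + 1) N := by
    rw [sum_image hinj]
  rw [e]
  refine sum_le_sum_of_subset_of_nonneg ?_ fun m' _ _ =>
    mul_nonneg (zero_le_one.trans (H.r1 _)) (pw_nonneg H.hp.le H.hq.le _ _)
  intro x hx
  rw [mem_image] at hx
  obtain ⟨i, hi, rfl⟩ := hx
  rw [mem_range] at hi ⊢
  omega

open Pool.Agent.R956 in
/-- **to the honeycomb lattice, upper bound** -/
theorem up_back (H : Cmp p q r s c0 C0) {K β0 : ℝ} (S : V1.Sq r K β0) {β : ℝ} (h : Up s β) :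
    Up r β := by
  intro ε hε
  obtain ⟨δ, hδ0, hδ1, hδ⟩ := slow S (show 0 < ε / 4 by positivity)
  obtain ⟨N0, hN0⟩ := eventually_atTop.1 (h (ε / 4) (by positivity))
  have hp := H.hp
  have hq := H.hq
  have hq1 : q ≤ 1 := by linarith [H.hpq]
  have hc := H.hc0
  have e1 := tlog.eventually_ge_atTop
      ((|β + ε / 4| * 2 + Real.log (50 / (c0 * δ))) / (ε / 2))
  filter_upwards [eventually_ge_atTop (4 * N0 + 400), e1, hδ] with m hm hL hslow
  rw [div_le_iff₀ (by positivity)] at hL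
  have hm0 : (0 : ℝ) < m := by exact_mod_cast (show 0 < m by omega)
  obtain ⟨x, hx⟩ : ∃ x : ℝ, x = √(m : ℝ) := ⟨_, rfl⟩
  have hxx : x * x = m := by rw [hx]; exact Real.mul_self_sqrt hm0.le
  have hx20 : 20 ≤ x := by
    rw [hx, Real.le_sqrt (by norm_num) hm0.le]
    have : ((400 : ℕ) : ℝ) ≤ m := by exact_mod_cast (show 400 ≤ m by omega)
    norm_num at this ⊢
    linarith
  rw [← hx] at hslow
  obtain ⟨I, hI⟩ : ∃ I : ℕ, I = ⌊δ * x⌋₊ := ⟨_, rfl⟩
  have hI1 : (I : ℝ) ≤ δ * x := by rw [hI]; exact Nat.floor_le (by positivity)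
  have hI2 : δ * x < I + 1 := by rw [hI]; exact Nat.lt_floor_add_one _
  obtain ⟨W, hW⟩ : ∃ W : Finset ℤ, W = Finset.Icc ⌈(2 + q) * (m + 1) - 12 * x⌉
    ⌊(2 + q) * (m + 1) + 12 * x⌋ := ⟨_, rfl⟩
  have hWm : ∀ z : ℤ, z ∈ W ↔ (2 + q) * (m + 1) - 12 * x ≤ z ∧
      (z : ℝ) ≤ (2 + q) * (m + 1) + 12 * x := by
    intro z
    rw [hW, Finset.mem_Icc, Int.ceil_le, Int.le_floor]
  -- the number of elements
  have hcard : (W.card : ℝ) ≤ 25 * x := by
    rw [hW, Int.card_Icc]
    have h1 := Int.floor_le ((2 + q) * (m + 1) + 12 * x)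
    have h2 := Int.le_ceil ((2 + q) * (m + 1) - 12 * x)
    have h3 : (((⌊(2 + q) * (m + 1) + 12 * x⌋ + 1 - ⌈(2 + q) * (m + 1) - 12 * x⌉).toNat : ℤ) : ℝ) =
        ((max (⌊(2 + q) * (m + 1) + 12 * x⌋ + 1 - ⌈(2 + q) * (m + 1) - 12 * x⌉) 0 : ℤ) : ℝ) := by
      rw [Int.toNat_eq_max]
    rw [Int.cast_natCast] at h3
    rw [h3, Int.cast_max, max_le_iff]
    constructor
    · push_cast
      linarith
    · push_cast
      positivity
  -- the elements
  have hWb : ∀ z ∈ W, ((z.toNat : ℕ) : ℤ) = z ∧ m + 2 ≤ z.toNat ∧ z.toNat ≤ 4 * m := by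
    intro z hz
    rw [hWm] at hz
    obtain ⟨h1, h2⟩ := hz
    have h3 : ((m + 2 : ℕ) : ℝ) ≤ (z : ℝ) := by
      push_cast
      nlinarith
    have h4 : (z : ℝ) ≤ ((4 * m : ℕ) : ℝ) := by
      push_cast
      nlinarith
    have h5 : ((m + 2 : ℕ) : ℤ) ≤ z := by exact_mod_cast h3
    have h6 : z ≤ ((4 * m : ℕ) : ℤ) := by exact_mod_cast h4
    omega
  -- lower bound for the sum
  have low : ((I : ℝ) + 1) * (r m * Real.exp (-(ε / 4 * Real.log m)) / 2) ≤
      ∑ z ∈ W, GG p q r z.toNat := by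
    have h1 : ∑ z ∈ W, ∑ i ∈ range (I + 1), r (m + 2 * i) * pw p q (m + 2 * i + 1) z ≤
        ∑ z ∈ W, GG p q r z.toNat := by
      refine sum_le_sum fun z hz => ?_
      have h2 := GG_part H z.toNat m I
      rw [(hWb z hz).1] at h2
      exact h2
    refine le_trans ?_ h1
    rw [sum_comm]
    have h3 : ∀ i ∈ range (I + 1), r m * Real.exp (-(ε / 4 * Real.log m)) / 2 ≤
        ∑ z ∈ W, r (m + 2 * i) * pw p q (m + 2 * i + 1) z := by
      intro i hi
      rw [mem_range] at hi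
      have hiI : (i : ℝ) ≤ I := by exact_mod_cast (show i ≤ I by omega)
      have hi1 : (i : ℝ) ≤ δ * x := hiI.trans hI1
      have hi2 : (i : ℝ) ≤ x := hi1.trans (mul_le_of_le_one_left (by positivity) hδ1)
      have h4 := hslow i hi1
      rw [← mul_sum]
      have hq2 : (0 : ℝ) ≤ i := Nat.cast_nonneg i
      have h5 := conc hp.le hq.le H.hpq (m := m + 2 * i + 1) (by omega) W (by
        intro z hz
        rw [hWm]
        have h6 : √((m + 2 * i + 1 : ℕ) : ℝ) ≤ 2 * x := by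
          rw [Real.sqrt_le_left (by positivity)]
          push_cast
          nlinarith
        rw [abs_le] at hz
        push_cast at hz h6
        constructor <;> nlinarith [hz.1, hz.2])
      have h7 := S.pos (m + 2 * i)
      calc r m * Real.exp (-(ε / 4 * Real.log m)) / 2
          ≤ r (m + 2 * i) / 2 := by linarith
        _ = r (m + 2 * i) * (1 / 2) := by ring
        _ ≤ _ := mul_le_mul_of_nonneg_left h5 h7.le
    calc ((I : ℝ) + 1) * (r m * Real.exp (-(ε / 4 * Real.log m)) / 2)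
        = ∑ i ∈ range (I + 1), r m * Real.exp (-(ε / 4 * Real.log m)) / 2 := by
          rw [sum_const, card_range, nsmul_eq_mul]; push_cast; ring
      _ ≤ _ := sum_le_sum h3
  -- upper bound for the sum
  obtain ⟨E, hE⟩ : ∃ E : ℝ, E = Real.exp ((β + ε / 4) * Real.log m + |β + ε / 4| * 2) := ⟨_, rfl⟩
  have hE0 : 0 < E := by rw [hE]; exact Real.exp_pos _
  have high : c0 * ∑ z ∈ W, GG p q r z.toNat ≤ 25 * x * E := by
    rw [mul_sum]
    calc ∑ z ∈ W, c0 * GG p q r z.toNat ≤ ∑ z ∈ W, E := by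
          refine sum_le_sum fun z hz => ?_
          obtain ⟨-, h1, h2⟩ := hWb z hz
          have h3 := H.lo (z.toNat - 1)
          rw [show z.toNat - 1 + 1 = z.toNat by omega] at h3
          refine h3.trans ?_
          rw [hE, ← Real.log_le_iff_le_exp (H.s_pos (by omega))]
          refine (hN0 (z.toNat - 1) (by omega)).trans ?_
          exact log_cmp (by omega) (by omega) (by omega) _
      _ = W.card * E := by rw [sum_const, nsmul_eq_mul]
      _ ≤ _ := mul_le_mul_of_nonneg_right hcard hE0.le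
  have hr := S.pos m
  obtain ⟨e, he⟩ : ∃ e : ℝ, e = Real.exp (-(ε / 4 * Real.log m)) := ⟨_, rfl⟩
  have he0 : 0 < e := by rw [he]; exact Real.exp_pos _
  rw [← he] at low
  have f1 : c0 * (δ * x * (r m * e / 2)) ≤ 25 * x * E := by
    refine le_trans ?_ high
    refine mul_le_mul_of_nonneg_left ?_ hc.le
    refine le_trans ?_ low
    exact mul_le_mul_of_nonneg_right hI2.le (by positivity)
  have f2 : r m * e ≤ 50 / (c0 * δ) * E := by
    rw [div_mul_eq_mul_div, le_div_iff₀ (by positivity)]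
    have hx0 : 0 < x := by linarith
    have : x * (r m * e * (c0 * δ)) ≤ x * (50 * E) := by linarith
    exact le_of_mul_le_mul_left this hx0
  have f3 := Real.log_le_log (by positivity) f2
  rw [Real.log_mul hr.ne' he0.ne', Real.log_mul (by positivity) hE0.ne', he, hE, Real.log_exp,
    Real.log_exp] at f3
  linarith

end Pool.Agent.D0H94.T12
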