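import Pool.Agent.D0H94.T12.Ana2

/-!
# Exponents: back to the honeycomb lattice, lower bound
-/

set_option autoImplicit false
set_option linter.unusedVariables false

namespace Pool.Agent.D0H94.T12

open Finset Filter Topology
open Pool.Agent.Y943.SL (Wk)

variable {p q : ℝ} {r s : ℕ → ℝ} {c0 C0 : ℝ}

lemma tlogn : Tendsto (fun n : ℕ => Real.log (n : ℝ) / n) atTop (𝓝 0) :=
  (Real.isLittleO_log_id_atTop.tendsto_div_nhds_zero).comp tendsto_natCast_atTop_atTop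

open Pool.Agent.R956 in
/-- low values spread to a window, same parity -/
lemma spread {l : ℕ → ℝ} {D : ℝ} {N1 : ℕ} (hD : 0 ≤ D)
    (hN1 : ∀ k, N1 ≤ k → 2 * l (k + 1) ≤ l k + l (k + 2) + D / k) {k0 T i : ℕ} {A Λ x κ a : ℝ}
    (hl : 0 ≤ l k0) (hl2 : l k0 ≤ a * Λ) (hΛ : 0 ≤ Λ) (hi : i ≤ T) (hT : 2 * T ≤ k0)
    (hT0 : 0 < T)
    (hk0 : 2 * N1 + 2 ≤ k0) (hx : (i : ℝ) ≤ κ * x) (hxT : x ≤ T) (hTx : (T : ℝ) ≤ 2 * x)
    (hκ : 0 ≤ κ) (hxk : x * x ≤ 3 * k0 * Λ) (hA0 : 0 ≤ A)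
    (h1 : l (k0 + T) ≤ A * Λ) (h2 : l (k0 - T) ≤ A * Λ) :
    l (k0 + i) ≤ (a + κ * (A + 12 * D)) * Λ ∧ l (k0 - i) ≤ (a + κ * (A + 12 * D)) * Λ := by
  have hT0' : (0 : ℝ) < T := by exact_mod_cast hT0
  have hi0 : (0 : ℝ) ≤ i := Nat.cast_nonneg i
  have hiT : (i : ℝ) ≤ T := by exact_mod_cast hi
  have hk0' : (0 : ℝ) < k0 := by exact_mod_cast (show 0 < k0 by omega)
  have hx0 : 0 < x := by linarith
  have b1 : (i : ℝ) * (A * Λ) ≤ T * (κ * A * Λ) := by
    calc (i : ℝ) * (A * Λ) ≤ (κ * x) * (A * Λ) := mul_le_mul_of_nonneg_right hx (by positivity)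
      _ ≤ (κ * T) * (A * Λ) := by gcongr
      _ = _ := by ring
  have b3 : (i : ℝ) * T ≤ 6 * κ * k0 * Λ := by
    calc (i : ℝ) * T ≤ (κ * x) * (2 * x) := mul_le_mul hx hTx hT0'.le (by positivity)
      _ = 2 * κ * (x * x) := by ring
      _ ≤ 2 * κ * (3 * k0 * Λ) := by gcongr
      _ = _ := by ring
  constructor
  · have h3 := K10.three hD hN1 (show N1 + 1 ≤ k0 by omega) i (T - i)
    rw [Nat.cast_sub hi, show k0 + i + (T - i) = k0 + T by omega] at h3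
    have b2 : D * (((T : ℝ) - i) * i * ((T : ℝ) - i + i)) / k0 ≤ T * (κ * (12 * D) * Λ) := by
      rw [div_le_iff₀ hk0']
      calc D * (((T : ℝ) - i) * i * ((T : ℝ) - i + i)) = (D * ((T : ℝ) - i)) * (i * T) := by ring
        _ ≤ (D * T) * (6 * κ * k0 * Λ) := by
            apply mul_le_mul _ b3 (by positivity) (by positivity)
            exact mul_le_mul_of_nonneg_left (by linarith) hD
        _ ≤ T * (κ * (12 * D) * Λ) * k0 := by
            have : 0 ≤ D * T * κ * k0 * Λ := by positivity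
            nlinarith
    have b4 : ((T : ℝ) - i) * l k0 ≤ T * (a * Λ) := by
      calc ((T : ℝ) - i) * l k0 ≤ T * l k0 := mul_le_mul_of_nonneg_right (by linarith) hl
        _ ≤ _ := mul_le_mul_of_nonneg_left hl2 hT0'.le
    have b5 : (i : ℝ) * l (k0 + T) ≤ i * (A * Λ) := mul_le_mul_of_nonneg_left h1 hi0
    have h4 : (T : ℝ) * l (k0 + i) ≤ T * ((a + κ * (A + 12 * D)) * Λ) := by
      have : (T : ℝ) - i + i = T := by ring
      rw [this] at h3 b2
      linarith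
    exact le_of_mul_le_mul_left h4 hT0'
  · have h3 := K10.three hD hN1 (show N1 + 1 ≤ k0 - T by omega) (T - i) i
    rw [Nat.cast_sub hi, show k0 - T + (T - i) + i = k0 by omega,
      show k0 - T + (T - i) = k0 - i by omega, Nat.cast_sub (show T ≤ k0 by omega)] at h3
    have hkT : (k0 : ℝ) / 2 ≤ (k0 : ℝ) - T := by
      have : ((2 * T : ℕ) : ℝ) ≤ k0 := by exact_mod_cast hT
      push_cast at this
      linarith
    have hkT0 : (0 : ℝ) < (k0 : ℝ) - T := by linarith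
    have b2 : D * ((i : ℝ) * ((T : ℝ) - i) * (i + ((T : ℝ) - i))) / ((k0 : ℝ) - T) ≤
        T * (κ * (12 * D) * Λ) := by
      rw [div_le_iff₀ hkT0]
      calc D * ((i : ℝ) * ((T : ℝ) - i) * (i + ((T : ℝ) - i))) =
            (D * ((T : ℝ) - i)) * (i * T) := by ring
        _ ≤ (D * T) * (6 * κ * k0 * Λ) := by
            apply mul_le_mul _ b3 (by positivity) (by positivity)
            exact mul_le_mul_of_nonneg_left (by linarith) hD
        _ = T * (κ * (12 * D) * Λ) * (k0 / 2) := by ring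
        _ ≤ _ := mul_le_mul_of_nonneg_left hkT (by positivity)
    have b4 : ((T : ℝ) - i) * l k0 ≤ T * (a * Λ) := by
      calc ((T : ℝ) - i) * l k0 ≤ T * l k0 := mul_le_mul_of_nonneg_right (by linarith) hl
        _ ≤ _ := mul_le_mul_of_nonneg_left hl2 hT0'.le
    have b5 : (i : ℝ) * l (k0 - T) ≤ i * (A * Λ) := mul_le_mul_of_nonneg_left h2 hi0
    have h4 : (T : ℝ) * l (k0 - i) ≤ T * ((a + κ * (A + 12 * D)) * Λ) := by
      have : (i : ℝ) + ((T : ℝ) - i) = T := by ring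
      rw [this] at h3 b2
      linarith
    exact le_of_mul_le_mul_left h4 hT0'

open Pool.Agent.R956 in
/-- one parity -/
lemma spread_par {c : ℕ → ℝ} {μ : ℝ} (W : Wk c μ) {s' : ℕ} (hs : s' ≤ 1) {α η : ℝ} (hη : 0 < η)
    (hU : Up (fun n => c n / μ ^ n) α) : ∃ κ : ℝ, 0 < κ ∧ κ ≤ 1 / 2 ∧ ∀ κ' : ℝ, 0 < κ' → κ' ≤ κ →
    ∀ᶠ m : ℕ in atTop, m % 2 = s' → Real.log (c m / μ ^ m) ≤ (α - η) * Real.log m →
      ∀ i : ℕ, (i : ℝ) ≤ κ' * √(m * Real.log m) →
        2 * i ≤ m ∧ Real.log (c (m + 2 * i) / μ ^ (m + 2 * i)) ≤ (α - η / 2) * Real.log m ∧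
        Real.log (c (m - 2 * i) / μ ^ (m - 2 * i)) ≤ (α - η / 2) * Real.log m := by
  obtain ⟨D, hK⟩ := K3.kc W hs
  have hD := hK.D0
  obtain ⟨N1, hN1⟩ := eventually_atTop.1 hK.conv
  obtain ⟨A, hA⟩ : ∃ A : ℝ, A = |α + 1| + 1 := ⟨_, rfl⟩
  have hA0 : 0 < A := by rw [hA]; positivity
  obtain ⟨N2, hN2⟩ := eventually_atTop.1 (hU 1 one_pos)
  refine ⟨min (1 / 2) (η / (2 * (A + 12 * D))), by positivity, min_le_left _ _, ?_⟩
  intro κ hκ0 hκ
  have e1 := tlog.eventually_ge_atTop (2 * |α + 1| + 1)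
  have e2 := tlogn.eventually_lt_const (show (0 : ℝ) < 1 / 1000 by norm_num)
  filter_upwards [e1, e2, eventually_ge_atTop (8 * N1 + 8 * N2 + 100)] with m hm1 hm2 hm3
  intro hpar hlow i hi
  obtain ⟨Λ, hΛ⟩ : ∃ Λ : ℝ, Λ = Real.log m := ⟨_, rfl⟩
  rw [← hΛ] at hm1 hm2 hlow hi ⊢
  have hm0 : (0 : ℝ) < m := by exact_mod_cast (show 0 < m by omega)
  have hΛ1 : 1 ≤ Λ := by
    have := abs_nonneg (α + 1)
    linarith
  have hΛm : Λ ≤ m / 1000 := by
    rw [div_lt_iff₀ hm0] at hm2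
    linarith
  obtain ⟨x, hx⟩ : ∃ x : ℝ, x = √(m * Λ) := ⟨_, rfl⟩
  rw [← hx] at hi
  have hxx : x * x = m * Λ := by rw [hx]; exact Real.mul_self_sqrt (by positivity)
  have hx1 : 1 ≤ x := by
    rw [hx, Real.le_sqrt (by norm_num) (by positivity)]
    have : (1 : ℝ) ≤ m := by exact_mod_cast (show 1 ≤ m by omega)
    nlinarith
  have hxm : x ≤ m / 20 := by
    rw [hx, Real.sqrt_le_left (by positivity)]
    calc (m : ℝ) * Λ ≤ m * (m / 1000) := mul_le_mul_of_nonneg_left hΛm hm0.le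
      _ ≤ (m / 20) ^ 2 := by nlinarith
  obtain ⟨T, hT⟩ : ∃ T : ℕ, T = ⌈x⌉₊ := ⟨_, rfl⟩
  have hT1 : x ≤ T := by rw [hT]; exact Nat.le_ceil x
  have hT2 : (T : ℝ) < x + 1 := by rw [hT]; exact Nat.ceil_lt_add_one (by linarith)
  obtain ⟨k0, hk0⟩ : ∃ k0 : ℕ, m = 2 * k0 + s' := ⟨m / 2, by omega⟩
  have hκ2 : κ ≤ 1 / 2 := hκ.trans (min_le_left _ _)
  have hiT : i ≤ T := by
    have : (i : ℝ) ≤ T := by nlinarith
    exact_mod_cast this
  have hmk : (m : ℝ) ≤ 2 * k0 + 1 := by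
    rw [hk0]; push_cast
    have : (s' : ℝ) ≤ 1 := by exact_mod_cast hs
    linarith
  have hTk : 2 * T ≤ k0 := by
    have : (2 * T : ℝ) ≤ k0 := by
      have h9 : (100 : ℝ) ≤ m := by exact_mod_cast (show 100 ≤ m by omega)
      linarith
    exact_mod_cast this
  have hT0 : 0 < T := by
    have : (0 : ℝ) < T := by linarith
    exact_mod_cast this
  have hlog : ∀ m' : ℕ, m ≤ 4 * m' → m' ≤ 4 * m →
      Real.log (c m' / μ ^ m') ≤ A * Λ := by
    intro m' h1 h2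
    refine (hN2 m' (by omega)).trans ?_
    have h3 := log_cmp (a := m') (b := m) (by omega) h2 h1 (α + 1)
    rw [← hΛ] at h3
    have h4 : (α + 1) * Λ ≤ |α + 1| * Λ := mul_le_mul_of_nonneg_right (le_abs_self _) (by linarith)
    rw [hA]
    nlinarith
  have hsp := spread (l := fun k => Real.log (c (2 * k + s') / μ ^ (2 * k + s'))) hD hN1
    (k0 := k0) (T := T) (i := i) (A := A) (Λ := Λ) (x := x) (κ := κ)
    (a := α - η) (Real.log_nonneg (W.one_le _)) (by rw [← hk0]; exact hlow) (by linarith) hiT hTk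
    hT0 (by omega) hi hT1 (by linarith) hκ0.le (by
      rw [hxx]
      have h5 : (m : ℝ) ≤ 3 * k0 := by
        have : (1 : ℝ) ≤ k0 := by exact_mod_cast (show 1 ≤ k0 by omega)
        linarith
      exact mul_le_mul_of_nonneg_right h5 (by linarith)) hA0.le
    (hlog _ (by omega) (by omega)) (hlog _ (by omega) (by omega))
  have hfin : (α - η + κ * (A + 12 * D)) * Λ ≤ (α - η / 2) * Λ := by
    refine mul_le_mul_of_nonneg_right ?_ (by linarith)
    have h6 : κ * (A + 12 * D) ≤ η / 2 := by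
      calc κ * (A + 12 * D) ≤ (η / (2 * (A + 12 * D))) * (A + 12 * D) :=
            mul_le_mul_of_nonneg_right (hκ.trans (min_le_right _ _)) (by positivity)
        _ = η / 2 := by field_simp
    linarith
  refine ⟨by omega, ?_, ?_⟩
  · have h7 := hsp.1.trans hfin
    rw [show m + 2 * i = 2 * (k0 + i) + s' by omega]
    exact h7
  · have h7 := hsp.2.trans hfin
    rw [show m - 2 * i = 2 * (k0 - i) + s' by omega]
    exact h7

/-- the window -/
lemma window {c : ℕ → ℝ} {μ : ℝ} (W : Wk c μ) {α η : ℝ} (hη : 0 < η)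
    (hU : Up (fun n => c n / μ ^ n) α) : ∃ κ : ℝ, 0 < κ ∧ ∀ᶠ m : ℕ in atTop,
    Real.log (c m / μ ^ m) ≤ (α - η) * Real.log m →
      ∃ J : ℕ, κ * √(m * Real.log m) ≤ J ∧ J + 2 ≤ m ∧ ∀ m' : ℕ, m' ≤ m + J → m ≤ m' + J →
        Real.log (c m' / μ ^ m') ≤ (α - η / 3) * Real.log m := by
  obtain ⟨κ0, h00, h01, h0⟩ := spread_par W (s' := 0) (by norm_num) hη hU
  obtain ⟨κ1, h10, h11, h1⟩ := spread_par W (s' := 1) le_rfl hη hU
  obtain ⟨B, hB⟩ := W.par
  have hB0 : 0 ≤ B := (abs_nonneg _).trans (hB 1 le_rfl)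
  obtain ⟨κ, hκ⟩ : ∃ κ : ℝ, κ = min κ0 κ1 := ⟨_, rfl⟩
  have hκ0 : 0 < κ := by rw [hκ]; exact lt_min h00 h10
  have e1 := tlog.eventually_ge_atTop (6 * B / η + 1)
  have e2 : ∀ᶠ m : ℕ in atTop, (1 / κ) ^ 2 ≤ (m : ℝ) :=
    tendsto_natCast_atTop_atTop.eventually_ge_atTop _
  refine ⟨κ, hκ0, ?_⟩
  filter_upwards [h0 κ hκ0 (by rw [hκ]; exact min_le_left _ _),
    h1 κ hκ0 (by rw [hκ]; exact min_le_right _ _), e1, e2, eventually_ge_atTop 100,
    tlogn.eventually_lt_const (show (0 : ℝ) < 1 / 1000 by norm_num)]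
    with m g0 g1 g2 g3 hm2 g5
  intro hlow
  obtain ⟨Λ, hΛ⟩ : ∃ Λ : ℝ, Λ = Real.log m := ⟨_, rfl⟩
  rw [← hΛ] at g0 g1 g2 hlow g5 ⊢
  have hm0 : (0 : ℝ) < m := by exact_mod_cast (show 0 < m by omega)
  have hΛ1 : 1 ≤ Λ := by
    have : 0 ≤ 6 * B / η := by positivity
    linarith
  have hΛm : Λ ≤ m / 1000 := by
    rw [div_lt_iff₀ hm0] at g5
    linarith
  obtain ⟨x, hx⟩ : ∃ x : ℝ, x = √(m * Λ) := ⟨_, rfl⟩
  rw [← hx] at g0 g1 ⊢
  have hxκ : 1 ≤ κ * x := by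
    have h3 : 1 / κ ≤ x := by
      rw [hx]
      refine Real.le_sqrt_of_sq_le (g3.trans ?_)
      nlinarith
    rw [div_le_iff₀ hκ0] at h3
    linarith
  obtain ⟨I, hI⟩ : ∃ I : ℕ, I = ⌊κ * x⌋₊ := ⟨_, rfl⟩
  have hI1 : (I : ℝ) ≤ κ * x := by rw [hI]; exact Nat.floor_le (by linarith)
  have hI2 : κ * x < I + 1 := by rw [hI]; exact Nat.lt_floor_add_one _
  have hI3 : (1 : ℝ) ≤ I := by
    have : 1 ≤ I := by
      rw [hI]
      exact Nat.le_floor (by exact_mod_cast hxκ)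
    exact_mod_cast this
  have both : ∀ i : ℕ, i ≤ I → 2 * i ≤ m ∧
      Real.log (c (m + 2 * i) / μ ^ (m + 2 * i)) ≤ (α - η / 2) * Λ ∧
      Real.log (c (m - 2 * i) / μ ^ (m - 2 * i)) ≤ (α - η / 2) * Λ := by
    intro i hi
    have hi' : (i : ℝ) ≤ κ * x := le_trans (by exact_mod_cast hi) hI1
    rcases (show m % 2 = 0 ∨ m % 2 = 1 by omega) with h | h
    · exact g0 h hlow i hi'
    · exact g1 h hlow i hi'
  have hxm : x ≤ m / 20 := by
    rw [hx, Real.sqrt_le_left (by positivity)]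
    calc (m : ℝ) * Λ ≤ m * (m / 1000) := mul_le_mul_of_nonneg_left hΛm hm0.le
      _ ≤ (m / 20) ^ 2 := by nlinarith
  have hJm : 2 * I + 2 ≤ m := by
    have h8 : κ ≤ 1 / 2 := by rw [hκ]; exact (min_le_left _ _).trans h01
    have hx0 : 0 ≤ x := by rw [hx]; exact Real.sqrt_nonneg _
    have h9 : (100 : ℝ) ≤ m := by exact_mod_cast hm2
    have : ((2 * I + 2 : ℕ) : ℝ) ≤ m := by
      push_cast
      nlinarith
    exact_mod_cast this
  have hfin : (α - η / 2) * Λ + B ≤ (α - η / 3) * Λ := by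
    have h4 : 6 * B / η ≤ Λ := by linarith
    rw [div_le_iff₀ hη] at h4
    linarith
  refine ⟨2 * I, by push_cast; linarith, hJm, ?_⟩
  intro m' h3 h4
  rcases le_total m m' with h5 | h5
  · obtain ⟨d, hd⟩ : ∃ d, m' = m + d := ⟨m' - m, by omega⟩
    rcases Nat.even_or_odd' d with ⟨i, hi | hi⟩
    · have := (both i (by omega)).2.1
      rw [hd, hi]
      linarith
    · have h6 := (both i (by omega)).2.1
      have h7 := (abs_le.1 (hB (m + 2 * i) (by omega))).2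
      rw [hd, hi, show m + (2 * i + 1) = m + 2 * i + 1 by ring]
      linarith
  · obtain ⟨d, hd⟩ : ∃ d, m' + d = m := ⟨m - m', by omega⟩
    rcases Nat.even_or_odd' d with ⟨i, hi | hi⟩
    · have := (both i (by omega)).2.2
      rw [show m' = m - 2 * i by omega]
      linarith
    · have h8 := both i (by omega)
      have h6 := h8.2.2
      rcases Nat.eq_zero_or_pos m' with h9 | h9
      · exfalso
        omega
      · have h7 := (abs_le.1 (hB m' h9)).1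
        rw [show m' + 1 = m - 2 * i by omega] at h7
        linarith

end Pool.Agent.D0H94.T12
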