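import Pool.Agent.D0H94.T12.Ana3

/-!
# Exponents: the equivalence
-/

set_option autoImplicit false
set_option linter.unusedVariables false

namespace Pool.Agent.D0H94.T12

open Finset Filter Topology
open Pool.Agent.Y943.SL (Wk)

variable {p q : ℝ} {r s : ℕ → ℝ} {c0 C0 : ℝ}

lemma GG_window (H : Cmp p q r s c0 C0) {m J N : ℕ} {A' R : ℝ} (hm : 1 ≤ m) (hJ : J + 2 ≤ m)
    (hN1 : (N : ℝ) ≤ (2 + q) * (m + 1)) (hN2 : (2 + q) * m - 1 ≤ N) (hN0 : 1 ≤ N)
    (hA : ∀ m', m' ≤ m + J → m ≤ m' + J → Real.log (r m') ≤ A')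
    (hR : ∀ m', m' ≤ N → Real.log (r m') ≤ R) :
    GG p q r N ≤ Real.exp A' + 4 * Real.exp (R - (J : ℝ) ^ 2 / (2 * m)) := by
  have hp := H.hp
  have hq := H.hq
  have hm0 : (0 : ℝ) < m := by exact_mod_cast hm
  have hJ0 : (0 : ℝ) ≤ J := Nat.cast_nonneg J
  have hJm : (J : ℝ) ≤ m := by exact_mod_cast (show J ≤ m by omega)
  obtain ⟨θ, hθ⟩ : ∃ θ : ℝ, θ = J / (2 * m) := ⟨_, rfl⟩
  have hθ0 : 0 ≤ θ := by rw [hθ]; positivity
  have hθ1 : θ ≤ 1 := by
    rw [hθ, div_le_one (by positivity)]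
    linarith
  have hθJ : θ * J = (J : ℝ) ^ 2 / (2 * m) := by rw [hθ]; ring
  have hθm : 2 * m * θ ^ 2 = (J : ℝ) ^ 2 / (2 * m) := by rw [hθ]; field_simp
  have rp : ∀ m', 0 < r m' := fun m' => zero_lt_one.trans_le (H.r1 m')
  obtain ⟨M, hM⟩ : ∃ M : ℕ, M = m + J + 2 := ⟨_, rfl⟩
  obtain ⟨M', hM'⟩ : ∃ M' : ℕ, M' + J = m := ⟨m - J, by omega⟩
  -- the pointwise bound
  have pt : ∀ m' ∈ range N, r m' * pw p q (m' + 1) N ≤ Real.exp A' * pw p q (m' + 1) N +
      (Real.exp R * (if M ≤ m' + 1 then pw p q (m' + 1) N else 0) +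
      Real.exp R * (if m' + 1 ≤ M' then pw p q (m' + 1) N else 0)) := by
    intro m' hm'
    rw [mem_range] at hm'
    have hn := pw_nonneg hp.le hq.le (m' + 1) (N : ℤ)
    have hrR : r m' ≤ Real.exp R := by
      rw [← Real.log_le_iff_le_exp (rp m')]; exact hR m' hm'.le
    have x1 : 0 ≤ Real.exp A' * pw p q (m' + 1) N := mul_nonneg (Real.exp_pos _).le hn
    have x2 : 0 ≤ Real.exp R * pw p q (m' + 1) N := mul_nonneg (Real.exp_pos _).le hn
    have x3 := mul_le_mul_of_nonneg_right hrR hn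
    by_cases h1 : M ≤ m' + 1
    · rw [if_pos h1]
      split_ifs <;> linarith
    · by_cases h2 : m' + 1 ≤ M'
      · rw [if_pos h2, if_neg h1]
        linarith
      · rw [if_neg h1, if_neg h2]
        have h3 : r m' ≤ Real.exp A' := by
          rw [← Real.log_le_iff_le_exp (rp m')]
          exact hA m' (by omega) (by omega)
        have := mul_le_mul_of_nonneg_right h3 hn
        linarith
  have t0 : ∑ m' ∈ range N, pw p q (m' + 1) N ≤ 1 := by
    rw [ren_shift N hN0]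
    exact ren_le hp.le hq.le H.hpq _ _
  -- upper tail
  have tu : ∑ m' ∈ range N, (if M ≤ m' + 1 then pw p q (m' + 1) N else 0) ≤
      Real.exp (-((J : ℝ) ^ 2 / (2 * m))) := by
    have e1 : ∑ m' ∈ range N, (if M ≤ m' + 1 then pw p q (m' + 1) (N : ℤ) else 0) ≤
        ∑ k ∈ range N, pw p q (M + k) N := by
      have h1 : ∑ m' ∈ range N, (if M ≤ m' + 1 then pw p q (m' + 1) (N : ℤ) else 0) =
          ∑ k ∈ (range N).filter (fun m' => M ≤ m' + 1), pw p q (k + 1) (N : ℤ) := by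
        rw [sum_filter]
      rw [h1]
      have h2 : ∑ k ∈ (range N).filter (fun m' => M ≤ m' + 1), pw p q (k + 1) (N : ℤ) =
          ∑ j ∈ ((range N).filter (fun m' => M ≤ m' + 1)).image (fun k => k + 1 - M),
            pw p q (M + j) (N : ℤ) := by
        rw [sum_image]
        · refine sum_congr rfl fun k hk => ?_
          rw [mem_filter] at hk
          rw [show M + (k + 1 - M) = k + 1 by omega]
        · intro a ha b hb hab
          simp only [coe_filter, Set.mem_ofPred_eq, mem_range] at ha hb hab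
          omega
      rw [h2]
      refine sum_le_sum_of_subset_of_nonneg ?_ fun j _ _ => pw_nonneg hp.le hq.le _ _
      intro j hj
      rw [mem_image] at hj
      obtain ⟨k, hk, rfl⟩ := hj
      rw [mem_filter, mem_range] at hk
      rw [mem_range]
      omega
    refine e1.trans ((tail_up hp.le hq.le H.hpq hθ0 N M N).trans ?_)
    have b1 := mgf hp.le hq.le H.hpq (show |-θ| ≤ 1 by rw [abs_neg, abs_of_nonneg hθ0]; exact hθ1)
    rw [show 2 * -θ = -(2 * θ) by ring, show 3 * -θ = -(3 * θ) by ring] at b1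
    have c1 := pow_le_pow_left₀ (by positivity) b1 M
    rw [← Real.exp_nat_mul] at c1
    refine (mul_le_mul_of_nonneg_left c1 (Real.exp_pos _).le).trans ?_
    rw [← Real.exp_add]
    apply Real.exp_le_exp.2
    have hMr : (M : ℝ) = m + J + 2 := by rw [hM]; push_cast; ring
    have k1 : θ * (N : ℝ) ≤ θ * ((2 + q) * (m + 1)) := mul_le_mul_of_nonneg_left hN1 hθ0
    have k2 : (M : ℝ) * θ ^ 2 ≤ 2 * m * θ ^ 2 := by
      refine mul_le_mul_of_nonneg_right ?_ (sq_nonneg _)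
      rw [hMr]
      have : ((J + 2 : ℕ) : ℝ) ≤ m := by exact_mod_cast hJ
      push_cast at this
      linarith
    have k3 : 0 ≤ θ * (q * (J + 1) + 2) := by positivity
    rw [Int.cast_natCast]
    calc θ * (N : ℝ) + M * ((2 + q) * -θ + (-θ) ^ 2)
        = θ * N - (2 + q) * (θ * M) + M * θ ^ 2 := by ring
      _ ≤ θ * ((2 + q) * (m + 1)) - (2 + q) * (θ * M) + 2 * m * θ ^ 2 := by linarith
      _ = -(2 * (θ * J)) - θ * (q * (J + 1) + 2) + 2 * m * θ ^ 2 := by rw [hMr]; ring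
      _ ≤ _ := by rw [hθJ, hθm]; linarith
  -- lower tail
  have td : ∑ m' ∈ range N, (if m' + 1 ≤ M' then pw p q (m' + 1) N else 0) ≤
      3 * Real.exp (-((J : ℝ) ^ 2 / (2 * m))) := by
    have e1 : ∑ m' ∈ range N, (if m' + 1 ≤ M' then pw p q (m' + 1) (N : ℤ) else 0) ≤
        ∑ k ∈ range (M' + 1), pw p q k N := by
      have h1 : ∑ m' ∈ range N, (if m' + 1 ≤ M' then pw p q (m' + 1) (N : ℤ) else 0) =
          ∑ k ∈ (range N).filter (fun m' => m' + 1 ≤ M'), pw p q (k + 1) (N : ℤ) := by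
        rw [sum_filter]
      rw [h1]
      have h2 : ∑ k ∈ (range N).filter (fun m' => m' + 1 ≤ M'), pw p q (k + 1) (N : ℤ) =
          ∑ j ∈ ((range N).filter (fun m' => m' + 1 ≤ M')).image (fun k => k + 1),
            pw p q j (N : ℤ) := by
        rw [sum_image]
        intro a ha b hb hab
        simp only at hab
        omega
      rw [h2]
      refine sum_le_sum_of_subset_of_nonneg ?_ fun j _ _ => pw_nonneg hp.le hq.le _ _
      intro j hj
      rw [mem_image] at hj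
      obtain ⟨k, hk, rfl⟩ := hj
      rw [mem_filter, mem_range] at hk
      rw [mem_range]
      omega
    refine e1.trans ((tail_dn hp.le hq.le H.hpq hθ0 M' N).trans ?_)
    have b1 := mgf hp.le hq.le H.hpq (show |θ| ≤ 1 by rw [abs_of_nonneg hθ0]; exact hθ1)
    have c1 := pow_le_pow_left₀ (by positivity) b1 M'
    rw [← Real.exp_nat_mul] at c1
    refine (mul_le_mul_of_nonneg_left c1 (Real.exp_pos _).le).trans ?_
    rw [← Real.exp_add]
    have hMr : (M' : ℝ) = m - J := by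
      have : ((M' + J : ℕ) : ℝ) = m := by exact_mod_cast hM'
      push_cast at this
      linarith
    have k1 : θ * ((2 + q) * m - 1) ≤ θ * (N : ℝ) := mul_le_mul_of_nonneg_left hN2 hθ0
    have k2 : (M' : ℝ) * θ ^ 2 ≤ 2 * m * θ ^ 2 := by
      refine mul_le_mul_of_nonneg_right ?_ (sq_nonneg _)
      rw [hMr]
      linarith
    have k3 : 0 ≤ θ * (q * J) := by positivity
    have k4 : -(θ * ((N : ℤ) : ℝ)) + M' * ((2 + q) * θ + θ ^ 2) ≤
        1 + -((J : ℝ) ^ 2 / (2 * m)) := by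
      rw [Int.cast_natCast]
      calc -(θ * (N : ℝ)) + M' * ((2 + q) * θ + θ ^ 2)
          = -(θ * N) + (2 + q) * (θ * M') + M' * θ ^ 2 := by ring
        _ ≤ -(θ * ((2 + q) * m - 1)) + (2 + q) * (θ * M') + 2 * m * θ ^ 2 := by linarith
        _ = θ - 2 * (θ * J) - θ * (q * J) + 2 * m * θ ^ 2 := by rw [hMr]; ring
        _ ≤ _ := by rw [hθJ, hθm]; linarith
    refine (Real.exp_le_exp.2 k4).trans ?_
    rw [Real.exp_add]
    refine mul_le_mul_of_nonneg_right ?_ (Real.exp_pos _).le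
    exact Real.exp_one_lt_three.le
  -- conclusion
  have hfin : GG p q r N ≤ Real.exp A' * 1 + (Real.exp R * Real.exp (-((J : ℝ) ^ 2 / (2 * m))) +
      Real.exp R * (3 * Real.exp (-((J : ℝ) ^ 2 / (2 * m))))) := by
    unfold GG
    refine (sum_le_sum pt).trans ?_
    rw [sum_add_distrib, sum_add_distrib, ← mul_sum, ← mul_sum, ← mul_sum]
    have a1 := mul_le_mul_of_nonneg_left t0 (Real.exp_pos A').le
    have a2 := mul_le_mul_of_nonneg_left tu (Real.exp_pos R).le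
    have a3 := mul_le_mul_of_nonneg_left td (Real.exp_pos R).le
    linarith
  refine hfin.trans (le_of_eq ?_)
  rw [sub_eq_add_neg, Real.exp_add]
  ring

/-- a uniform upper bound -/
lemma up_unif (h1 : ∀ n, 1 ≤ r n) {α : ℝ} (hU : Up r α) {ε : ℝ} (hε : 0 < ε) (hα : 0 ≤ α + ε) :
    ∃ Cε : ℝ, 0 ≤ Cε ∧ ∀ n m' : ℕ, 1 ≤ n → m' ≤ n → Real.log (r m') ≤ Cε + (α + ε) * Real.log n := by
  obtain ⟨N2, hN2⟩ := eventually_atTop.1 (hU ε hε)
  have hnn : ∀ j, 0 ≤ Real.log (r j) := fun j => Real.log_nonneg (h1 j)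
  refine ⟨∑ j ∈ range (N2 + 1), Real.log (r j), sum_nonneg fun j _ => hnn j, ?_⟩
  intro n m' hn hm'
  have hlog : 0 ≤ (α + ε) * Real.log n := mul_nonneg hα (Real.log_natCast_nonneg n)
  rcases lt_or_ge m' (N2 + 1) with h | h
  · have := single_le_sum (f := fun j => Real.log (r j)) (fun j _ => hnn j) (mem_range.2 h)
    linarith
  · have h2 := hN2 m' (by omega)
    have h3 : (α + ε) * Real.log m' ≤ (α + ε) * Real.log n := by
      refine mul_le_mul_of_nonneg_left (Real.log_le_log ?_ (by exact_mod_cast hm')) hα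
      exact_mod_cast (show 0 < m' by omega)
    have : 0 ≤ ∑ j ∈ range (N2 + 1), Real.log (r j) := sum_nonneg fun j _ => hnn j
    linarith

/-- **to the honeycomb lattice, lower bound** -/
theorem lo_back {c : ℕ → ℝ} {μ : ℝ} (W : Wk c μ) (H : Cmp p q (fun n => c n / μ ^ n) s c0 C0)
    {α : ℝ} (hU : Up (fun n => c n / μ ^ n) α) (hL : Lo s α) : Lo (fun n => c n / μ ^ n) α := by
  intro η hη
  have hp := H.hp
  have hq := H.hq
  have hq1 : q ≤ 1 := by linarith [H.hpq]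
  have hC := H.hC0
  -- `α ≥ 0`
  have hα0 : ∀ ε : ℝ, 0 < ε → 0 ≤ α + ε := by
    intro ε hε
    obtain ⟨N0, hN0⟩ := eventually_atTop.1 (hU ε hε)
    have h1 := hN0 (N0 + 2) (by omega)
    have h2 := Real.log_nonneg (H.r1 (N0 + 2))
    have h3 : 0 < Real.log ((N0 + 2 : ℕ) : ℝ) :=
      Real.log_pos (by exact_mod_cast (show 1 < N0 + 2 by omega))
    by_contra h4
    push Not at h4
    have := mul_neg_of_neg_of_pos h4 h3
    simp only at h1 h2
    linarith
  obtain ⟨κ, hκ0, hwin⟩ := window W hη hU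
  obtain ⟨ε, hε⟩ : ∃ ε : ℝ, ε = min (η / 24) (κ ^ 2 / 16) := ⟨_, rfl⟩
  have hε0 : 0 < ε := by rw [hε]; positivity
  have hε1 : 24 * ε ≤ η := by
    have : ε ≤ η / 24 := by rw [hε]; exact min_le_left _ _
    linarith
  have hε2 : 16 * ε ≤ κ ^ 2 := by
    have : ε ≤ κ ^ 2 / 16 := by rw [hε]; exact min_le_right _ _
    linarith
  obtain ⟨Cε, hCε0, hCε⟩ := up_unif H.r1 hU hε0 (hα0 ε hε0)
  obtain ⟨N3, hN3⟩ := eventually_atTop.1 (hL ε hε0)
  obtain ⟨Q, hQ⟩ : ∃ Q : ℝ, Q = Real.log (3 * C0 * (1 + 4 * Real.exp (Cε + |α + ε| * 2))) :=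
    ⟨_, rfl⟩
  have e1 := tlog.eventually_ge_atTop ((|α - ε| * 2 + Q) / (6 * ε) + 1)
  filter_upwards [hwin, e1, eventually_ge_atTop (N3 + 100)] with m hw hm1 hm3
  by_contra hcon
  push Not at hcon
  obtain ⟨J, hJ1, hJm, hJ2⟩ := hw hcon.le
  obtain ⟨Λ, hΛ⟩ : ∃ Λ : ℝ, Λ = Real.log m := ⟨_, rfl⟩
  rw [← hΛ] at hm1 hJ1 hJ2 hcon
  have hm0 : (0 : ℝ) < m := by exact_mod_cast (show 0 < m by omega)
  have hm100 : (100 : ℝ) ≤ m := by exact_mod_cast (show 100 ≤ m by omega)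
  have hΛ0 : 0 < Λ := by
    rw [hΛ]
    exact Real.log_pos (by exact_mod_cast (show 1 < m by omega))
  have hJsq : κ ^ 2 * Λ / 2 ≤ (J : ℝ) ^ 2 / (2 * m) := by
    have h1 : (κ * √(m * Λ)) ^ 2 ≤ (J : ℝ) ^ 2 := pow_le_pow_left₀ (by positivity) hJ1 2
    rw [mul_pow, Real.sq_sqrt (by positivity)] at h1
    rw [div_le_div_iff₀ (by norm_num) (by positivity)]
    linarith
  have hJε : 8 * ε * Λ ≤ (J : ℝ) ^ 2 / (2 * m) := by
    refine le_trans ?_ hJsq
    have := mul_le_mul_of_nonneg_right hε2 hΛ0.le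
    linarith
  obtain ⟨N0, hN0⟩ : ∃ N0 : ℕ, N0 = ⌊(2 + q) * ((m : ℝ) + 1)⌋₊ := ⟨_, rfl⟩
  have hNa : (N0 : ℝ) ≤ (2 + q) * (m + 1) := by rw [hN0]; exact Nat.floor_le (by positivity)
  have hNb : (2 + q) * ((m : ℝ) + 1) < N0 + 1 := by rw [hN0]; exact Nat.lt_floor_add_one _
  have hN4 : N0 ≤ 4 * m := by
    have : (N0 : ℝ) ≤ ((4 * m : ℕ) : ℝ) := by push_cast; nlinarith
    exact_mod_cast this
  have hNm : m + 3 ≤ N0 := by
    have : ((m + 2 : ℕ) : ℝ) < N0 := by push_cast; nlinarith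
    have : m + 2 < N0 := by exact_mod_cast this
    omega
  obtain ⟨R, hR⟩ : ∃ R : ℝ, R = Cε + (α + ε) * Real.log N0 := ⟨_, rfl⟩
  have hRb : R ≤ Cε + |α + ε| * 2 + (α + ε) * Λ := by
    have := log_cmp (a := N0) (b := m) (by omega) (by omega) (by omega) (α + ε)
    rw [← hΛ] at this
    rw [hR]
    linarith
  have bd : ∀ i : ℕ, i ≤ 2 → GG p q (fun n => c n / μ ^ n) (N0 - i) ≤
      Real.exp ((α - 7 * ε) * Λ) * (1 + 4 * Real.exp (Cε + |α + ε| * 2)) := by
    intro i hi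
    have hi' : (i : ℝ) ≤ 2 := by exact_mod_cast hi
    have hi0 : (0 : ℝ) ≤ i := Nat.cast_nonneg i
    have hcast : ((N0 - i : ℕ) : ℝ) = (N0 : ℝ) - i := by rw [Nat.cast_sub (by omega)]
    refine (GG_window H (m := m) (J := J) (N := N0 - i) (A' := (α - η / 3) * Λ) (R := R)
      (by omega) hJm (by rw [hcast]; linarith) (by rw [hcast]; linarith) (by omega)
      hJ2 (fun m' hm' => ?_)).trans ?_
    · rw [hR]
      exact hCε N0 m' (by omega) (by omega)
    · have x1 : Real.exp ((α - η / 3) * Λ) ≤ Real.exp ((α - 7 * ε) * Λ) := by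
        apply Real.exp_le_exp.2
        refine mul_le_mul_of_nonneg_right ?_ hΛ0.le
        linarith
      have x2 : Real.exp (R - (J : ℝ) ^ 2 / (2 * m)) ≤
          Real.exp ((α - 7 * ε) * Λ) * Real.exp (Cε + |α + ε| * 2) := by
        rw [← Real.exp_add]
        apply Real.exp_le_exp.2
        linarith
      linarith
  have hup := H.up (N0 - 4)
  rw [show N0 - 4 + 4 = N0 - 0 by omega, show N0 - 4 + 3 = N0 - 1 by omega,
    show N0 - 4 + 2 = N0 - 2 by omega] at hup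
  have b0 := bd 0 (by norm_num)
  have b1 := bd 1 (by norm_num)
  have b2 := bd 2 le_rfl
  have h5 : s (N0 - 1) ≤ 3 * C0 * (1 + 4 * Real.exp (Cε + |α + ε| * 2)) *
      Real.exp ((α - 7 * ε) * Λ) := by
    refine hup.trans ?_
    calc C0 * (GG p q (fun n => c n / μ ^ n) (N0 - 0) + GG p q (fun n => c n / μ ^ n) (N0 - 1) +
          GG p q (fun n => c n / μ ^ n) (N0 - 2))
        ≤ C0 * (3 * (Real.exp ((α - 7 * ε) * Λ) * (1 + 4 * Real.exp (Cε + |α + ε| * 2)))) :=
          mul_le_mul_of_nonneg_left (by linarith) hC.le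
      _ = _ := by ring
  have h6 := Real.log_le_log (H.s_pos (by omega)) h5
  rw [Real.log_mul (by positivity) (Real.exp_pos _).ne', Real.log_exp, ← hQ] at h6
  have h7 := hN3 (N0 - 1) (by omega)
  have h8 := log_cmp (a := m) (b := N0 - 1) (by omega) (by omega) (by omega) (α - ε)
  rw [← hΛ] at h8
  have h9 : 6 * ε * Λ ≤ |α - ε| * 2 + Q := by linarith
  have h10 : (|α - ε| * 2 + Q) / (6 * ε) ≤ Λ - 1 := by linarith
  rw [div_le_iff₀ (by positivity)] at h10
  linarith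

/-- `Tendsto` in terms of the two bounds -/
lemma tendsto_iff (f : ℕ → ℝ) (α : ℝ) :
    Tendsto (fun n : ℕ => Real.log (f n) / Real.log n) atTop (𝓝 α) ↔ Up f α ∧ Lo f α := by
  have e1 := tlog.eventually_ge_atTop 1
  constructor
  · intro h
    rw [Metric.tendsto_nhds] at h
    constructor
    · intro ε hε
      filter_upwards [h ε hε, e1] with n h1 h2
      rw [Real.dist_eq, abs_lt] at h1
      have h3 : Real.log (f n) / Real.log n ≤ α + ε := by linarith [h1.2]
      rwa [div_le_iff₀ (by linarith)] at h3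
    · intro ε hε
      filter_upwards [h ε hε, e1] with n h1 h2
      rw [Real.dist_eq, abs_lt] at h1
      have h3 : α - ε ≤ Real.log (f n) / Real.log n := by linarith [h1.1]
      rwa [le_div_iff₀ (by linarith)] at h3
  · rintro ⟨h1, h2⟩
    rw [Metric.tendsto_nhds]
    intro ε hε
    filter_upwards [h1 (ε / 2) (by positivity), h2 (ε / 2) (by positivity), e1] with n g1 g2 g3
    rw [Real.dist_eq, abs_lt]
    have h3 : Real.log (f n) / Real.log n ≤ α + ε / 2 := by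
      rwa [div_le_iff₀ (by linarith)]
    have h4 : α - ε / 2 ≤ Real.log (f n) / Real.log n := by
      rwa [le_div_iff₀ (by linarith)]
    constructor <;> linarith

open Pool.Agent.R956 in
/-- **the exponents agree** -/
theorem expo_iff {c : ℕ → ℝ} {μ K β0 : ℝ} (W : Wk c μ)
    (S : V1.Sq (fun n => c n / μ ^ n) K β0)
    (H : Cmp p q (fun n => c n / μ ^ n) s c0 C0) (α : ℝ) :
    Tendsto (fun n : ℕ => Real.log (s n) / Real.log n) atTop (𝓝 α) ↔
      Tendsto (fun n : ℕ => Real.log (c n / μ ^ n) / Real.log n) atTop (𝓝 α) := by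
  have e := tendsto_iff (fun n => c n / μ ^ n) α
  rw [tendsto_iff s α, e]
  constructor
  · rintro ⟨h1, h2⟩
    have h3 := up_back H S h1
    exact ⟨h3, lo_back W H h3 h2⟩
  · rintro ⟨h1, h2⟩
    exact ⟨up_of H h1, lo_of H h2⟩

end Pool.Agent.D0H94.T12
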