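import Pool.Agent.D0H94.T12.Core

/-!
# Counting self-avoiding walks on the Fisher graph
-/

set_option autoImplicit false
set_option linter.unusedVariables false

namespace Pool.Agent.D0H94.T12

open Finset

/-! ### unions -/

lemma ncard_biUnion_le {ι α : Type*} (I : Finset ι) (S : ι → Set α) (hf : ∀ i ∈ I, (S i).Finite) :
    (⋃ i ∈ I, S i).ncard ≤ ∑ i ∈ I, (S i).ncard := by
  classical
  induction I using Finset.induction_on with
  | empty => simp
  | insert a I ha ih =>
    rw [Finset.sum_insert ha, Finset.set_biUnion_insert]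
    refine (Set.ncard_union_le _ _).trans ?_
    have := ih fun i hi => hf i (mem_insert_of_mem hi)
    omega

lemma ncard_biUnion_eq {ι α : Type*} (I : Finset ι) (S : ι → Set α) (hf : ∀ i ∈ I, (S i).Finite)
    (hd : ∀ i ∈ I, ∀ j ∈ I, i ≠ j → Disjoint (S i) (S j)) :
    (⋃ i ∈ I, S i).ncard = ∑ i ∈ I, (S i).ncard := by
  classical
  induction I using Finset.induction_on with
  | empty => simp
  | insert a I ha ih =>
    rw [Finset.sum_insert ha, Finset.set_biUnion_insert]
    rw [Set.ncard_union_eq ?_ (hf a (mem_insert_self _ _)) ?_]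
    · rw [ih (fun i hi => hf i (mem_insert_of_mem hi))
        (fun i hi j hj => hd i (mem_insert_of_mem hi) j (mem_insert_of_mem hj))]
    · rw [Set.disjoint_iUnion₂_right]
      intro i hi
      exact hd a (mem_insert_self _ _) i (mem_insert_of_mem hi) (fun e => ha (e ▸ hi))
    · exact Set.Finite.biUnion I.finite_toSet fun i hi => hf i (mem_insert_of_mem hi)

/-! ### bits -/

/-- the number of ways to write `N` as an ordered sum of `m` numbers `2` and `3` -/
def K : ℕ → ℕ → ℕ
  | 0, N => if N = 0 then 1 else 0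
  | m + 1, N => (if 2 ≤ N then K m (N - 2) else 0) + (if 3 ≤ N then K m (N - 3) else 0)

/-- lists of bits -/
def B (m N : ℕ) : Set (List Bool) := {bs | bs.length = m ∧ 2 * m + bs.count true = N}

lemma B_finite (m N : ℕ) : (B m N).Finite :=
  (List.finite_length_eq Bool m).subset fun _ h => h.1

lemma B_card : ∀ (m N : ℕ), (B m N).ncard = K m N
  | 0, N => by
    unfold K
    split_ifs with h
    · have : B 0 N = {[]} := by
        ext bs
        simp only [B, Set.mem_ofPred_eq, Set.mem_singleton_iff, List.length_eq_zero_iff]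
        constructor
        · exact fun h => h.1
        · rintro rfl
          simp [h]
      rw [this, Set.ncard_singleton]
    · have : B 0 N = ∅ := by
        ext bs
        simp only [B, Set.mem_ofPred_eq, Set.mem_empty_iff_false, List.length_eq_zero_iff, iff_false]
        rintro ⟨rfl, h2⟩
        apply h
        rw [← h2]
        simp
      rw [this, Set.ncard_empty]
  | m + 1, N => by
    have h1 := B_card m (N - 2)
    have h2 := B_card m (N - 3)
    have e : B (m + 1) N = (List.cons false '' (if 2 ≤ N then B m (N - 2) else ∅)) ∪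
        (List.cons true '' (if 3 ≤ N then B m (N - 3) else ∅)) := by
      ext bs
      simp only [B, Set.mem_ofPred_eq, Set.mem_union, Set.mem_image]
      constructor
      · rintro ⟨h3, h4⟩
        cases bs with
        | nil => simp at h3
        | cons b bs =>
          have h5 : bs.length = m := by simpa using h3
          cases b
          · left
            rw [List.count_cons_of_ne (by simp)] at h4
            refine ⟨bs, ?_, rfl⟩
            rw [if_pos (by omega)]
            exact ⟨h5, by omega⟩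
          · right
            rw [List.count_cons_self] at h4
            refine ⟨bs, ?_, rfl⟩
            rw [if_pos (by omega)]
            exact ⟨h5, by omega⟩
      · rintro (⟨bs, h3, rfl⟩ | ⟨bs, h3, rfl⟩)
        · split_ifs at h3 with h4
          · obtain ⟨h5, h6⟩ := h3
            rw [List.count_cons_of_ne (by simp)]
            refine ⟨by simp [h5], by omega⟩
          · exact absurd h3 (Set.notMem_empty _)
        · split_ifs at h3 with h4
          · obtain ⟨h5, h6⟩ := h3
            rw [List.count_cons_self]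
            refine ⟨by simp [h5], by omega⟩
          · exact absurd h3 (Set.notMem_empty _)
    have f1 : (if 2 ≤ N then B m (N - 2) else ∅).Finite := by
      split_ifs
      · exact B_finite _ _
      · exact Set.finite_empty
    have f2 : (if 3 ≤ N then B m (N - 3) else ∅).Finite := by
      split_ifs
      · exact B_finite _ _
      · exact Set.finite_empty
    rw [e, Set.ncard_union_eq ?_ (f1.image _) (f2.image _),
      Set.ncard_image_of_injective _ (List.cons_injective),
      Set.ncard_image_of_injective _ (List.cons_injective)]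
    · unfold K
      congr 1
      · split_ifs
        · exact h1
        · exact Set.ncard_empty _
      · split_ifs
        · exact h2
        · exact Set.ncard_empty _
    · rw [Set.disjoint_left]
      rintro _ ⟨a, -, rfl⟩ ⟨b, -, h⟩
      simp at h

/-! ### walks -/

/-- the lists `r` such that `v :: r` is a self-avoiding walk with `k` steps -/
def W {α : Type*} (R : α → α → Prop) (v : α) (k : ℕ) : Set (List α) :=
  {r | r.length = k ∧ (v :: r).IsChain R ∧ (v :: r).Nodup}

lemma W_finite {α : Type*} {R : α → α → Prop} (h : ∀ v, {w | R v w}.Finite) :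
    ∀ (k : ℕ) (v : α), (W R v k).Finite
  | 0, v => (Set.finite_singleton []).subset fun r hr => List.length_eq_zero_iff.1 hr.1
  | k + 1, v => by
    refine ((h v).biUnion fun w _ => (W_finite h k w).image (List.cons w)).subset ?_
    rintro r ⟨h1, h2, h3⟩
    cases r with
    | nil => simp at h1
    | cons w r =>
      rw [List.isChain_cons_cons] at h2
      simp only [Set.mem_iUnion, Set.mem_image, Set.mem_ofPred_eq, exists_prop]
      exact ⟨w, h2.1, r, ⟨by simpa using h1, h2.2, (List.nodup_cons.1 h3).2⟩, rfl⟩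

variable {V : Type*} {A : V → V → Prop} {th : V → V → V → V} {nb : V → Fin 3 → V}

lemma fin_nb (C : Cub A th nb) (v : V) : {w | A v w}.Finite :=
  (Set.finite_range (nb v)).subset fun w hw => by
    obtain ⟨i, hi⟩ := C.nb hw
    exact ⟨i, hi.symm⟩

lemma fin_AF (C : Cub A th nb) (x : V × V) : {y | AF A x y}.Finite := by
  refine (((fin_nb C x.1).image (fun w => (x.1, w))).union
    (Set.finite_singleton (x.2, x.1))).subset ?_
  rintro ⟨a, b⟩ ⟨h1, h2, h3⟩
  rcases h3 with ⟨h3, -⟩ | ⟨h3, h4⟩
  · left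
    simp only at h2 h3
    exact ⟨b, by rw [h3]; exact h2, by rw [h3]⟩
  · right
    simp only [Set.mem_singleton_iff]
    exact Prod.ext h3 h4

lemma val_chain : ∀ (zs : List V) (x v : V), Val A x v zs → (v :: zs).IsChain A
  | [], _, _, _ => by simp
  | z :: zs, x, v, h => by
    rw [List.isChain_cons_cons]
    exact ⟨h.1, val_chain zs v z h.2.2⟩

lemma val_concat (C : Cub A th nb) : ∀ (r : List V) (v : V), (v :: r).IsChain A →
    (v :: r).Nodup → ∀ x, A v x → (∀ w ∈ r.head?, w ≠ x) → ∃ z, Val A x v (r ++ [z])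
  | [], v, _, _, x, hx, _ => by
    obtain ⟨z, h1, h2⟩ := C.ex hx
    exact ⟨z, h1, h2, trivial⟩
  | w :: r, v, hc, hn, x, hx, hw => by
    rw [List.isChain_cons_cons] at hc
    have hn1 := List.nodup_cons.1 hn
    obtain ⟨z, hz⟩ := val_concat C r w hc.2 hn1.2 v (C.symm hc.1) (by
      intro u hu e
      apply hn1.1
      subst e
      right
      exact List.mem_of_mem_head? hu)
    exact ⟨z, hc.1, hw w (by simp), hz⟩

/-- the self-avoiding walks with `m - 1` steps from `v` together with outer edges at both ends -/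
def XS (A : V → V → Prop) (m : ℕ) (v : V) : Set (V × List V) :=
  {p | A v p.1 ∧ p.2.length = m ∧ Val A p.1 v p.2 ∧ (v :: p.2.dropLast).Nodup}

lemma XS_sub (C : Cub A th nb) (m : ℕ) (v : V) : XS A (m + 1) v ⊆
    (fun q : List V × Fin 3 × Fin 3 => (nb v q.2.1,
      q.1 ++ [nb ((v :: q.1).getLast (by simp)) q.2.2])) ''
      (W A v m ×ˢ (Set.univ : Set (Fin 3 × Fin 3))) := by
  rintro ⟨x, zs⟩ ⟨h1, h2, h3, h4⟩
  simp only at h1 h2 h3 h4
  obtain ⟨i, hi⟩ := C.nb h1
  have hz : zs ≠ [] := by
    intro e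
    rw [e] at h2
    simp at h2
  have hc := val_chain zs x v h3
  have e1 : zs = zs.dropLast ++ [zs.getLast hz] := (List.dropLast_append_getLast hz).symm
  have hc2 : ((v :: zs.dropLast) ++ [zs.getLast hz]).IsChain A := by
    rw [List.cons_append, ← e1]
    exact hc
  have hadj : A ((v :: zs.dropLast).getLast (by simp)) (zs.getLast hz) := by
    have := List.IsChain.rel_getLast_head_of_append hc2 (by simp) (by simp)
    simpa using this
  obtain ⟨j, hj⟩ := C.nb hadj
  refine ⟨(zs.dropLast, i, j), ⟨⟨?_, hc2.left_of_append, h4⟩, trivial⟩, ?_⟩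
  · rw [List.length_dropLast, h2]; rfl
  · simp only [Prod.mk.injEq]
    refine ⟨hi.symm, ?_⟩
    rw [← hj]
    exact e1.symm

lemma XS_finite (C : Cub A th nb) (m : ℕ) (v : V) : (XS A (m + 1) v).Finite :=
  (((W_finite (fin_nb C) m v).prod Set.finite_univ).image _).subset (XS_sub C m v)

lemma XS_upper (C : Cub A th nb) (m : ℕ) (v : V) :
    (XS A (m + 1) v).ncard ≤ 9 * (W A v m).ncard := by
  refine (Set.ncard_le_ncard (XS_sub C m v)
    (((W_finite (fin_nb C) m v).prod Set.finite_univ).image _)).trans ?_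
  refine (Set.ncard_image_le ((W_finite (fin_nb C) m v).prod Set.finite_univ)).trans ?_
  rw [Set.ncard_prod, Set.ncard_univ, Nat.card_eq_fintype_card]
  simp [Fintype.card_prod, mul_comm]

lemma XS_lower (C : Cub A th nb) (m : ℕ) {v u : V} (hv : A v u) :
    (W A v m).ncard ≤ (XS A (m + 1) v).ncard := by
  refine le_trans (Set.ncard_le_ncard ?_ ((XS_finite C m v).image (fun p => p.2.dropLast)))
    (Set.ncard_image_le (XS_finite C m v))
  rintro r ⟨h1, h2, h3⟩
  -- an outer edge at the start
  obtain ⟨x, hx, hx2⟩ : ∃ x, A v x ∧ ∀ w ∈ r.head?, w ≠ x := by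
    cases r with
    | nil => exact ⟨u, hv, by simp⟩
    | cons w r =>
      rw [List.isChain_cons_cons] at h2
      obtain ⟨x, k1, k2⟩ := C.ex h2.1
      refine ⟨x, k1, ?_⟩
      intro w' hw'
      simp only [List.head?_cons, Option.mem_def, Option.some.injEq] at hw'
      rw [← hw']
      exact k2.symm
  obtain ⟨z, hz⟩ := val_concat C r v h2 h3 x hx hx2
  refine ⟨(x, r ++ [z]), ⟨hx, by simp [h1], hz, ?_⟩, ?_⟩
  · simp only [List.dropLast_concat]
    exact h3
  · simp only [List.dropLast_concat]

/-! ### walks with triangle steps at both ends -/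

/-- self-avoiding walks with `N` vertices starting in the triangle `v` -/
def FL (A : V → V → Prop) (N : ℕ) (v : V) : Set (List (V × V)) :=
  {l | l.length = N ∧ l.IsChain (AF A) ∧ l.Nodup ∧ ∃ u r, A v u ∧ l = (v, u) :: r}

/-- those with triangle steps at both ends -/
def TT (A : V → V → Prop) (N : ℕ) (v : V) : Set (List (V × V)) :=
  {l | l ∈ FL A N v ∧ FT l ∧ LT l}

/-- expansion of the data -/
def exm (th : V → V → V → V) (v : V) (p : (V × List V) × List Bool) : List (V × V) :=
  ex th p.1.1 v p.1.2 p.2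

lemma FT_ex (C : Cub A th nb) {x y : V} : ∀ {zs : List V} {bs : List Bool}, zs ≠ [] →
    zs.length = bs.length → FT (ex th x y zs bs)
  | [], _, h, _ => absurd rfl h
  | _ :: _, [], _, h => by simp at h
  | z :: zs, b :: bs, _, h => by
    cases b
    · rw [ex_false]; exact ⟨_, _, _, rfl, rfl⟩
    · rw [ex_true]; exact ⟨_, _, _, rfl, rfl⟩

lemma LT_ex (C : Cub A th nb) : ∀ (zs : List V) (x y : V) (bs : List Bool), zs ≠ [] →
    zs.length = bs.length → LT (ex th x y zs bs)
  | [], _, _, _, h, _ => absurd rfl h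
  | _ :: _, _, _, [], _, h => by simp at h
  | [z], x, y, b :: bs, _, h => by
    have : bs = [] := List.length_eq_zero_iff.1 (by simpa using h.symm)
    subst this
    cases b
    · rw [ex_false]; exact ⟨[], (y, x), (y, z), by simp, rfl⟩
    · rw [ex_true]; exact ⟨[(y, x)], (y, th y x z), (y, z), by simp, rfl⟩
  | z :: z' :: zs, x, y, b :: bs, _, h => by
    obtain ⟨r, c, d, h1, h2⟩ := LT_ex C (z' :: zs) y z bs (by simp) (by simpa using h)
    cases b
    · rw [ex_false, h1]; exact ⟨(y, x) :: (y, z) :: r, c, d, by simp, h2⟩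
    · rw [ex_true, h1]; exact ⟨(y, x) :: (y, th y x z) :: (y, z) :: r, c, d, by simp, h2⟩

lemma TT_eq (C : Cub A th nb) (N : ℕ) (v : V) : TT A N v =
    ⋃ m ∈ range N, exm th v '' (XS A (m + 1) v ×ˢ B (m + 1) N) := by
  ext l
  simp only [Set.mem_iUnion, Set.mem_image, mem_range, exists_prop]
  constructor
  · rintro ⟨⟨h1, h2, h3, u, r, -, h4⟩, h5, h6⟩
    obtain ⟨x, y, zs, bs, g1, g2, g3, g4, g5, g6⟩ := ex_surj C _ l le_rfl h2 h3 h5 h6
    obtain ⟨t, ht⟩ := ex_head (th := th) (x := x) (y := y) g4 g3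
    have hy : y = v := by
      rw [g1, ht] at h4
      simp only [List.cons.injEq, Prod.mk.injEq] at h4
      exact h4.1.1
    subst hy
    have hlen := ex_length (th := th) zs x y bs g3
    have hz : 0 < zs.length := List.length_pos_iff.2 g4
    rw [← g1, h1] at hlen
    refine ⟨zs.length - 1, by omega, ((x, zs), bs), ⟨⟨g2, ?_, g5, g6⟩, ?_, ?_⟩, g1.symm⟩
    · simp only; omega
    · simp only; omega
    · simp only
      rw [Nat.sub_add_cancel hz]
      exact hlen.symm
  · rintro ⟨m, hm, ⟨⟨x, zs⟩, bs⟩, ⟨⟨g1, g2, g3, g4⟩, g5, g6⟩, rfl⟩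
    simp only at g1 g2 g3 g4 g5 g6
    have hl : zs.length = bs.length := g2.trans g5.symm
    have hz : zs ≠ [] := by
      intro e
      rw [e] at g2
      simp at g2
    unfold exm
    simp only
    obtain ⟨t, ht⟩ := ex_head (th := th) (x := x) (y := v) hz hl
    refine ⟨⟨?_, ex_chain C _ _ _ _ hl g1 g3, ex_nodup C _ _ _ _ hl g1 g3 g4, x, t, g1, ht⟩,
      FT_ex C hz hl, LT_ex C _ _ _ _ hz hl⟩
    rw [ex_length _ _ _ _ hl, g2]
    exact g6

lemma exm_inj (C : Cub A th nb) (N m : ℕ) (v : V) :
    Set.InjOn (exm th v) (XS A (m + 1) v ×ˢ B (m + 1) N) := by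
  rintro ⟨⟨x, zs⟩, bs⟩ ⟨⟨g1, g2, g3, g4⟩, g5, g6⟩ ⟨⟨x', zs'⟩, bs'⟩ ⟨⟨g1', g2', g3', g4'⟩, g5', g6'⟩ h
  simp only at g1 g2 g3 g4 g5 g6 g1' g2' g3' g4' g5' g6'
  have hz : zs ≠ [] := by
    intro e
    rw [e] at g2
    simp at g2
  have hz' : zs' ≠ [] := by
    intro e
    rw [e] at g2'
    simp at g2'
  obtain ⟨a1, -, a2, a3⟩ := ex_inj C zs x v bs zs' x' v bs' (g2.trans g5.symm)
    (g2'.trans g5'.symm) hz hz' g3 g3' h
  rw [a1, a2, a3]

lemma TT_card (C : Cub A th nb) (N : ℕ) (v : V) :
    (TT A N v).ncard = ∑ m ∈ range N, (XS A (m + 1) v).ncard * K (m + 1) N := by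
  have hfin : ∀ m, (exm th v '' (XS A (m + 1) v ×ˢ B (m + 1) N)).Finite := fun m =>
    ((XS_finite C m v).prod (B_finite _ _)).image _
  rw [TT_eq C, ncard_biUnion_eq _ _ (fun m _ => hfin m)]
  · refine sum_congr rfl fun m _ => ?_
    rw [(exm_inj C N m v).ncard_image, Set.ncard_prod, B_card]
  · intro i _ j _ hij
    rw [Set.disjoint_left]
    rintro _ ⟨⟨⟨x, zs⟩, bs⟩, ⟨⟨g1, g2, g3, g4⟩, g5, g6⟩, rfl⟩
      ⟨⟨⟨x', zs'⟩, bs'⟩, ⟨⟨g1', g2', g3', g4'⟩, g5', g6'⟩, h⟩
    simp only at g1 g2 g3 g4 g5 g6 g1' g2' g3' g4' g5' g6'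
    have hz : zs ≠ [] := by
      intro e
      rw [e] at g2
      simp at g2
    have hz' : zs' ≠ [] := by
      intro e
      rw [e] at g2'
      simp at g2'
    obtain ⟨a1, -, a2, a3⟩ := ex_inj C zs' x' v bs' zs x v bs (g2'.trans g5'.symm)
      (g2.trans g5.symm) hz' hz g3' g3 h
    apply hij
    rw [a2] at g2'
    omega

/-- the sums -/
noncomputable def SS (h : ℕ → ℕ) (N : ℕ) : ℕ := ∑ m ∈ range N, h m * K (m + 1) N

lemma TT_upper (C : Cub A th nb) (N : ℕ) (v : V) :
    (TT A N v).ncard ≤ 9 * SS (fun m => (W A v m).ncard) N := by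
  rw [TT_card C, SS, mul_sum]
  refine sum_le_sum fun m _ => ?_
  rw [← mul_assoc]
  exact Nat.mul_le_mul_right _ (XS_upper C m v)

lemma TT_lower (C : Cub A th nb) (N : ℕ) {v u : V} (hv : A v u) :
    SS (fun m => (W A v m).ncard) N ≤ (TT A N v).ncard := by
  rw [TT_card C, SS]
  exact sum_le_sum fun m _ => Nat.mul_le_mul_right _ (XS_lower C m hv)

/-! ### all walks -/

lemma FL_sub (C : Cub A th nb) (n : ℕ) (v : V) : FL A (n + 1) v ⊆
    ⋃ i ∈ (univ : Finset (Fin 3)), List.cons (v, nb v i) '' W (AF A) (v, nb v i) n := by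
  rintro l ⟨h1, h2, h3, u, r, hu, h4⟩
  obtain ⟨i, hi⟩ := C.nb hu
  simp only [Set.mem_iUnion, Set.mem_image, mem_univ, exists_prop, true_and]
  subst h4
  rw [hi] at h2 h3 ⊢
  exact ⟨i, r, ⟨by simpa using h1, h2, h3⟩, rfl⟩

lemma FL_finite (C : Cub A th nb) (n : ℕ) (v : V) : (FL A (n + 1) v).Finite :=
  (Set.Finite.biUnion (univ : Finset (Fin 3)).finite_toSet
    fun i _ => (W_finite (fin_AF C) n _).image _).subset (FL_sub C n v)

lemma FL_upper (C : Cub A th nb) (n : ℕ) (v : V) : (FL A (n + 1) v).ncard ≤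
    ∑ i : Fin 3, (W (AF A) (v, nb v i) n).ncard := by
  refine (Set.ncard_le_ncard (FL_sub C n v) (Set.Finite.biUnion (univ : Finset (Fin 3)).finite_toSet
    fun i _ => (W_finite (fin_AF C) n _).image _)).trans ?_
  refine (ncard_biUnion_le _ _ fun i _ => (W_finite (fin_AF C) n _).image _).trans ?_
  exact sum_le_sum fun i _ => Set.ncard_image_le (W_finite (fin_AF C) n _)

lemma W_le_FL (C : Cub A th nb) (n : ℕ) {v u : V} (hu : A v u) :
    (W (AF A) (v, u) n).ncard ≤ (FL A (n + 1) v).ncard := by
  refine Set.ncard_le_ncard_of_injOn (List.cons (v, u)) ?_ (List.cons_injective.injOn)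
    (FL_finite C n v)
  rintro r ⟨h1, h2, h3⟩
  exact ⟨by simp [h1], h2, h3, u, r, hu, rfl⟩

/-- add a long edge at the start -/
def f1 : List (V × V) → List (V × V)
  | [] => []
  | a :: l => (a.2, a.1) :: a :: l

lemma strip (C : Cub A th nb) {l : List (V × V)} (hc : l.IsChain (AF A)) (hn : l.Nodup)
    (h3 : 3 ≤ l.length) : FT l ∨ ∃ l1, l = f1 l1 ∧ l1.IsChain (AF A) ∧ l1.Nodup ∧ FT l1 := by
  match l, hc, hn, h3 with
  | [], _, _, h => simp at h
  | [_], _, _, h => simp at h
  | [_, _], _, _, h => simp at h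
  | a :: b :: c :: r, hc, hn, _ =>
    have hc1 := List.isChain_cons_cons.1 hc
    have hc2 := List.isChain_cons_cons.1 hc1.2
    have hn1 := List.nodup_cons.1 hn
    rcases hc1.1.2.2 with ⟨h1, -⟩ | ⟨h1, h2⟩
    · exact Or.inl ⟨a, b, c :: r, rfl, h1⟩
    · right
      have ha : a = (b.2, b.1) := Prod.ext h2.symm h1.symm
      refine ⟨b :: c :: r, ?_, hc1.2, hn1.2, b, c, r, rfl, ?_⟩
      · unfold f1
        rw [ha]
      · rcases hc2.1.2.2 with ⟨h4, -⟩ | ⟨h4, h5⟩
        · exact h4
        · exfalso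
          apply hn1.1
          have : a = c := Prod.ext (h2.symm.trans h4.symm) (h1.symm.trans h5.symm)
          rw [this]
          simp

lemma LT_iff (l : List (V × V)) : LT l ↔ FT l.reverse := by
  constructor
  · rintro ⟨r, c, d, h1, h2⟩
    exact ⟨d, c, r.reverse, by rw [h1]; simp, h2.symm⟩
  · rintro ⟨a, b, r, h1, h2⟩
    refine ⟨r.reverse, b, a, ?_, h2.symm⟩
    have := congrArg List.reverse h1
    rw [List.reverse_reverse] at this
    rw [this]
    simp

/-- the walks which start with a triangle step -/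
def T1 (A : V → V → Prop) (N : ℕ) (v : V) : Set (List (V × V)) := {l | l ∈ FL A N v ∧ FT l}

lemma FL_T1 (C : Cub A th nb) (n : ℕ) (v : V) : FL A (n + 3) v ⊆ T1 A (n + 3) v ∪
    ⋃ i ∈ (univ : Finset (Fin 3)), f1 '' T1 A (n + 2) (nb v i) := by
  rintro l hl
  obtain ⟨h1, h2, h3, u, r, hu, h4⟩ := id hl
  rcases strip C h2 h3 (by omega) with h | ⟨l1, e, g1, g2, g3⟩
  · exact Or.inl ⟨hl, h⟩
  · right
    obtain ⟨i, hi⟩ := C.nb hu
    simp only [Set.mem_iUnion, Set.mem_image, mem_univ, exists_prop, true_and]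
    refine ⟨i, l1, ⟨⟨?_, g1, g2, ?_⟩, g3⟩, e.symm⟩
    · cases l1 with
      | nil => rw [e] at h1; simp [f1] at h1
      | cons a l1 => rw [e] at h1; simp only [f1, List.length_cons] at h1 ⊢; omega
    · cases l1 with
      | nil => rw [e] at h1; simp [f1] at h1
      | cons a l1 =>
        rw [e] at h4
        simp only [f1, List.cons.injEq] at h4
        obtain ⟨h5, -⟩ := h4
        have h6 := congrArg Prod.fst h5
        have h7 := congrArg Prod.snd h5
        simp only at h6 h7
        refine ⟨v, l1, ?_, ?_⟩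
        · rw [← hi]; exact C.symm hu
        · rw [← hi, ← h6, ← h7]

lemma T1_TT (C : Cub A th nb) (n : ℕ) (v : V) : T1 A (n + 3) v ⊆ TT A (n + 3) v ∪
    (fun l => (f1 l.reverse).reverse) '' TT A (n + 2) v := by
  rintro l ⟨hl, hF⟩
  obtain ⟨h1, h2, h3, u, r, hu, h4⟩ := id hl
  have hrc : l.reverse.IsChain (AF A) := by
    rw [List.isChain_reverse]
    exact h2.imp fun a b h => AF_symm C h
  rcases strip C hrc (List.nodup_reverse.2 h3) (by rw [List.length_reverse]; omega) with
    h | ⟨l1, e, g1, g2, g3⟩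
  · exact Or.inl ⟨hl, hF, (LT_iff l).2 h⟩
  · right
    have e2 : l = (f1 l1).reverse := by rw [← e, List.reverse_reverse]
    refine ⟨l1.reverse, ⟨⟨?_, ?_, List.nodup_reverse.2 g2, ?_⟩, ?_, ?_⟩, ?_⟩
    · rw [List.length_reverse]
      cases l1 with
      | nil => rw [e2] at h1; simp [f1] at h1
      | cons a l1 =>
        rw [e2, List.length_reverse] at h1
        simp only [f1, List.length_cons] at h1 ⊢
        omega
    · rw [List.isChain_reverse]
      exact g1.imp fun a b h => AF_symm C h
    · cases l1 with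
      | nil => rw [e2] at h1; simp [f1] at h1
      | cons a l1 =>
        have e3 : l = (a :: l1).reverse ++ [(a.2, a.1)] := by rw [e2]; simp [f1]
        have hlen : 2 ≤ (a :: l1).reverse.length := by
          have := congrArg List.length e3
          rw [h1, List.length_append] at this
          simp only [List.length_singleton] at this
          omega
        obtain ⟨p, q, hpq⟩ : ∃ p q, (a :: l1).reverse = p :: q := by
          cases h : (a :: l1).reverse with
          | nil => rw [h] at hlen; simp at hlen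
          | cons p q => exact ⟨p, q, rfl⟩
        rw [hpq] at e3 ⊢
        rw [h4] at e3
        simp only [List.cons_append, List.cons.injEq] at e3
        exact ⟨u, q, hu, by rw [e3.1]⟩
    · cases l1 with
      | nil => rw [e2] at h1; simp [f1] at h1
      | cons a l1 =>
        have e3 : l = (a :: l1).reverse ++ [(a.2, a.1)] := by rw [e2]; simp [f1]
        have hlen : 2 ≤ (a :: l1).reverse.length := by
          have := congrArg List.length e3
          rw [h1, List.length_append] at this
          simp only [List.length_singleton] at this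
          omega
        obtain ⟨p, q, t, hpq⟩ : ∃ p q t, (a :: l1).reverse = p :: q :: t := by
          match h : (a :: l1).reverse with
          | [] => rw [h] at hlen; simp at hlen
          | [_] => rw [h] at hlen; simp at hlen
          | p :: q :: t => exact ⟨p, q, t, rfl⟩
        rw [hpq] at e3 ⊢
        obtain ⟨a', b', r', k1, k2⟩ := hF
        rw [k1] at e3
        simp only [List.cons_append, List.cons.injEq] at e3
        exact ⟨p, q, t, rfl, by rw [← e3.1, ← e3.2.1]; exact k2⟩
    · rw [LT_iff, List.reverse_reverse]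
      exact g3
    · simp only [List.reverse_reverse]
      exact e2.symm

/-- **upper bound for the walks on the Fisher graph** -/
theorem FL_le (C : Cub A th nb) (n : ℕ) (v : V) (h : ℕ → ℕ)
    (hh : ∀ u, A v u → ∀ m, (W A u m).ncard = h m) (hv : ∀ m, (W A v m).ncard = h m)
    (hnb : ∀ i, A v (nb v i)) :
    (FL A (n + 4) v).ncard ≤ 9 * (SS h (n + 4) + 4 * SS h (n + 3) + 3 * SS h (n + 2)) := by
  have ft : ∀ N v, (TT A (N + 1) v).Finite := fun N v => (FL_finite C N v).subset fun l hl => hl.1
  have f1' : ∀ N v, (T1 A (N + 1) v).Finite := fun N v => (FL_finite C N v).subset fun l hl => hl.1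
  have b1 : ∀ N v, (T1 A (N + 3) v).ncard ≤ (TT A (N + 3) v).ncard + (TT A (N + 2) v).ncard := by
    intro N v
    refine (Set.ncard_le_ncard (T1_TT C N v) ((ft _ _).union ((ft _ _).image _))).trans ?_
    refine (Set.ncard_union_le _ _).trans ?_
    exact Nat.add_le_add_left (Set.ncard_image_le (ft _ _)) _
  have b2 : (FL A (n + 4) v).ncard ≤ (T1 A (n + 4) v).ncard +
      ∑ i : Fin 3, (T1 A (n + 3) (nb v i)).ncard := by
    refine (Set.ncard_le_ncard (FL_T1 C (n + 1) v) ((f1' _ _).union
      (Set.Finite.biUnion (univ : Finset (Fin 3)).finite_toSet fun i _ => (f1' _ _).image _))).trans ?_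
    refine (Set.ncard_union_le _ _).trans ?_
    refine Nat.add_le_add_left ?_ _
    refine (ncard_biUnion_le _ _ fun i _ => (f1' _ _).image _).trans ?_
    exact sum_le_sum fun i _ => Set.ncard_image_le (f1' _ _)
  have t0 : ∀ N, (TT A N v).ncard ≤ 9 * SS h N := fun N => by
    have := TT_upper C N v
    simpa only [hv] using this
  have ti : ∀ N i, (TT A N (nb v i)).ncard ≤ 9 * SS h N := fun N i => by
    have := TT_upper C N (nb v i)
    simpa only [hh _ (hnb i)] using this
  have c1 := b1 (n + 1) v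
  have c2 : ∀ i, (T1 A (n + 3) (nb v i)).ncard ≤ 9 * SS h (n + 3) + 9 * SS h (n + 2) := fun i =>
    (b1 n (nb v i)).trans (Nat.add_le_add (ti _ i) (ti _ i))
  have c3 : ∑ i : Fin 3, (T1 A (n + 3) (nb v i)).ncard ≤
      3 * (9 * SS h (n + 3) + 9 * SS h (n + 2)) := by
    refine (sum_le_sum fun i _ => c2 i).trans ?_
    simp
  have c4 := t0 (n + 4)
  have c5 := t0 (n + 3)
  rw [show n + 1 + 3 = n + 4 from rfl, show n + 1 + 2 = n + 3 from rfl] at c1
  omega

/-- **lower bound** -/
theorem le_FL (C : Cub A th nb) (n : ℕ) {v u : V} (hu : A v u) (h : ℕ → ℕ)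
    (hv : ∀ m, (W A v m).ncard = h m) : SS h (n + 1) ≤ (FL A (n + 1) v).ncard := by
  have h1 := TT_lower C (n + 1) hu
  simp only [hv] at h1
  exact h1.trans (Set.ncard_le_ncard (fun l hl => hl.1) (FL_finite C n v))

end Pool.Agent.D0H94.T12
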