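import Mathlib

/-!
# Self-avoiding walks on the Fisher graph of a cubic graph

`AF A` is the graph obtained from the cubic graph `A` by replacing each vertex by a triangle: its
vertices are the pairs `(v, w)` of adjacent vertices. A walk on it with a triangle step at both ends
is `ex th x y zs bs`, where `y, zs` is a self-avoiding walk on `A` and the bits `bs` tell in which
triangles the walk makes two steps.
-/

set_option autoImplicit false
set_option linter.unusedVariables false

namespace Pool.Agent.D0H94.T12

variable {V : Type*}

/-- a cubic graph with its third neighbours -/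
structure Cub (A : V → V → Prop) (th : V → V → V → V) (nb : V → Fin 3 → V) : Prop where
  symm : ∀ {v w}, A v w → A w v
  irr : ∀ v, ¬ A v v
  adj : ∀ {v u w}, A v u → A v w → u ≠ w → A v (th v u w)
  ne1 : ∀ {v u w}, A v u → A v w → u ≠ w → th v u w ≠ u
  ne2 : ∀ {v u w}, A v u → A v w → u ≠ w → th v u w ≠ w
  all : ∀ {v u w t}, A v u → A v w → u ≠ w → A v t → t = u ∨ t = w ∨ t = th v u w
  ex : ∀ {v u}, A v u → ∃ w, A v w ∧ w ≠ u
  nb : ∀ {v w}, A v w → ∃ i, w = nb v i

/-- adjacency of the Fisher graph -/
def AF (A : V → V → Prop) (x y : V × V) : Prop :=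
  A x.1 x.2 ∧ A y.1 y.2 ∧ ((x.1 = y.1 ∧ x.2 ≠ y.2) ∨ (y.1 = x.2 ∧ y.2 = x.1))

/-- expansion -/
def ex (th : V → V → V → V) : V → V → List V → List Bool → List (V × V)
  | _, _, [], _ => []
  | _, _, _ :: _, [] => []
  | x, y, z :: zs, b :: bs =>
    (y, x) :: ((if b then [(y, th y x z)] else []) ++ ((y, z) :: ex th y z zs bs))

/-- non-backtracking continuations -/
def Val (A : V → V → Prop) : V → V → List V → Prop
  | _, _, [] => True
  | x, y, z :: zs => A y z ∧ z ≠ x ∧ Val A y z zs

variable {A : V → V → Prop} {th : V → V → V → V} {nb : V → Fin 3 → V}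

section basic

@[simp] lemma ex_nil (x y : V) (bs : List Bool) : ex th x y [] bs = [] := rfl

lemma ex_false (x y z : V) (zs : List V) (bs : List Bool) :
    ex th x y (z :: zs) (false :: bs) = (y, x) :: (y, z) :: ex th y z zs bs := by
  simp [ex]

lemma ex_true (x y z : V) (zs : List V) (bs : List Bool) :
    ex th x y (z :: zs) (true :: bs) = (y, x) :: (y, th y x z) :: (y, z) :: ex th y z zs bs := by
  simp [ex]

lemma ex_length : ∀ (zs : List V) (x y : V) (bs : List Bool), zs.length = bs.length →
    (ex th x y zs bs).length = 2 * zs.length + bs.count true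
  | [], x, y, [], _ => by simp
  | [], x, y, _ :: _, h => by simp at h
  | _ :: _, x, y, [], h => by simp at h
  | z :: zs, x, y, b :: bs, h => by
    have ih := ex_length zs y z bs (by simpa using h)
    cases b
    · rw [ex_false]; simp only [List.length_cons, ih]; simp; ring
    · rw [ex_true]; simp only [List.length_cons, ih]; simp; ring

/-- the head of an expansion -/
lemma ex_head {x y : V} {zs : List V} {bs : List Bool} (h0 : zs ≠ [])
    (h : zs.length = bs.length) : ∃ r, ex th x y zs bs = (y, x) :: r := by
  cases zs with
  | nil => exact absurd rfl h0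
  | cons z zs =>
    cases bs with
    | nil => simp at h
    | cons b bs => exact ⟨_, rfl⟩

lemma ex_chain (C : Cub A th nb) : ∀ (zs : List V) (x y : V) (bs : List Bool),
    zs.length = bs.length → A y x → Val A x y zs → (ex th x y zs bs).IsChain (AF A)
  | [], x, y, [], _, _, _ => by simp
  | [], x, y, _ :: _, h, _, _ => by simp at h
  | _ :: _, x, y, [], h, _, _ => by simp at h
  | z :: zs, x, y, b :: bs, h, hx, hv => by
    obtain ⟨h1, h2, h3⟩ := hv
    have hl : zs.length = bs.length := by simpa using h
    have ih := ex_chain C zs y z bs hl (C.symm h1) h3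
    have last : ((y, z) :: ex th y z zs bs).IsChain (AF A) := by
      cases zs with
      | nil => simp
      | cons z' zs' =>
        obtain ⟨r, hr⟩ := ex_head (th := th) (x := y) (y := z) (zs := z' :: zs') (bs := bs)
          (by simp) hl
        rw [hr] at ih ⊢
        rw [List.isChain_cons_cons]
        exact ⟨⟨h1, C.symm h1, Or.inr ⟨rfl, rfl⟩⟩, ih⟩
    cases b
    · rw [ex_false, List.isChain_cons_cons]
      exact ⟨⟨hx, h1, Or.inl ⟨rfl, fun e => h2 e.symm⟩⟩, last⟩
    · rw [ex_true, List.isChain_cons_cons, List.isChain_cons_cons]
      have ht := C.adj hx h1 (fun e => h2 e.symm)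
      exact ⟨⟨hx, ht, Or.inl ⟨rfl, fun e => C.ne1 hx h1 (fun e => h2 e.symm) e.symm⟩⟩,
        ⟨ht, h1, Or.inl ⟨rfl, C.ne2 hx h1 (fun e => h2 e.symm)⟩⟩, last⟩

/-- the first coordinates are interior vertices -/
lemma ex_fst : ∀ (zs : List V) (x y : V) (bs : List Bool) (e : V × V),
    e ∈ ex th x y zs bs → e.1 ∈ y :: zs.dropLast
  | [], x, y, _, e, h => by simp at h
  | _ :: _, x, y, [], e, h => by simp [ex] at h
  | z :: zs, x, y, b :: bs, e, h => by
    have key : e.1 = y ∨ e ∈ ex th y z zs bs := by
      cases b
      · rw [ex_false] at h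
        simp only [List.mem_cons] at h
        rcases h with h | h | h
        · left; rw [h]
        · left; rw [h]
        · right; exact h
      · rw [ex_true] at h
        simp only [List.mem_cons] at h
        rcases h with h | h | h | h
        · left; rw [h]
        · left; rw [h]
        · left; rw [h]
        · right; exact h
    rcases key with h1 | h1
    · rw [h1]; exact List.mem_cons_self
    · have ih := ex_fst zs y z bs e h1
      cases zs with
      | nil => simp at h1
      | cons z' zs' =>
        rw [List.dropLast_cons_cons]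
        exact List.mem_cons_of_mem _ ih

/-- an expansion of a self-avoiding walk is self-avoiding -/
lemma ex_nodup (C : Cub A th nb) : ∀ (zs : List V) (x y : V) (bs : List Bool),
    zs.length = bs.length → A y x → Val A x y zs → (y :: zs.dropLast).Nodup →
    (ex th x y zs bs).Nodup
  | [], x, y, [], _, _, _, _ => by simp
  | [], x, y, _ :: _, h, _, _, _ => by simp at h
  | _ :: _, x, y, [], h, _, _, _ => by simp at h
  | z :: zs, x, y, b :: bs, h, hx, hv, hn => by
    obtain ⟨h1, h2, h3⟩ := hv
    have hl : zs.length = bs.length := by simpa using h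
    -- no vertex of the rest has first coordinate `y`
    have hrest : (ex th y z zs bs).Nodup ∧ ∀ t, (y, t) ∉ ex th y z zs bs := by
      cases zs with
      | nil => simp
      | cons z' zs' =>
        rw [List.dropLast_cons_cons] at hn
        have hn' := List.nodup_cons.1 hn
        refine ⟨ex_nodup C _ y z bs hl (C.symm h1) h3 hn'.2, fun t ht => ?_⟩
        exact hn'.1 (ex_fst _ _ _ _ _ ht)
    have hxz : x ≠ z := fun e => h2 e.symm
    cases b
    · rw [ex_false, List.nodup_cons, List.nodup_cons]
      refine ⟨?_, hrest.2 z, hrest.1⟩
      simp only [List.mem_cons, Prod.mk.injEq, true_and, not_or]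
      exact ⟨hxz, hrest.2 x⟩
    · rw [ex_true, List.nodup_cons, List.nodup_cons, List.nodup_cons]
      refine ⟨?_, ?_, hrest.2 z, hrest.1⟩
      · simp only [List.mem_cons, Prod.mk.injEq, true_and, not_or]
        exact ⟨fun e => C.ne1 hx h1 hxz e.symm, hxz, hrest.2 x⟩
      · simp only [List.mem_cons, Prod.mk.injEq, true_and, not_or]
        exact ⟨C.ne2 hx h1 hxz, hrest.2 _⟩

/-- each interior vertex is the first coordinate of two different elements -/
lemma ex_two (C : Cub A th nb) : ∀ (zs : List V) (x y : V) (bs : List Bool),
    zs.length = bs.length → zs ≠ [] → A y x → Val A x y zs → ∀ v ∈ y :: zs.dropLast,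
    ∃ p q, p ≠ q ∧ (v, p) ∈ ex th x y zs bs ∧ (v, q) ∈ ex th x y zs bs ∧ A v p ∧ A v q
  | [], x, y, _, _, h, _, _, _, _ => absurd rfl h
  | _ :: _, x, y, [], h, _, _, _, _, _ => by simp at h
  | z :: zs, x, y, b :: bs, h, _, hx, hv, v, hvm => by
    obtain ⟨h1, h2, h3⟩ := hv
    have hl : zs.length = bs.length := by simpa using h
    have hsub : ∀ e, e ∈ ex th y z zs bs → e ∈ ex th x y (z :: zs) (b :: bs) := by
      intro e he
      cases b
      · rw [ex_false]; simp [he]
      · rw [ex_true]; simp [he]
    rcases List.mem_cons.1 hvm with e | e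
    · subst e
      refine ⟨x, z, fun e => h2 e.symm, ?_, ?_, hx, h1⟩
      · cases b
        · rw [ex_false]; simp
        · rw [ex_true]; simp
      · cases b
        · rw [ex_false]; simp
        · rw [ex_true]; simp
    · cases zs with
      | nil => simp at e
      | cons z' zs' =>
        rw [List.dropLast_cons_cons] at e
        obtain ⟨p, q, hpq, hp, hq, ap, aq⟩ := ex_two C (z' :: zs') y z bs hl (by simp)
          (C.symm h1) h3 v e
        exact ⟨p, q, hpq, hsub _ hp, hsub _ hq, ap, aq⟩

/-- an expansion determines its data -/
lemma ex_inj (C : Cub A th nb) : ∀ (zs : List V) (x y : V) (bs : List Bool) (zs' : List V)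
    (x' y' : V) (bs' : List Bool), zs.length = bs.length → zs'.length = bs'.length →
    zs ≠ [] → zs' ≠ [] → Val A x y zs → Val A x' y' zs' →
    ex th x y zs bs = ex th x' y' zs' bs' → x = x' ∧ y = y' ∧ zs = zs' ∧ bs = bs'
  | [], x, y, _, _, _, _, _, _, _, h, _, _, _, _ => absurd rfl h
  | _ :: _, x, y, [], _, _, _, _, h, _, _, _, _, _, _ => by simp at h
  | _ :: _, x, y, _ :: _, [], _, _, _, _, _, _, h, _, _, _ => absurd rfl h
  | _ :: _, x, y, _ :: _, _ :: _, _, _, [], _, h, _, _, _, _, _ => by simp at h
  | z :: zs, x, y, b :: bs, z' :: zs', x', y', b' :: bs', h, h', _, _, hv, hv', heq => by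
    obtain ⟨h1, h2, h3⟩ := hv
    obtain ⟨h1', h2', h3'⟩ := hv'
    have hl : zs.length = bs.length := by simpa using h
    have hl' : zs'.length = bs'.length := by simpa using h'
    -- the rest, once the first vertices agree
    have rest : ∀ (y0 z0 : V), y = y0 → z = z0 → y' = y0 → z' = z0 →
        ex th y z zs bs = ex th y' z' zs' bs' → zs = zs' ∧ bs = bs' := by
      intro y0 z0 e1 e2 e3 e4 he
      by_cases k : zs = []
      · by_cases k' : zs' = []
        · subst k; subst k'
          refine ⟨rfl, ?_⟩
          have a1 : bs = [] := List.length_eq_zero_iff.1 (by simpa using hl.symm)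
          have a2 : bs' = [] := List.length_eq_zero_iff.1 (by simpa using hl'.symm)
          rw [a1, a2]
        · exfalso
          obtain ⟨r, hr⟩ := ex_head (th := th) (x := y') (y := z') k' hl'
          rw [hr, k] at he
          simp at he
      · by_cases k' : zs' = []
        · exfalso
          obtain ⟨r, hr⟩ := ex_head (th := th) (x := y) (y := z) k hl
          rw [hr, k'] at he
          simp at he
        · have ih := ex_inj C zs y z bs zs' y' z' bs' hl hl' k k' h3 h3' he
          exact ⟨ih.2.2.1, ih.2.2.2⟩
    cases b <;> cases b'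
    · rw [ex_false, ex_false] at heq
      simp only [List.cons.injEq, Prod.mk.injEq] at heq
      obtain ⟨⟨e1, e2⟩, ⟨-, e3⟩, e4⟩ := heq
      obtain ⟨r1, r2⟩ := rest y z rfl rfl e1.symm e3.symm e4
      rw [e1, e2, e3, r1, r2]
      exact ⟨rfl, rfl, rfl, rfl⟩
    · exfalso
      rw [ex_false, ex_true] at heq
      simp only [List.cons.injEq, Prod.mk.injEq] at heq
      obtain ⟨⟨e1, e2⟩, ⟨-, e3⟩, e4⟩ := heq
      by_cases k : zs = []
      · rw [k] at e4; simp at e4
      · obtain ⟨r, hr⟩ := ex_head (th := th) (x := y) (y := z) k hl
        rw [hr] at e4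
        simp only [List.cons.injEq, Prod.mk.injEq] at e4
        apply C.irr y
        have : z = y := e4.1.1.trans e1.symm
        rw [this] at h1
        exact h1
    · exfalso
      rw [ex_false, ex_true] at heq
      simp only [List.cons.injEq, Prod.mk.injEq] at heq
      obtain ⟨⟨e1, e2⟩, ⟨-, e3⟩, e4⟩ := heq
      by_cases k : zs' = []
      · rw [k] at e4; simp at e4
      · obtain ⟨r, hr⟩ := ex_head (th := th) (x := y') (y := z') k hl'
        rw [hr] at e4
        simp only [List.cons.injEq, Prod.mk.injEq] at e4
        apply C.irr y'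
        have : z' = y' := e4.1.1.symm.trans e1
        rw [this] at h1'
        exact h1'
    · rw [ex_true, ex_true] at heq
      simp only [List.cons.injEq, Prod.mk.injEq] at heq
      obtain ⟨⟨e1, e2⟩, -, ⟨-, e3⟩, e4⟩ := heq
      obtain ⟨r1, r2⟩ := rest y z rfl rfl e1.symm e3.symm e4
      rw [e1, e2, e3, r1, r2]
      exact ⟨rfl, rfl, rfl, rfl⟩

end basic

section surj

/-- the last step is a triangle step -/
def LT (l : List (V × V)) : Prop := ∃ r c d, l = r ++ [c, d] ∧ c.1 = d.1

/-- the first step is a triangle step -/
def FT (l : List (V × V)) : Prop := ∃ a b r, l = a :: b :: r ∧ a.1 = b.1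

lemma LT_tail {a b c : V × V} {l : List (V × V)} (h : LT (a :: b :: c :: l)) :
    LT (b :: c :: l) := by
  obtain ⟨r, p, q, e, h⟩ := h
  cases r with
  | nil => simp at e
  | cons r0 r1 =>
    simp only [List.cons_append, List.cons.injEq] at e
    exact ⟨r1, p, q, e.2, h⟩

lemma AF_symm (C : Cub A th nb) {x y : V × V} (h : AF A x y) : AF A y x := by
  obtain ⟨h1, h2, h3⟩ := h
  refine ⟨h2, h1, ?_⟩
  rcases h3 with ⟨e1, e2⟩ | ⟨e1, e2⟩
  · exact Or.inl ⟨e1.symm, fun e => e2 e.symm⟩
  · exact Or.inr ⟨e2.symm, e1.symm⟩

lemma AF_of_mem : ∀ {l : List (V × V)}, l.IsChain (AF A) → 2 ≤ l.length → ∀ e ∈ l, A e.1 e.2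
  | [], _, h, _, _ => by simp at h
  | [_], _, h, _, _ => by simp at h
  | [a, b], hc, _, e, he => by
    rw [List.isChain_cons_cons] at hc
    simp only [List.mem_cons, List.not_mem_nil, or_false] at he
    rcases he with rfl | rfl
    · exact hc.1.1
    · exact hc.1.2.1
  | a :: b :: c :: l, hc, _, e, he => by
    rw [List.isChain_cons_cons] at hc
    rcases List.mem_cons.1 he with rfl | he
    · exact hc.1.1
    · exact AF_of_mem hc.2 (by simp) e he

/-- no fourth vertex of a triangle -/
lemma no_four (C : Cub A th nb) {y p q r s : V} (hp : A y p) (hq : A y q) (hr : A y r)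
    (hs : A y s) (h1 : p ≠ q) (h2 : p ≠ r) (h3 : p ≠ s) (h4 : q ≠ r) (h5 : q ≠ s) (h6 : r ≠ s) :
    False := by
  rcases C.all hp hq h1 hr with h | h | h
  · exact h2 h.symm
  · exact h4 h.symm
  · rcases C.all hp hq h1 hs with k | k | k
    · exact h3 k.symm
    · exact h5 k.symm
    · exact h6 (h.trans k.symm)

/-- **every self-avoiding walk with a triangle step at both ends is an expansion** -/
theorem ex_surj (C : Cub A th nb) : ∀ (n : ℕ) (l : List (V × V)), l.length ≤ n →
    l.IsChain (AF A) → l.Nodup → FT l → LT l →
    ∃ x y zs bs, l = ex th x y zs bs ∧ A y x ∧ zs.length = bs.length ∧ zs ≠ [] ∧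
      Val A x y zs ∧ (y :: zs.dropLast).Nodup := by
  intro n
  induction n with
  | zero =>
    rintro l hl - - ⟨a, b, r, e, -⟩ -
    rw [e] at hl
    simp at hl
  | succ n ih =>
    rintro l hl hc hn ⟨a, b, r, e, hab⟩ hL
    subst e
    obtain ⟨y, x⟩ := a
    obtain ⟨y', z'⟩ := b
    have hyy : y = y' := hab
    subst hyy
    have hAll := AF_of_mem hc (by simp)
    have hx : A y x := hAll (y, x) (by simp)
    have hz' : A y z' := hAll (y, z') (by simp)
    have hc1 := List.isChain_cons_cons.1 hc
    have hn1 := List.nodup_cons.1 hn
    have hxz : x ≠ z' := by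
      intro e
      apply hn1.1
      rw [e]
      simp
    cases r with
    | nil =>
      refine ⟨x, y, [z'], [false], ?_, hx, rfl, by simp, ⟨hz', fun e => hxz e.symm, trivial⟩,
        by simp⟩
      rw [ex_false]; simp
    | cons c r =>
      obtain ⟨c1, c2⟩ := c
      have hc2 := List.isChain_cons_cons.1 hc1.2
      have hn2 := List.nodup_cons.1 hn1.2
      have hL1 := LT_tail hL
      have hcA : A c1 c2 := hAll (c1, c2) (by simp)
      -- the step after a passage through `y`, from `(y, z)` to `(z, y)`
      have cross : ∀ (z : V) (l' : List (V × V)) (pre : List (V × V)), A y z → x ≠ z →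
          (y, x) :: (y, z') :: (c1, c2) :: r = pre ++ (y, z) :: (z, y) :: l' →
          (∃ e, pre = (y, x) :: e) →
          ∃ zs bs, (z, y) :: l' = ex th y z zs bs ∧ zs.length = bs.length ∧ zs ≠ [] ∧
            Val A y z zs ∧ (y :: z :: zs.dropLast).Nodup := by
        intro z l' pre hz hxz0 hl' hpre
        obtain ⟨e, he⟩ := hpre
        have hlen : ((z, y) :: l').length ≤ n := by
          have h1 := congrArg List.length hl'
          simp only [List.length_cons, List.length_append, he] at h1 hl ⊢
          omega
        have hch : ((y, z) :: (z, y) :: l').IsChain (AF A) := by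
          rw [hl'] at hc
          exact hc.right_of_append
        have hch' := List.isChain_cons_cons.1 hch
        have hnd : ((y, z) :: (z, y) :: l').Nodup := by
          rw [hl'] at hn
          exact (List.nodup_append.1 hn).2.1
        have hnd' := List.nodup_cons.1 hnd
        -- last step
        have hLT : LT ((z, y) :: l') := by
          obtain ⟨s, p, q, e1, e2⟩ := hL
          rw [hl'] at e1
          -- `l'` is not empty
          rcases List.eq_nil_or_concat l' with h0 | ⟨l1, w, h0⟩
          · exfalso
            subst h0
            have e3 : pre ++ [(y, z), (z, y)] = s ++ [p, q] := e1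
            have e4 := List.append_inj_right' e3 rfl
            simp only [List.cons.injEq, and_true] at e4
            rw [← e4.1, ← e4.2] at e2
            have : y = z := e2
            rw [this] at hz
            exact C.irr _ hz
          · rcases List.eq_nil_or_concat l1 with h1 | ⟨l2, w', h1⟩
            · refine ⟨[], (z, y), w, ?_, ?_⟩
              · rw [h0, h1]; rfl
              · rw [h0, h1] at e1
                have e3 : (pre ++ [(y, z)]) ++ [(z, y), w] = s ++ [p, q] := by
                  rw [← e1]; simp
                have e4 := List.append_inj_right' e3 rfl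
                simp only [List.cons.injEq, and_true] at e4
                rw [e4.1, e4.2]
                exact e2
            · refine ⟨(z, y) :: l2, w', w, ?_, ?_⟩
              · rw [h0, h1]; simp
              · rw [h0, h1] at e1
                have e3 : (pre ++ (y, z) :: (z, y) :: l2) ++ [w', w] = s ++ [p, q] := by
                  rw [← e1]; simp
                have e4 := List.append_inj_right' e3 rfl
                simp only [List.cons.injEq, and_true] at e4
                rw [e4.1, e4.2]
                exact e2
        -- first step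
        have hFT : FT ((z, y) :: l') := by
          cases l' with
          | nil =>
            exfalso
            obtain ⟨s, p, q, e1, e2⟩ := hLT
            have := congrArg List.length e1
            simp at this
          | cons w l1 =>
            refine ⟨(z, y), w, l1, rfl, ?_⟩
            have h1 := (List.isChain_cons_cons.1 hch'.2).1
            rcases h1.2.2 with ⟨h2, -⟩ | ⟨h2, h3⟩
            · exact h2
            · exfalso
              apply hnd'.1
              have : w = (y, z) := Prod.ext h2 h3
              rw [this]
              simp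
        obtain ⟨x1, y1, zs, bs, g1, g2, g3, g4, g5, g6⟩ := ih _ hlen hch'.2 hnd'.2 hFT hLT
        obtain ⟨t, ht⟩ := ex_head (th := th) (x := x1) (y := y1) g4 g3
        have g1' := g1
        rw [ht] at g1'
        simp only [List.cons.injEq, Prod.mk.injEq] at g1'
        obtain ⟨⟨k1, k2⟩, -⟩ := g1'
        subst k1
        subst k2
        refine ⟨zs, bs, g1, g3, g4, g5, ?_⟩
        rw [List.nodup_cons]
        refine ⟨fun hy => ?_, g6⟩
        obtain ⟨p, q, hpq, hp, hq, ap, aq⟩ := ex_two C zs y z bs g3 g4 g2 g5 y hy
        rw [← g1] at hp hq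
        -- `(y,x)`, `(y,z)`, `(y,p)`, `(y,q)` are different
        have hne : ∀ t, (y, t) ∈ (z, y) :: l' → x ≠ t ∧ z ≠ t := by
          intro t ht
          constructor
          · intro e1
            apply hn1.1
            have : (y, x) ∈ (y, z') :: (c1, c2) :: r := by
              have h5 : (y, z') :: (c1, c2) :: r = e ++ (y, z) :: (z, y) :: l' := by
                rw [he] at hl'
                simpa using hl'
              rw [h5, e1]
              simp only [List.mem_append, List.mem_cons]
              right; right
              exact List.mem_cons.1 ht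
            exact this
          · intro e1
            apply hnd'.1
            have h9 : ((y, z) : V × V) = (y, t) := by rw [e1]
            rw [h9]
            exact ht
        exact no_four C hx hz ap aq hxz0 (hne p hp).1 (hne q hq).1 (hne p hp).2 (hne q hq).2 hpq
      rcases hc2.1.2.2 with ⟨h1, h2⟩ | ⟨h1, h2⟩
      · -- a second step in the triangle
        simp only at h1 h2
        subst h1
        have hxc : x ≠ c2 := by
          intro e
          apply hn1.1
          rw [e]
          simp
        have hth : z' = th y x c2 := by
          rcases C.all hx hcA hxc hz' with h | h | h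
          · exact absurd h.symm hxz
          · exact absurd h h2
          · exact h
        cases r with
        | nil =>
          refine ⟨x, y, [c2], [true], ?_, hx, rfl, by simp, ⟨hcA, fun e => hxc e.symm, trivial⟩,
            by simp⟩
          rw [ex_true, hth]; simp
        | cons d r =>
          obtain ⟨d1, d2⟩ := d
          have hc3 := List.isChain_cons_cons.1 hc2.2
          rcases hc3.1.2.2 with ⟨h3, h4⟩ | ⟨h3, h4⟩
          · exfalso
            simp only at h3 h4
            subst h3
            have hd : A y d2 := hAll (y, d2) (by simp)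
            refine no_four C hx hz' hcA hd hxz hxc ?_ h2 ?_ h4
            · intro e; apply hn1.1; rw [e]; simp
            · intro e; apply hn2.1; rw [e]; simp
          · simp only at h3 h4
            subst h3
            subst h4
            obtain ⟨zs, bs, g1, g3, g4, g5, g6⟩ := cross d1 r [(d2, x), (d2, z')] hcA hxc rfl
              ⟨_, rfl⟩
            refine ⟨x, d2, d1 :: zs, true :: bs, ?_, hx, by simp [g3], by simp,
              ⟨hcA, fun e => hxc e.symm, g5⟩, ?_⟩
            · rw [ex_true, ← g1, hth]
            · cases zs with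
              | nil => exact absurd rfl g4
              | cons z1 zs1 => rw [List.dropLast_cons_cons]; exact g6
      · simp only at h1 h2
        subst h1
        subst h2
        obtain ⟨zs, bs, g1, g3, g4, g5, g6⟩ := cross c1 r [(c2, x)] hz' hxz rfl ⟨_, rfl⟩
        refine ⟨x, c2, c1 :: zs, false :: bs, ?_, hx, by simp [g3], by simp,
          ⟨hz', fun e => hxz e.symm, g5⟩, ?_⟩
        · rw [ex_false, ← g1]
        · cases zs with
          | nil => exact absurd rfl g4
          | cons z1 zs1 => rw [List.dropLast_cons_cons]; exact g6

end surj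

end Pool.Agent.D0H94.T12
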