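import Mathlib

/-!
# The ratios at doubled lengths
-/

set_option autoImplicit false
set_option linter.unusedVariables false

namespace Pool.Agent.D0H94.T12

open Filter Topology

/-- `P n = exp (ψ (2 n) - 2 ψ n)` -/
structure Db (P ψ : ℕ → ℝ) : Prop where
  pos : ∀ n, 0 < P n
  le1 : ∀ n, P n ≤ 1
  eq : ∀ n, Real.log (1 / P n) = 2 * ψ n - ψ (2 * n)
  lim : Tendsto (fun n : ℕ => ψ n / n) atTop (𝓝 0)

variable {P ψ : ℕ → ℝ}

theorem Db.log_nonneg (D : Db P ψ) (n : ℕ) : 0 ≤ Real.log (1 / P n) :=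
  Real.log_nonneg (by rw [le_div_iff₀ (D.pos n), one_mul]; exact D.le1 n)

theorem Db.psum (D : Db P ψ) (n K : ℕ) :
    ∑ j ∈ Finset.range K, (1 / 2 : ℝ) ^ (j + 1) * Real.log (1 / P (2 ^ j * n)) =
      ψ n - (1 / 2) ^ K * ψ (2 ^ K * n) := by
  induction K with
  | zero => simp
  | succ K ih =>
    rw [Finset.sum_range_succ, ih, D.eq]
    have e : 2 * (2 ^ K * n) = 2 ^ (K + 1) * n := by ring
    rw [e]
    ring

theorem scale_zero {F : ℕ → ℝ} (h : Tendsto (fun n : ℕ => F n / n) atTop (𝓝 0)) (n : ℕ)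
    (hn : 1 ≤ n) : Tendsto (fun K : ℕ => (1 / 2 : ℝ) ^ K * F (2 ^ K * n)) atTop (𝓝 0) := by
  have hn0 : (n : ℝ) ≠ 0 := by
    have : (0 : ℝ) < n := by exact_mod_cast hn
    exact this.ne'
  have h1 : Tendsto (fun K : ℕ => 2 ^ K * n) atTop atTop := by
    refine Filter.tendsto_atTop_mono (fun K => ?_) (tendsto_pow_atTop_atTop_of_one_lt one_lt_two)
    exact Nat.le_mul_of_pos_right _ hn
  have h2 := (h.comp h1).const_mul (n : ℝ)
  rw [mul_zero] at h2
  refine h2.congr fun K => ?_
  simp only [Function.comp]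
  push_cast
  have h3 : (2 : ℝ) ^ K ≠ 0 := by positivity
  rw [one_div, inv_pow]
  field_simp

theorem Db.hasSum (D : Db P ψ) (n : ℕ) (hn : 1 ≤ n) :
    HasSum (fun j : ℕ => (1 / 2 : ℝ) ^ (j + 1) * Real.log (1 / P (2 ^ j * n))) (ψ n) := by
  rw [hasSum_iff_tendsto_nat_of_nonneg]
  · have h := (tendsto_const_nhds (x := ψ n)).sub (scale_zero D.lim n hn)
    rw [sub_zero] at h
    exact h.congr fun K => (D.psum n K).symm
  · intro j
    exact mul_nonneg (by positivity) (D.log_nonneg _)

theorem sum_aux' (A B : ℝ) (K : ℕ) :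
    ∑ j ∈ Finset.range K, (1 / 2 : ℝ) ^ (j + 1) * (A + j * B) =
      A * (1 - (1 / 2) ^ K) + B * (1 - (K + 1) * (1 / 2) ^ K) := by
  induction K with
  | zero => simp
  | succ K ih =>
    rw [Finset.sum_range_succ, ih]
    push_cast
    ring

/-- small values of the probability, for infinitely many lengths -/
theorem Db.small (D : Db P ψ) {γ C : ℝ} (hψ : ∀ n : ℕ, 1 ≤ n → γ * Real.log n - C ≤ ψ n)
    (δ : ℝ) (hδ : δ < γ) :
    ∃ N : ℕ, ∀ n : ℕ, N ≤ n → ∃ j : ℕ, P (2 ^ j * n) ≤ ((2 ^ j * n : ℕ) : ℝ) ^ (-δ) := by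
  rcases le_or_gt δ 0 with h0 | h0
  · refine ⟨1, fun n hn => ⟨0, (D.le1 _).trans ?_⟩⟩
    have : (1 : ℝ) ≤ ((2 ^ 0 * n : ℕ) : ℝ) := by
      rw [pow_zero, one_mul]
      exact_mod_cast hn
    exact Real.one_le_rpow this (by linarith)
  · have hlog : Tendsto (fun n : ℕ => (γ - δ) * Real.log n) atTop atTop :=
      (Real.tendsto_log_atTop.comp tendsto_natCast_atTop_atTop).const_mul_atTop (by linarith)
    obtain ⟨N, hN⟩ := Filter.eventually_atTop.1
      (hlog.eventually_gt_atTop (δ * Real.log 2 + C))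
    refine ⟨max N 1, fun n hn => ?_⟩
    have hn1 : 1 ≤ n := (le_max_right _ _).trans hn
    have hn0 : (0 : ℝ) < n := by exact_mod_cast hn1
    have hlogn : 0 ≤ Real.log n := Real.log_nonneg (by exact_mod_cast hn1)
    by_contra hcon
    push Not at hcon
    have hlog2 : 0 ≤ Real.log 2 := Real.log_nonneg (by norm_num)
    have h1 : ∀ j : ℕ, Real.log (1 / P (2 ^ j * n)) ≤ δ * Real.log n + j * (δ * Real.log 2) := by
      intro j
      have h2 := hcon j
      have hpos : (0 : ℝ) < ((2 ^ j * n : ℕ) : ℝ) := by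
        push_cast
        positivity
      have h3 := Real.log_le_log (Real.rpow_pos_of_pos hpos _) h2.le
      rw [Real.log_rpow hpos] at h3
      rw [one_div, Real.log_inv]
      have h4 : Real.log ((2 ^ j * n : ℕ) : ℝ) = j * Real.log 2 + Real.log n := by
        push_cast
        rw [Real.log_mul (by positivity) hn0.ne', Real.log_pow]
      rw [h4] at h3
      linarith
    have h2 : ∀ K : ℕ, ∑ j ∈ Finset.range K, (1 / 2 : ℝ) ^ (j + 1) *
        Real.log (1 / P (2 ^ j * n)) ≤ δ * Real.log n + δ * Real.log 2 := by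
      intro K
      calc ∑ j ∈ Finset.range K, (1 / 2 : ℝ) ^ (j + 1) * Real.log (1 / P (2 ^ j * n))
          ≤ ∑ j ∈ Finset.range K, (1 / 2 : ℝ) ^ (j + 1) * (δ * Real.log n + j * (δ * Real.log 2)) :=
            Finset.sum_le_sum fun j _ => mul_le_mul_of_nonneg_left (h1 j) (by positivity)
        _ = _ := sum_aux' _ _ K
        _ ≤ _ := by
            have h5 : (0 : ℝ) ≤ (1 / 2) ^ K := by positivity
            have h6 : 0 ≤ δ * Real.log n := mul_nonneg h0.le hlogn
            have h7 : 0 ≤ δ * Real.log 2 := mul_nonneg h0.le hlog2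
            have h8 : 0 ≤ δ * Real.log n * (1 / 2) ^ K := mul_nonneg h6 h5
            have h9 : 0 ≤ δ * Real.log 2 * (((K : ℝ) + 1) * (1 / 2) ^ K) :=
              mul_nonneg h7 (mul_nonneg (by positivity) h5)
            nlinarith
    have h3 : ψ n ≤ δ * Real.log n + δ * Real.log 2 :=
      le_of_tendsto' ((hasSum_iff_tendsto_nat_of_nonneg (fun j =>
        mul_nonneg (by positivity) (D.log_nonneg _)) _).1 (D.hasSum n hn1)) h2
    have h4 := hψ n hn1
    have h5 := hN n ((le_max_left _ _).trans hn)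
    nlinarith

theorem Db.expo_le (D : Db P ψ) {γ C : ℝ} (hψ : ∀ n : ℕ, 1 ≤ n → γ * Real.log n - C ≤ ψ n)
    (α : ℝ) (h : Tendsto (fun n : ℕ => Real.log (P n) / Real.log n) atTop (𝓝 α)) : α ≤ -γ := by
  by_contra hα
  push Not at hα
  obtain ⟨δ, h1, h2⟩ := exists_between (show -α < γ by linarith)
  obtain ⟨N, hN⟩ := D.small hψ δ h2
  have h3 := h.eventually_const_lt (show -δ < α by linarith)
  obtain ⟨M, hM⟩ := Filter.eventually_atTop.1 h3
  set n := max (max N M) 2 with hn
  obtain ⟨j, hj⟩ := hN n ((le_max_left _ _).trans (le_max_left _ _))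
  have hnj : n ≤ 2 ^ j * n := Nat.le_mul_of_pos_left _ (by positivity)
  have h4 := hM (2 ^ j * n) (((le_max_right _ _).trans (le_max_left _ _)).trans hnj)
  have hn2 : 2 ≤ 2 ^ j * n := (le_max_right _ _).trans hnj
  have hpos : (1 : ℝ) < ((2 ^ j * n : ℕ) : ℝ) := by exact_mod_cast (by omega : 1 < 2 ^ j * n)
  have hlog : 0 < Real.log ((2 ^ j * n : ℕ) : ℝ) := Real.log_pos hpos
  rw [lt_div_iff₀ hlog] at h4
  have h5 := Real.log_le_log (D.pos _) hj
  rw [Real.log_rpow (by linarith)] at h5
  linarith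

lemma tl2 : Tendsto (fun n : ℕ => Real.log (n : ℝ)) atTop atTop :=
  Real.tendsto_log_atTop.comp tendsto_natCast_atTop_atTop

lemma tl3 : Tendsto (fun n : ℕ => Real.log (n : ℝ) / n) atTop (𝓝 0) :=
  (Real.isLittleO_log_id_atTop.tendsto_div_nhds_zero).comp tendsto_natCast_atTop_atTop

/-- the exponents of `P` and of `exp ψ` -/
theorem Db.expo (D : Db P ψ) (α : ℝ) :
    Tendsto (fun n : ℕ => Real.log (P n) / Real.log n) atTop (𝓝 (-α)) ↔
      Tendsto (fun n : ℕ => ψ n / Real.log n) atTop (𝓝 α) := by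
  have e1 : ∀ᶠ n : ℕ in atTop, 1 ≤ Real.log (n : ℝ) := tl2.eventually_ge_atTop 1
  have lP : ∀ n, Real.log (P n) = ψ (2 * n) - 2 * ψ n := fun n => by
    have := D.eq n
    rw [one_div, Real.log_inv] at this
    linarith
  constructor
  · intro h
    rw [Metric.tendsto_nhds] at h ⊢
    intro ε hε
    obtain ⟨N0, hN0⟩ := eventually_atTop.1 (h (ε / 12) (by positivity))
    obtain ⟨N1, hN1⟩ := eventually_atTop.1 e1
    have e2 := tl2.eventually_ge_atTop (12 * (|α| * Real.log 2) / ε + 4 * Real.log 2 + 1)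
    obtain ⟨N2, hN2⟩ := eventually_atTop.1 e2
    -- the defect
    obtain ⟨F, hF⟩ : ∃ F : ℕ → ℝ, F = fun n => |ψ n - α * Real.log n| -
        (2 * (ε / 6) * Real.log n + 2 * (ε / 6) * Real.log 2) := ⟨_, rfl⟩
    have hlog2 : 0 < Real.log 2 := Real.log_pos (by norm_num)
    have hlim : Tendsto (fun n : ℕ => F n / n) atTop (𝓝 0) := by
      have t1 : Tendsto (fun n : ℕ => (ψ n - α * Real.log n) / n) atTop (𝓝 0) := by
        have := D.lim.sub (tl3.const_mul α)
        rw [mul_zero, sub_zero] at this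
        refine this.congr fun n => ?_
        ring
      have t2 := t1.abs
      rw [abs_zero] at t2
      have t3 : Tendsto (fun n : ℕ => 2 * (ε / 6) * Real.log 2 / (n : ℝ)) atTop (𝓝 0) :=
        tendsto_const_div_atTop_nhds_zero_nat _
      have := (t2.sub (tl3.const_mul (2 * (ε / 6)))).sub t3
      rw [mul_zero, sub_zero, sub_zero] at this
      refine this.congr fun n => ?_
      rw [hF, abs_div, Nat.abs_cast]
      ring
    have step : ∀ n : ℕ, N0 + N1 + N2 + 2 ≤ n → F n ≤ 1 / 2 * F (2 * n) := by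
      intro n hn
      have h1 := hN0 n (by omega)
      have h2 := hN1 n (by omega)
      have h3 := hN2 n (by omega)
      have hl : Real.log ((2 * n : ℕ) : ℝ) = Real.log 2 + Real.log n := by
        push_cast
        rw [Real.log_mul (by norm_num) (by
          have : (0 : ℝ) < n := by exact_mod_cast (show 0 < n by omega)
          exact this.ne')]
      have hn0 : 0 < Real.log (n : ℝ) := by linarith
      have k1 : |Real.log (P n) + α * Real.log n| ≤ ε / 12 * Real.log n := by
        have h4 : Real.log (P n) + α * Real.log n =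
            (Real.log (P n) / Real.log n - -α) * Real.log n := by field_simp; ring
        rw [h4, abs_mul, abs_of_pos hn0]
        refine mul_le_mul_of_nonneg_right ?_ hn0.le
        have := hN0 n (by omega)
        rw [Real.dist_eq] at this
        exact this.le
      rw [lP] at k1
      have k2 : |α| * Real.log 2 ≤ ε / 12 * Real.log n := by
        have h5 : 12 * (|α| * Real.log 2) / ε ≤ Real.log n := by linarith
        rw [div_le_iff₀ hε] at h5
        linarith
      have k3 : |2 * (ψ n - α * Real.log n) - (ψ (2 * n) - α * Real.log ((2 * n : ℕ) : ℝ))| ≤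
          ε / 6 * Real.log n := by
        have e : 2 * (ψ n - α * Real.log n) - (ψ (2 * n) - α * Real.log ((2 * n : ℕ) : ℝ)) =
            -(ψ (2 * n) - 2 * ψ n + α * Real.log n) + α * Real.log 2 := by rw [hl]; ring
        rw [e]
        refine (abs_add_le _ _).trans ?_
        rw [abs_neg, abs_mul, abs_of_pos hlog2]
        linarith
      have k4 : 2 * |ψ n - α * Real.log n| ≤
          |ψ (2 * n) - α * Real.log ((2 * n : ℕ) : ℝ)| + ε / 6 * Real.log n := by
        have h6 : |2 * (ψ n - α * Real.log n)| ≤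
            |2 * (ψ n - α * Real.log n) - (ψ (2 * n) - α * Real.log ((2 * n : ℕ) : ℝ))| +
            |ψ (2 * n) - α * Real.log ((2 * n : ℕ) : ℝ)| := by
          have := abs_add_le (2 * (ψ n - α * Real.log n) -
            (ψ (2 * n) - α * Real.log ((2 * n : ℕ) : ℝ))) (ψ (2 * n) - α * Real.log ((2 * n : ℕ) : ℝ))
          simpa using this
        rw [abs_mul, abs_of_pos (show (0 : ℝ) < 2 by norm_num)] at h6
        linarith
      rw [hF]
      simp only
      rw [hl] at k4 ⊢
      nlinarith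
    filter_upwards [eventually_ge_atTop (N0 + N1 + N2 + 2)] with n hn
    have it : ∀ K : ℕ, F n ≤ (1 / 2) ^ K * F (2 ^ K * n) := by
      intro K
      induction K with
      | zero => simp
      | succ K ih =>
        have h1 := step (2 ^ K * n) (hn.trans (Nat.le_mul_of_pos_left _ (by positivity)))
        have e : 2 * (2 ^ K * n) = 2 ^ (K + 1) * n := by ring
        rw [e] at h1
        have h2 := mul_le_mul_of_nonneg_left h1 (show (0 : ℝ) ≤ (1 / 2) ^ K by positivity)
        rw [pow_succ]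
        linarith
    have hle : F n ≤ 0 := ge_of_tendsto' (scale_zero hlim n (by omega)) it
    rw [hF] at hle
    simp only at hle
    have h2 := hN1 n (by omega)
    have h3 := hN2 n (by omega)
    have hn0 : 0 < Real.log (n : ℝ) := by linarith
    have h4 : ψ n / Real.log n - α = (ψ n - α * Real.log n) / Real.log n := by field_simp
    rw [Real.dist_eq, h4, abs_div, abs_of_pos hn0, div_lt_iff₀ hn0]
    have h5 : 0 ≤ 12 * (|α| * Real.log 2) / ε := by positivity
    nlinarith
  · intro h
    have h3 : Tendsto (fun n : ℕ => 2 * n) atTop atTop :=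
      tendsto_id.const_mul_atTop' (by norm_num)
    have h4 : Tendsto (fun n : ℕ => Real.log ((2 * n : ℕ) : ℝ) / Real.log (n : ℝ)) atTop
        (𝓝 1) := by
      have t1 : Tendsto (fun n : ℕ => Real.log 2 / Real.log (n : ℝ) + 1) atTop (𝓝 (0 + 1)) :=
        (tl2.const_div_atTop (Real.log 2)).add_const 1
      rw [zero_add] at t1
      refine t1.congr' ?_
      filter_upwards [e1, eventually_ge_atTop 1] with n g1 g2
      have hn0 : (0 : ℝ) < n := by exact_mod_cast g2
      push_cast
      rw [Real.log_mul (by norm_num) hn0.ne']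
      field_simp
    have h5 := ((h.comp h3).mul h4).sub (h.const_mul 2)
    rw [show α * 1 - 2 * α = -α by ring] at h5
    refine h5.congr' ?_
    filter_upwards [e1, h3.eventually e1] with n g1 g2
    rw [lP]
    simp only [Function.comp_apply]
    have : Real.log (n : ℝ) ≠ 0 := by linarith
    have : Real.log ((2 * n : ℕ) : ℝ) ≠ 0 := by linarith
    field_simp

end Pool.Agent.D0H94.T12
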