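import Pool.Agent.D0H94.T12.Cnt

/-!
# Counting walks on the Fisher graph whose trace has a given property
-/

set_option autoImplicit false
set_option linter.unusedVariables false

namespace Pool.Agent.D0H94.T12

open Finset

variable {V : Type*} {A : V → V → Prop} {th : V → V → V → V} {nb : V → Fin 3 → V}

/-- the triangles visited by a list of vertices of the Fisher graph -/
def Sf (l : List (V × V)) : Set V := {x | ∃ e ∈ l, e.1 = x}

/-- the set of the elements of a list -/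
def Sv (l : List V) : Set V := {x | x ∈ l}

lemma Sf_ex (C : Cub A th nb) {zs : List V} {x y : V} {bs : List Bool}
    (hl : zs.length = bs.length) (hz : zs ≠ []) (hx : A y x) (hv : Val A x y zs) :
    Sf (ex th x y zs bs) = Sv (y :: zs.dropLast) := by
  ext v
  constructor
  · rintro ⟨e, he, rfl⟩
    exact ex_fst zs x y bs e he
  · intro hv'
    obtain ⟨p, q, -, hp, -⟩ := ex_two C zs x y bs hl hz hx hv v hv'
    exact ⟨(v, p), hp, rfl⟩

/-- number of self-avoiding walks whose trace has a property -/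
noncomputable def hQ (A : V → V → Prop) (Ψ : Set V → Prop) (v : V) (m : ℕ) : ℕ :=
  {r | r ∈ W A v m ∧ Ψ (Sv (v :: r))}.ncard

/-- the data of the walks whose trace has a property -/
def XSQ (A : V → V → Prop) (Ψ : Set V → Prop) (m : ℕ) (v : V) : Set (V × List V) :=
  {p | p ∈ XS A (m + 1) v ∧ Ψ (Sv (v :: p.2.dropLast))}

lemma exm_card (C : Cub A th nb) (N : ℕ) (v : V) (X : ℕ → Set (V × List V))
    (hX : ∀ m, X m ⊆ XS A (m + 1) v) :
    (⋃ m ∈ range N, exm th v '' (X m ×ˢ B (m + 1) N)).ncard =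
      ∑ m ∈ range N, (X m).ncard * K (m + 1) N := by
  have hfin : ∀ m, (exm th v '' (X m ×ˢ B (m + 1) N)).Finite := fun m =>
    (((XS_finite C m v).subset (hX m)).prod (B_finite _ _)).image _
  rw [ncard_biUnion_eq _ _ (fun m _ => hfin m)]
  · refine sum_congr rfl fun m _ => ?_
    rw [((exm_inj C N m v).mono (Set.prod_mono_left (hX m))).ncard_image, Set.ncard_prod, B_card]
  · intro i _ j _ hij
    rw [Set.disjoint_left]
    rintro _ ⟨⟨⟨x, zs⟩, bs⟩, ⟨h0, g5, g6⟩, rfl⟩ ⟨⟨⟨x', zs'⟩, bs'⟩, ⟨h0', g5', g6'⟩, h⟩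
    obtain ⟨g1, g2, g3, g4⟩ := hX _ h0
    obtain ⟨g1', g2', g3', g4'⟩ := hX _ h0'
    simp only at g1 g2 g3 g4 g5 g6 g1' g2' g3' g4' g5' g6'
    have hz : zs ≠ [] := by
      intro e
      rw [e] at g2
      simp at g2
    have hz' : zs' ≠ [] := by
      intro e
      rw [e] at g2'
      simp at g2'
    obtain ⟨a1, -, a2, a3⟩ := ex_inj C zs' x' v bs' zs x v bs (g2'.trans g5'.symm)
      (g2.trans g5.symm) hz' hz g3' g3 h
    apply hij
    rw [a2] at g2'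
    omega

/-- walks with triangle steps at both ends and a property of the trace -/
def TTQ (A : V → V → Prop) (Ψ : Set V → Prop) (N : ℕ) (v : V) : Set (List (V × V)) :=
  {l | l ∈ TT A N v ∧ Ψ (Sf l)}

lemma TTQ_eq (C : Cub A th nb) (Ψ : Set V → Prop) (N : ℕ) (v : V) : TTQ A Ψ N v =
    ⋃ m ∈ range N, exm th v '' (XSQ A Ψ m v ×ˢ B (m + 1) N) := by
  have key : ∀ (m : ℕ) (p : (V × List V) × List Bool), p ∈ XS A (m + 1) v ×ˢ B (m + 1) N →
      Sf (exm th v p) = Sv (v :: p.1.2.dropLast) := by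
    rintro m ⟨⟨x, zs⟩, bs⟩ ⟨⟨g1, g2, g3, g4⟩, g5, g6⟩
    simp only at g1 g2 g3 g4 g5 g6
    have hz : zs ≠ [] := by
      intro e
      rw [e] at g2
      simp at g2
    exact Sf_ex C (g2.trans g5.symm) hz g1 g3
  ext l
  constructor
  · rintro ⟨h1, h2⟩
    rw [TT_eq C] at h1
    simp only [Set.mem_iUnion, Set.mem_image, mem_range, exists_prop] at h1 ⊢
    obtain ⟨m, hm, p, hp, rfl⟩ := h1
    rw [key m p hp] at h2
    exact ⟨m, hm, p, ⟨⟨hp.1, h2⟩, hp.2⟩, rfl⟩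
  · intro h1
    simp only [Set.mem_iUnion, Set.mem_image, mem_range, exists_prop] at h1
    obtain ⟨m, hm, p, hp, rfl⟩ := h1
    have hp' : p ∈ XS A (m + 1) v ×ˢ B (m + 1) N := ⟨hp.1.1, hp.2⟩
    refine ⟨?_, ?_⟩
    · rw [TT_eq C]
      simp only [Set.mem_iUnion, Set.mem_image, mem_range, exists_prop]
      exact ⟨m, hm, p, hp', rfl⟩
    · rw [key m p hp']
      exact hp.1.2

lemma WQ_finite (C : Cub A th nb) (Ψ : Set V → Prop) (v : V) (m : ℕ) :
    {r | r ∈ W A v m ∧ Ψ (Sv (v :: r))}.Finite :=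
  (W_finite (fin_nb C) m v).subset fun _ h => h.1

lemma XSQ_upper (C : Cub A th nb) (Ψ : Set V → Prop) (m : ℕ) (v : V) :
    (XSQ A Ψ m v).ncard ≤ 9 * hQ A Ψ v m := by
  have hsub : XSQ A Ψ m v ⊆
      (fun q : List V × Fin 3 × Fin 3 => (nb v q.2.1,
        q.1 ++ [nb ((v :: q.1).getLast (by simp)) q.2.2])) ''
        ({r | r ∈ W A v m ∧ Ψ (Sv (v :: r))} ×ˢ (Set.univ : Set (Fin 3 × Fin 3))) := by
    rintro p ⟨h1, h2⟩
    obtain ⟨q, hq, e⟩ := XS_sub C m v h1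
    refine ⟨q, ⟨⟨hq.1, ?_⟩, trivial⟩, e⟩
    have e2 : p.2.dropLast = q.1 := by
      rw [← e]
      simp only [List.dropLast_concat]
    rw [← e2]
    exact h2
  refine (Set.ncard_le_ncard hsub (((WQ_finite C Ψ v m).prod Set.finite_univ).image _)).trans ?_
  refine (Set.ncard_image_le ((WQ_finite C Ψ v m).prod Set.finite_univ)).trans ?_
  rw [Set.ncard_prod, Set.ncard_univ, Nat.card_eq_fintype_card]
  simp [Fintype.card_prod, mul_comm, hQ]

lemma XSQ_lower (C : Cub A th nb) (Ψ : Set V → Prop) (m : ℕ) {v u : V} (hv : A v u) :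
    hQ A Ψ v m ≤ (XSQ A Ψ m v).ncard := by
  have hfin : (XSQ A Ψ m v).Finite := (XS_finite C m v).subset fun _ h => h.1
  refine le_trans (Set.ncard_le_ncard ?_ (hfin.image (fun p => p.2.dropLast)))
    (Set.ncard_image_le hfin)
  rintro r ⟨⟨h1, h2, h3⟩, hΨ⟩
  obtain ⟨x, hx, hx2⟩ : ∃ x, A v x ∧ ∀ w ∈ r.head?, w ≠ x := by
    cases r with
    | nil => exact ⟨u, hv, by simp⟩
    | cons w r =>
      rw [List.isChain_cons_cons] at h2
      obtain ⟨x, k1, k2⟩ := C.ex h2.1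
      refine ⟨x, k1, ?_⟩
      intro w' hw'
      simp only [List.head?_cons, Option.mem_def, Option.some.injEq] at hw'
      rw [← hw']
      exact k2.symm
  obtain ⟨z, hz⟩ := val_concat C r v h2 h3 x hx hx2
  refine ⟨(x, r ++ [z]), ⟨⟨hx, by simp [h1], hz, ?_⟩, ?_⟩, ?_⟩
  · simp only [List.dropLast_concat]
    exact h3
  · simp only [List.dropLast_concat]
    exact hΨ
  · simp only [List.dropLast_concat]

lemma TTQ_upper (C : Cub A th nb) (Ψ : Set V → Prop) (N : ℕ) (v : V) :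
    (TTQ A Ψ N v).ncard ≤ 9 * SS (hQ A Ψ v) N := by
  rw [TTQ_eq C, exm_card C N v _ (fun m p hp => hp.1), SS, mul_sum]
  refine sum_le_sum fun m _ => ?_
  rw [← mul_assoc]
  exact Nat.mul_le_mul_right _ (XSQ_upper C Ψ m v)

lemma TTQ_lower (C : Cub A th nb) (Ψ : Set V → Prop) (N : ℕ) {v u : V} (hv : A v u) :
    SS (hQ A Ψ v) N ≤ (TTQ A Ψ N v).ncard := by
  rw [TTQ_eq C, exm_card C N v _ (fun m p hp => hp.1), SS]
  exact sum_le_sum fun m _ => Nat.mul_le_mul_right _ (XSQ_lower C Ψ m hv)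

/-! ### all walks -/

/-- the walks whose trace has a property -/
def FLQ (A : V → V → Prop) (Ψ : Set V → Prop) (N : ℕ) (v : V) : Set (List (V × V)) :=
  {l | l ∈ FL A N v ∧ Ψ (Sf l)}

/-- the walks with a triangle step at the start, whose trace has a property -/
def T1Q (A : V → V → Prop) (Ψ : Set V → Prop) (N : ℕ) (v : V) : Set (List (V × V)) :=
  {l | l ∈ T1 A N v ∧ Ψ (Sf l)}

/-- the property survives the removal of a neighbour -/
def Rob (A : V → V → Prop) (Ψ Ψ' : Set V → Prop) : Prop :=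
  (∀ S, Ψ S → Ψ' S) ∧ ∀ (S : Set V) (x u : V), x ∈ S → A x u → Ψ (insert u S) → Ψ' S

lemma Sf_f1 (a : V × V) (l : List (V × V)) : Sf (f1 (a :: l)) = insert a.2 (Sf (a :: l)) := by
  ext x
  simp only [Sf, f1, List.mem_cons, Set.mem_ofPred_eq, Set.mem_insert_iff]
  constructor
  · rintro ⟨e, he, rfl⟩
    rcases he with rfl | he
    · left; rfl
    · right; exact ⟨e, he, rfl⟩
  · rintro (rfl | ⟨e, he, rfl⟩)
    · exact ⟨(a.2, a.1), Or.inl rfl, rfl⟩
    · exact ⟨e, Or.inr he, rfl⟩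

lemma Sf_reverse (l : List (V × V)) : Sf l.reverse = Sf l := by
  ext x
  simp [Sf]

lemma FLQ_T1 (C : Cub A th nb) {Ψ Ψ' : Set V → Prop} (hR : Rob A Ψ Ψ') (n : ℕ) (v : V) :
    FLQ A Ψ (n + 3) v ⊆ T1Q A Ψ' (n + 3) v ∪
      ⋃ i ∈ (univ : Finset (Fin 3)), f1 '' T1Q A Ψ' (n + 2) (nb v i) := by
  rintro l ⟨hl, hΨ⟩
  rcases FL_T1 C n v hl with h | h
  · exact Or.inl ⟨h, hR.1 _ hΨ⟩
  · right
    simp only [Set.mem_iUnion, Set.mem_image, mem_univ, exists_prop, true_and] at h ⊢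
    obtain ⟨i, l1, h1, rfl⟩ := h
    refine ⟨i, l1, ⟨h1, ?_⟩, rfl⟩
    obtain ⟨⟨-, -, -, u, r, hu, rfl⟩, -⟩ := h1
    rw [Sf_f1] at hΨ
    refine hR.2 _ (nb v i) u ⟨_, List.mem_cons_self, rfl⟩ hu hΨ

lemma T1Q_TT (C : Cub A th nb) {Ψ Ψ' : Set V → Prop} (hR : Rob A Ψ Ψ') (n : ℕ) (v : V) :
    T1Q A Ψ (n + 3) v ⊆ TTQ A Ψ' (n + 3) v ∪
      (fun l => (f1 l.reverse).reverse) '' TTQ A Ψ' (n + 2) v := by
  rintro l ⟨hl, hΨ⟩
  rcases T1_TT C n v hl with h | ⟨l1, h1, rfl⟩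
  · exact Or.inl ⟨h, hR.1 _ hΨ⟩
  · right
    refine ⟨l1, ⟨h1, ?_⟩, rfl⟩
    obtain ⟨⟨g1, g2, g3, u, r, hu, g4⟩, -⟩ := h1
    simp only at hΨ
    rw [Sf_reverse] at hΨ
    cases h : l1.reverse with
    | nil =>
      exfalso
      have := congrArg List.length h
      rw [List.length_reverse, g1] at this
      simp at this
    | cons a l2 =>
      rw [h, Sf_f1, ← h, Sf_reverse] at hΨ
      have ha : a ∈ l1 := by
        rw [← List.mem_reverse, h]
        exact List.mem_cons_self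
      exact hR.2 _ a.1 a.2 ⟨a, ha, rfl⟩ (AF_of_mem g2 (by omega) a ha) hΨ

/-- **upper bound for the walks on the Fisher graph with a property of the trace** -/
theorem FLQ_le (C : Cub A th nb) (n : ℕ) (v : V) {Ψ0 Ψ1 Ψ2 : Set V → Prop}
    (h01 : Rob A Ψ0 Ψ1) (h12 : Rob A Ψ1 Ψ2) (h : ℕ → ℕ)
    (hh : ∀ i m, hQ A Ψ2 (nb v i) m ≤ h m) (hv : ∀ m, hQ A Ψ2 v m ≤ h m) :
    (FLQ A Ψ0 (n + 4) v).ncard ≤ 9 * (SS h (n + 4) + 4 * SS h (n + 3) + 3 * SS h (n + 2)) := by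
  have ft : ∀ N v, (TTQ A Ψ2 (N + 1) v).Finite :=
    fun N v => (FL_finite C N v).subset fun l hl => hl.1.1
  have f1' : ∀ N v, (T1Q A Ψ1 (N + 1) v).Finite :=
    fun N v => (FL_finite C N v).subset fun l hl => hl.1.1
  have b1 : ∀ N v, (T1Q A Ψ1 (N + 3) v).ncard ≤
      (TTQ A Ψ2 (N + 3) v).ncard + (TTQ A Ψ2 (N + 2) v).ncard := by
    intro N v
    refine (Set.ncard_le_ncard (T1Q_TT C h12 N v) ((ft _ _).union ((ft _ _).image _))).trans ?_
    refine (Set.ncard_union_le _ _).trans ?_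
    exact Nat.add_le_add_left (Set.ncard_image_le (ft _ _)) _
  have b2 : (FLQ A Ψ0 (n + 4) v).ncard ≤ (T1Q A Ψ1 (n + 4) v).ncard +
      ∑ i : Fin 3, (T1Q A Ψ1 (n + 3) (nb v i)).ncard := by
    refine (Set.ncard_le_ncard (FLQ_T1 C h01 (n + 1) v) ((f1' _ _).union
      (Set.Finite.biUnion (univ : Finset (Fin 3)).finite_toSet fun i _ => (f1' _ _).image _))).trans ?_
    refine (Set.ncard_union_le _ _).trans ?_
    refine Nat.add_le_add_left ?_ _
    refine (ncard_biUnion_le _ _ fun i _ => (f1' _ _).image _).trans ?_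
    exact sum_le_sum fun i _ => Set.ncard_image_le (f1' _ _)
  have mono : ∀ {g : ℕ → ℕ}, (∀ m, g m ≤ h m) → ∀ N, SS g N ≤ SS h N := by
    intro g hg N
    unfold SS
    exact sum_le_sum fun m _ => Nat.mul_le_mul_right _ (hg m)
  have t0 : ∀ N, (TTQ A Ψ2 N v).ncard ≤ 9 * SS h N := fun N =>
    (TTQ_upper C Ψ2 N v).trans (Nat.mul_le_mul_left _ (mono hv N))
  have ti : ∀ N i, (TTQ A Ψ2 N (nb v i)).ncard ≤ 9 * SS h N := fun N i =>
    (TTQ_upper C Ψ2 N (nb v i)).trans (Nat.mul_le_mul_left _ (mono (hh i) N))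
  have c1 := b1 (n + 1) v
  have c2 : ∀ i, (T1Q A Ψ1 (n + 3) (nb v i)).ncard ≤ 9 * SS h (n + 3) + 9 * SS h (n + 2) :=
    fun i => (b1 n (nb v i)).trans (Nat.add_le_add (ti _ i) (ti _ i))
  have c3 : ∑ i : Fin 3, (T1Q A Ψ1 (n + 3) (nb v i)).ncard ≤
      3 * (9 * SS h (n + 3) + 9 * SS h (n + 2)) := by
    refine (sum_le_sum fun i _ => c2 i).trans ?_
    simp
  have c4 := t0 (n + 4)
  have c5 := t0 (n + 3)
  rw [show n + 1 + 3 = n + 4 from rfl, show n + 1 + 2 = n + 3 from rfl] at c1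
  omega

/-- the walks on the Fisher graph from a vertex, with a property of the trace -/
noncomputable def fQ (A : V → V → Prop) (Ψ : Set V → Prop) (x : V × V) (n : ℕ) : ℕ :=
  {r | r ∈ W (AF A) x n ∧ Ψ (Sf (x :: r))}.ncard

lemma FQ_finite (C : Cub A th nb) (Ψ : Set V → Prop) (x : V × V) (n : ℕ) :
    {r | r ∈ W (AF A) x n ∧ Ψ (Sf (x :: r))}.Finite :=
  (W_finite (fin_AF C) n x).subset fun _ h => h.1

lemma fQ_le_FLQ (C : Cub A th nb) (Ψ : Set V → Prop) (n : ℕ) {v u : V} (hu : A v u) :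
    fQ A Ψ (v, u) n ≤ (FLQ A Ψ (n + 1) v).ncard := by
  refine Set.ncard_le_ncard_of_injOn (List.cons (v, u)) ?_ (List.cons_injective.injOn)
    ((FL_finite C n v).subset fun l hl => hl.1)
  rintro r ⟨⟨h1, h2, h3⟩, h4⟩
  exact ⟨⟨by simp [h1], h2, h3, u, r, hu, rfl⟩, h4⟩

lemma FLQ_le_sum (C : Cub A th nb) (Ψ : Set V → Prop) (n : ℕ) (v : V) :
    (FLQ A Ψ (n + 1) v).ncard ≤ ∑ i : Fin 3, fQ A Ψ (v, nb v i) n := by
  have hsub : FLQ A Ψ (n + 1) v ⊆ ⋃ i ∈ (univ : Finset (Fin 3)), List.cons (v, nb v i) ''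
      {r | r ∈ W (AF A) (v, nb v i) n ∧ Ψ (Sf ((v, nb v i) :: r))} := by
    rintro l ⟨h1, h2⟩
    have h3 := FL_sub C n v h1
    simp only [Set.mem_iUnion, Set.mem_image, mem_univ, exists_prop, true_and] at h3 ⊢
    obtain ⟨i, r, hr, rfl⟩ := h3
    exact ⟨i, r, ⟨hr, h2⟩, rfl⟩
  refine (Set.ncard_le_ncard hsub (Set.Finite.biUnion (univ : Finset (Fin 3)).finite_toSet
    fun i _ => (FQ_finite C Ψ _ _).image _)).trans ?_
  refine (ncard_biUnion_le _ _ fun i _ => (FQ_finite C Ψ _ _).image _).trans ?_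
  exact sum_le_sum fun i _ => Set.ncard_image_le (FQ_finite C Ψ _ _)

/-- **lower bound** -/
theorem le_sum_fQ (C : Cub A th nb) (Ψ : Set V → Prop) (n : ℕ) {v u : V} (hu : A v u) :
    SS (hQ A Ψ v) (n + 1) ≤ ∑ i : Fin 3, fQ A Ψ (v, nb v i) n := by
  have hsub : TTQ A Ψ (n + 1) v ⊆ FLQ A Ψ (n + 1) v := fun l hl => ⟨hl.1.1, hl.2⟩
  have hfin : (FLQ A Ψ (n + 1) v).Finite := (FL_finite C n v).subset fun l hl => hl.1
  exact (TTQ_lower C Ψ (n + 1) hu).trans ((Set.ncard_le_ncard hsub hfin).trans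
    (FLQ_le_sum C Ψ n v))

end Pool.Agent.D0H94.T12
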