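import Pool.Agent.D0H94.T12.Cnt

/-!
# The honeycomb lattice in Eisenstein coordinates

The point `(a, b)` stands for `a + b e^{iπ/3}`.
-/

set_option autoImplicit false
set_option linter.unusedVariables false
set_option linter.unusedSimpArgs false

namespace Pool.Agent.D0H94.T12

/-- points of the plane in Eisenstein coordinates -/
abbrev P2 : Type := ℤ × ℤ

/-- adjacency of the honeycomb lattice -/
def Hx (p q : P2) : Prop :=
  (q.1 - p.1) ^ 2 + (q.1 - p.1) * (q.2 - p.2) + (q.2 - p.2) ^ 2 = 1 ∧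
    (p.1 - p.2) % 3 ≠ 2 ∧ (q.1 - q.2) % 3 ≠ 2

lemma units {a b : ℤ} (h : a ^ 2 + a * b + b ^ 2 = 1) :
    (a = 1 ∧ b = 0) ∨ (a = -1 ∧ b = 0) ∨ (a = 0 ∧ b = 1) ∨ (a = 0 ∧ b = -1) ∨
      (a = 1 ∧ b = -1) ∨ (a = -1 ∧ b = 1) := by
  have hb : -1 ≤ b ∧ b ≤ 1 := by
    constructor <;> nlinarith [sq_nonneg (2 * a + b)]
  have ha : -1 ≤ a ∧ a ≤ 1 := by
    constructor <;> nlinarith [sq_nonneg (2 * b + a)]
  obtain ⟨a1, a2⟩ := ha
  obtain ⟨b1, b2⟩ := hb
  interval_cases a <;> interval_cases b <;> simp_all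

/-- the neighbours -/
def nbr (v : P2) (i : Fin 3) : P2 :=
  let s : ℤ := if (v.1 - v.2) % 3 = 0 then 1 else -1
  match i with
  | 0 => (v.1 + s, v.2)
  | 1 => (v.1 - s, v.2 + s)
  | 2 => (v.1, v.2 - s)

/-- the third neighbour -/
def thd (v u w : P2) : P2 := (3 * v.1 - u.1 - w.1, 3 * v.2 - u.2 - w.2)

lemma Hx_cases {v w : P2} (h : Hx v w) :
    ((v.1 - v.2) % 3 = 0 ∧ (w = (v.1 + 1, v.2) ∨ w = (v.1 - 1, v.2 + 1) ∨ w = (v.1, v.2 - 1))) ∨
    ((v.1 - v.2) % 3 = 1 ∧ (w = (v.1 - 1, v.2) ∨ w = (v.1 + 1, v.2 - 1) ∨ w = (v.1, v.2 + 1))) := by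
  obtain ⟨h1, h2, h3⟩ := h
  obtain ⟨a, b⟩ := v
  obtain ⟨c, d⟩ := w
  simp only [Prod.mk.injEq] at *
  rcases units h1 with h | h | h | h | h | h <;> omega

lemma Hx_of {v w : P2} (h : ((v.1 - v.2) % 3 = 0 ∧
      (w = (v.1 + 1, v.2) ∨ w = (v.1 - 1, v.2 + 1) ∨ w = (v.1, v.2 - 1))) ∨
    ((v.1 - v.2) % 3 = 1 ∧
      (w = (v.1 - 1, v.2) ∨ w = (v.1 + 1, v.2 - 1) ∨ w = (v.1, v.2 + 1)))) : Hx v w := by
  obtain ⟨a, b⟩ := v
  rcases h with ⟨h1, h | h | h⟩ | ⟨h1, h | h | h⟩ <;> subst h <;> simp only at h1 <;>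
    refine ⟨by simp only; ring, by simp only; omega, by simp only; omega⟩

lemma cub_adj {v u w : P2} (h1 : Hx v u) (h2 : Hx v w) (h3 : u ≠ w) : Hx v (thd v u w) := by
  apply Hx_of
  obtain ⟨a, b⟩ := v
  obtain ⟨c, d⟩ := u
  obtain ⟨e, f⟩ := w
  rcases Hx_cases h1 with ⟨m, k | k | k⟩ | ⟨m, k | k | k⟩ <;>
    rcases Hx_cases h2 with ⟨m', k' | k' | k'⟩ | ⟨m', k' | k' | k'⟩ <;>
    simp only [Prod.mk.injEq, thd, ne_eq] at m m' k k' h3 ⊢ <;> omega

lemma cub_ne1 {v u w : P2} (h1 : Hx v u) (h2 : Hx v w) (h3 : u ≠ w) : thd v u w ≠ u := by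
  obtain ⟨a, b⟩ := v
  obtain ⟨c, d⟩ := u
  obtain ⟨e, f⟩ := w
  rcases Hx_cases h1 with ⟨m, k | k | k⟩ | ⟨m, k | k | k⟩ <;>
    rcases Hx_cases h2 with ⟨m', k' | k' | k'⟩ | ⟨m', k' | k' | k'⟩ <;>
    simp only [Prod.mk.injEq, thd, ne_eq] at m m' k k' h3 ⊢ <;> omega

lemma cub_ne2 {v u w : P2} (h1 : Hx v u) (h2 : Hx v w) (h3 : u ≠ w) : thd v u w ≠ w := by
  obtain ⟨a, b⟩ := v
  obtain ⟨c, d⟩ := u
  obtain ⟨e, f⟩ := w
  rcases Hx_cases h1 with ⟨m, k | k | k⟩ | ⟨m, k | k | k⟩ <;>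
    rcases Hx_cases h2 with ⟨m', k' | k' | k'⟩ | ⟨m', k' | k' | k'⟩ <;>
    simp only [Prod.mk.injEq, thd, ne_eq] at m m' k k' h3 ⊢ <;> omega

lemma cub_all {v u w t : P2} (h1 : Hx v u) (h2 : Hx v w) (h3 : u ≠ w) (h4 : Hx v t) :
    t = u ∨ t = w ∨ t = thd v u w := by
  obtain ⟨a, b⟩ := v
  obtain ⟨c, d⟩ := u
  obtain ⟨e, f⟩ := w
  obtain ⟨g, h⟩ := t
  have k4 := Hx_cases h4
  simp only [Prod.mk.injEq] at k4
  rcases Hx_cases h1 with ⟨m, k | k | k⟩ | ⟨m, k | k | k⟩ <;>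
    rcases Hx_cases h2 with ⟨m', k' | k' | k'⟩ | ⟨m', k' | k' | k'⟩ <;>
    simp only [Prod.mk.injEq, thd, ne_eq] at m m' k k' h3 ⊢ <;> omega

lemma cub_ex {v u : P2} (h1 : Hx v u) : ∃ w, Hx v w ∧ w ≠ u := by
  obtain ⟨a, b⟩ := v
  obtain ⟨c, d⟩ := u
  rcases Hx_cases h1 with ⟨m, k | k | k⟩ | ⟨m, k | k | k⟩ <;>
    simp only [Prod.mk.injEq] at m k
  · exact ⟨(a - 1, b + 1), Hx_of (by simp only [Prod.mk.injEq, true_or, or_true, and_true, true_and]; omega), by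
      simp only [Prod.mk.injEq, ne_eq]; omega⟩
  · exact ⟨(a + 1, b), Hx_of (by simp only [Prod.mk.injEq, true_or, or_true, and_true, true_and]; omega), by
      simp only [Prod.mk.injEq, ne_eq]; omega⟩
  · exact ⟨(a + 1, b), Hx_of (by simp only [Prod.mk.injEq, true_or, or_true, and_true, true_and]; omega), by
      simp only [Prod.mk.injEq, ne_eq]; omega⟩
  · exact ⟨(a + 1, b - 1), Hx_of (by simp only [Prod.mk.injEq, true_or, or_true, and_true, true_and]; omega), by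
      simp only [Prod.mk.injEq, ne_eq]; omega⟩
  · exact ⟨(a - 1, b), Hx_of (by simp only [Prod.mk.injEq, true_or, or_true, and_true, true_and]; omega), by
      simp only [Prod.mk.injEq, ne_eq]; omega⟩
  · exact ⟨(a - 1, b), Hx_of (by simp only [Prod.mk.injEq, true_or, or_true, and_true, true_and]; omega), by
      simp only [Prod.mk.injEq, ne_eq]; omega⟩

lemma cub : Cub Hx thd nbr where
  symm := by
    intro v w h
    obtain ⟨h1, h2, h3⟩ := h
    refine ⟨?_, h3, h2⟩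
    linear_combination h1
  irr := by
    intro v h
    have := h.1
    simp at this
  adj := cub_adj
  ne1 := cub_ne1
  ne2 := cub_ne2
  all := cub_all
  ex := cub_ex
  nb := by
    intro v w h
    have k := Hx_cases h
    obtain ⟨a, b⟩ := v
    obtain ⟨c, d⟩ := w
    unfold nbr
    simp only [Prod.mk.injEq] at k
    rcases k with ⟨k0, k | k | k⟩ | ⟨k0, k | k | k⟩
    · exact ⟨0, by simp only [Prod.mk.injEq]; split_ifs; omega⟩
    · exact ⟨1, by simp only [Prod.mk.injEq]; split_ifs; omega⟩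
    · exact ⟨2, by simp only [Prod.mk.injEq]; split_ifs; omega⟩
    · exact ⟨0, by simp only [Prod.mk.injEq]; split_ifs <;> omega⟩
    · exact ⟨1, by simp only [Prod.mk.injEq]; split_ifs <;> omega⟩
    · exact ⟨2, by simp only [Prod.mk.injEq]; split_ifs <;> omega⟩

lemma Hx_nbr {v : P2} (h : (v.1 - v.2) % 3 ≠ 2) (i : Fin 3) : Hx v (nbr v i) := by
  obtain ⟨a, b⟩ := v
  simp only at h
  by_cases h0 : (a - b) % 3 = 0
  · match i with
    | 0 =>
      refine Hx_of ?_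
      simp only [nbr, h0, if_true, Prod.mk.injEq, true_or, or_true, and_true, true_and]
    | 1 =>
      refine Hx_of ?_
      simp only [nbr, h0, if_true, Prod.mk.injEq, true_or, or_true, and_true, true_and]
    | 2 =>
      refine Hx_of ?_
      simp only [nbr, h0, if_true, Prod.mk.injEq, true_or, or_true, and_true, true_and]
  · match i with
    | 0 =>
      refine Hx_of ?_
      simp only [nbr, h0, if_false, Prod.mk.injEq, true_or, or_true, and_true, true_and]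
      omega
    | 1 =>
      refine Hx_of ?_
      simp only [nbr, h0, if_false, Prod.mk.injEq, true_or, or_true, and_true, true_and]
      omega
    | 2 =>
      refine Hx_of ?_
      simp only [nbr, h0, if_false, Prod.mk.injEq, true_or, or_true, and_true, true_and]
      omega

/-! ### the symmetries -/

/-- the symmetry `z ↦ (z - p) / (q - p)`, where `x = (p, q)` is a pair of neighbours -/
def gm (x : P2 × P2) (z : P2) : P2 :=
  (((x.2.1 - x.1.1) + (x.2.2 - x.1.2)) * (z.1 - x.1.1) + (x.2.2 - x.1.2) * (z.2 - x.1.2),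
    (x.2.1 - x.1.1) * (z.2 - x.1.2) - (x.2.2 - x.1.2) * (z.1 - x.1.1))

lemma gm_fst (x : P2 × P2) : gm x x.1 = 0 := by
  unfold gm
  simp

lemma gm_snd {x : P2 × P2} (h : Hx x.1 x.2) : gm x x.2 = (1, 0) := by
  unfold gm
  rw [Prod.mk.injEq]
  constructor
  · linear_combination h.1
  · ring

lemma gm_adj {x : P2 × P2} (h : Hx x.1 x.2) {z w : P2} (hz : Hx z w) :
    Hx (gm x z) (gm x w) := by
  obtain ⟨⟨a, b⟩, ⟨c, d⟩⟩ := x
  obtain ⟨h1, h2, h3⟩ := h
  obtain ⟨k1, k2, k3⟩ := hz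
  simp only at h1 h2 h3
  refine ⟨?_, ?_, ?_⟩
  · unfold gm
    simp only
    linear_combination ((w.1 - z.1) ^ 2 + (w.1 - z.1) * (w.2 - z.2) + (w.2 - z.2) ^ 2) * h1 + k1
  · unfold gm
    simp only
    rcases units h1 with ⟨e1, e2⟩ | ⟨e1, e2⟩ | ⟨e1, e2⟩ | ⟨e1, e2⟩ | ⟨e1, e2⟩ | ⟨e1, e2⟩ <;>
      rw [e1, e2] <;> omega
  · unfold gm
    simp only
    rcases units h1 with ⟨e1, e2⟩ | ⟨e1, e2⟩ | ⟨e1, e2⟩ | ⟨e1, e2⟩ | ⟨e1, e2⟩ | ⟨e1, e2⟩ <;>
      rw [e1, e2] <;> omega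

/-- the inverse -/
lemma gm_gm {x : P2 × P2} (h : Hx x.1 x.2) (z : P2) :
    gm (gm x (0, 0), gm x (1, 0)) (gm x z) = z := by
  obtain ⟨⟨a, b⟩, ⟨c, d⟩⟩ := x
  obtain ⟨h1, h2, h3⟩ := h
  obtain ⟨e, f⟩ := z
  simp only at h1
  unfold gm
  simp only [Prod.mk.injEq]
  constructor
  · linear_combination e * h1
  · linear_combination f * h1

lemma gm_inj {x : P2 × P2} (h : Hx x.1 x.2) : Function.Injective (gm x) := by
  intro z w e
  rw [← gm_gm h z, e, gm_gm h w]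

lemma Hx0 : Hx (0, 0) (1, 0) := by
  refine ⟨by norm_num, by norm_num, by norm_num⟩

lemma gm_base {x : P2 × P2} (h : Hx x.1 x.2) :
    Hx (gm x (0, 0), gm x (1, 0)).1 (gm x (0, 0), gm x (1, 0)).2 := gm_adj h Hx0

/-! ### the counts do not depend on the starting point -/

lemma W_map {α : Type*} {R : α → α → Prop} (hf : ∀ v, {w | R v w}.Finite) {g : α → α}
    (hg : Function.Injective g) (h : ∀ a b, R a b → R (g a) (g b)) (v : α) (k : ℕ) :
    (W R v k).ncard ≤ (W R (g v) k).ncard := by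
  refine Set.ncard_le_ncard_of_injOn (List.map g) ?_ (List.map_injective_iff.2 hg).injOn
    (W_finite hf k _)
  rintro r ⟨h1, h2, h3⟩
  refine ⟨by simpa using h1, ?_, ?_⟩
  · have : (List.map g (v :: r)).IsChain R := List.isChain_map_of_isChain g h h2
    simpa using this
  · have : (List.map g (v :: r)).Nodup := h3.map hg
    simpa using this

/-- symmetries act on the Fisher graph -/
lemma AF_gm {x : P2 × P2} (h : Hx x.1 x.2) {y z : P2 × P2} (hyz : AF Hx y z) :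
    AF Hx (Prod.map (gm x) (gm x) y) (Prod.map (gm x) (gm x) z) := by
  obtain ⟨h1, h2, h3⟩ := hyz
  refine ⟨gm_adj h h1, gm_adj h h2, ?_⟩
  rcases h3 with ⟨e1, e2⟩ | ⟨e1, e2⟩
  · left
    simp only [Prod.map_fst, Prod.map_snd]
    exact ⟨by rw [e1], fun e => e2 (gm_inj h e)⟩
  · right
    simp only [Prod.map_fst, Prod.map_snd]
    exact ⟨by rw [e1], by rw [e2]⟩

/-- the number of walks on the Fisher graph of the honeycomb lattice -/
noncomputable def aF (n : ℕ) : ℕ := (W (AF Hx) ((0, 0), (1, 0)) n).ncard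

/-- the number of walks on the honeycomb lattice -/
noncomputable def aH (n : ℕ) : ℕ := (W Hx (0, 0) n).ncard

theorem aF_eq {x : P2 × P2} (h : Hx x.1 x.2) (n : ℕ) : (W (AF Hx) x n).ncard = aF n := by
  have e1 : Prod.map (gm x) (gm x) x = ((0, 0), (1, 0)) :=
    Prod.ext (gm_fst x) (gm_snd h)
  refine le_antisymm ?_ ?_
  · have := W_map (fin_AF cub) (Prod.map_injective.2 ⟨gm_inj h, gm_inj h⟩)
      (fun a b => AF_gm h) x n
    rwa [e1] at this
  · have hb := gm_base h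
    have := W_map (fin_AF cub) (Prod.map_injective.2 ⟨gm_inj hb, gm_inj hb⟩)
      (fun a b => AF_gm hb) ((0, 0), (1, 0)) n
    have e2 : Prod.map (gm (gm x (0, 0), gm x (1, 0))) (gm (gm x (0, 0), gm x (1, 0)))
        (((0, 0), (1, 0)) : P2 × P2) = x := by
      rw [← e1]
      exact Prod.ext (gm_gm h x.1) (gm_gm h x.2)
    rwa [e2] at this

theorem aH_eq {v : P2} (h : (v.1 - v.2) % 3 ≠ 2) (n : ℕ) : (W Hx v n).ncard = aH n := by
  have hx : Hx (v, nbr v 0).1 (v, nbr v 0).2 := Hx_nbr h 0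
  refine le_antisymm ?_ ?_
  · have := W_map (fin_nb cub) (gm_inj hx) (fun a b => gm_adj hx) v n
    have e : gm (v, nbr v 0) v = (0, 0) := gm_fst (v, nbr v 0)
    rwa [e] at this
  · have hb := gm_base hx
    have := W_map (fin_nb cub) (gm_inj hb) (fun a b => gm_adj hb) (0, 0) n
    have e : gm (gm (v, nbr v 0) (0, 0), gm (v, nbr v 0) (1, 0)) (0, 0) = v := by
      have h1 := gm_gm hx v
      have h2 : gm (v, nbr v 0) v = (0, 0) := gm_fst (v, nbr v 0)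
      rw [h2] at h1
      exact h1
    rwa [e] at this

/-- **the two inequalities** -/
theorem aF_lower (n : ℕ) : SS aH (n + 1) ≤ 3 * aF n := by
  have h0 : (((0, 0) : P2).1 - ((0, 0) : P2).2) % 3 ≠ 2 := by norm_num
  refine (le_FL cub n Hx0 aH (fun m => aH_eq h0 m)).trans ?_
  refine (FL_upper cub n (0, 0)).trans ?_
  refine (Finset.sum_le_sum fun i _ => (aF_eq (x := ((0, 0), nbr (0, 0) i)) (Hx_nbr h0 i) n).le).trans ?_
  simp

theorem aF_upper (n : ℕ) : aF (n + 3) ≤ 9 * (SS aH (n + 4) + 4 * SS aH (n + 3) +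
    3 * SS aH (n + 2)) := by
  have h0 : (((0, 0) : P2).1 - ((0, 0) : P2).2) % 3 ≠ 2 := by norm_num
  refine (W_le_FL cub (n + 3) Hx0).trans ?_
  exact FL_le cub n (0, 0) aH (fun u hu m => aH_eq hu.2.2 m) (fun m => aH_eq h0 m)
    (fun i => Hx_nbr h0 i)

end Pool.Agent.D0H94.T12
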