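import Pool.Agent.D0H94.T12.E1
import Pool.Agent.D0H94.T12.Geo

/-!
# The honeycomb lattice: properties of the trace which are invariant under the symmetries
-/

set_option autoImplicit false
set_option linter.unusedVariables false

namespace Pool.Agent.D0H94.T12

open Finset

lemma W_mapQ {α : Type*} {R : α → α → Prop} (hf : ∀ v, {w | R v w}.Finite) {g : α → α}
    (hg : Function.Injective g) (h : ∀ a b, R a b → R (g a) (g b)) {Φ Φ' : List α → Prop}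
    (hΦ : ∀ l, Φ l → Φ' (l.map g)) (v : α) (k : ℕ) :
    {r | r ∈ W R v k ∧ Φ (v :: r)}.ncard ≤ {r | r ∈ W R (g v) k ∧ Φ' (g v :: r)}.ncard := by
  refine Set.ncard_le_ncard_of_injOn (List.map g) ?_ (List.map_injective_iff.2 hg).injOn
    ((W_finite hf k _).subset fun _ h => h.1)
  rintro r ⟨⟨h1, h2, h3⟩, h4⟩
  refine ⟨⟨by simpa using h1, ?_, ?_⟩, ?_⟩
  · have : (List.map g (v :: r)).IsChain R := List.isChain_map_of_isChain g h h2
    simpa using this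
  · have : (List.map g (v :: r)).Nodup := h3.map hg
    simpa using this
  · have := hΦ _ h4
    simpa using this

/-- invariance under the symmetries of the honeycomb lattice -/
def Inv (Ψ : Set P2 → Prop) : Prop :=
  ∀ x : P2 × P2, Hx x.1 x.2 → ∀ S, Ψ S → Ψ (gm x '' S)

lemma Sv_map (g : P2 → P2) (l : List P2) : Sv (l.map g) = g '' Sv l := by
  ext x
  simp [Sv]

lemma Sf_map (g : P2 → P2) (l : List (P2 × P2)) : Sf (l.map (Prod.map g g)) = g '' Sf l := by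
  ext x
  constructor
  · rintro ⟨e, he, rfl⟩
    rw [List.mem_map] at he
    obtain ⟨e', he', rfl⟩ := he
    exact ⟨e'.1, ⟨e', he', rfl⟩, rfl⟩
  · rintro ⟨_, ⟨e, he, rfl⟩, rfl⟩
    exact ⟨Prod.map g g e, List.mem_map_of_mem he, rfl⟩

/-- the number of walks on the Fisher graph with a property of the trace -/
noncomputable def aFQ (Ψ : Set P2 → Prop) (n : ℕ) : ℕ := fQ Hx Ψ ((0, 0), (1, 0)) n

/-- the number of walks on the honeycomb lattice with a property of the trace -/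
noncomputable def aHQ (Ψ : Set P2 → Prop) (n : ℕ) : ℕ := hQ Hx Ψ (0, 0) n

theorem aFQ_le {Ψ : Set P2 → Prop} (hI : Inv Ψ) {x : P2 × P2} (h : Hx x.1 x.2) (n : ℕ) :
    fQ Hx Ψ x n ≤ aFQ Ψ n := by
  have e1 : Prod.map (gm x) (gm x) x = ((0, 0), (1, 0)) :=
    Prod.ext (gm_fst x) (gm_snd h)
  have := W_mapQ (fin_AF cub) (Prod.map_injective.2 ⟨gm_inj h, gm_inj h⟩)
    (fun a b => AF_gm h) (Φ := fun l => Ψ (Sf l)) (Φ' := fun l => Ψ (Sf l)) (fun l hl => by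
      rw [Sf_map]
      exact hI x h _ hl) x n
  rwa [e1] at this

theorem aHQ_le {Ψ : Set P2 → Prop} (hI : Inv Ψ) {v : P2} (h : (v.1 - v.2) % 3 ≠ 2) (n : ℕ) :
    hQ Hx Ψ v n ≤ aHQ Ψ n := by
  have hx : Hx (v, nbr v 0).1 (v, nbr v 0).2 := Hx_nbr h 0
  have := W_mapQ (fin_nb cub) (gm_inj hx) (fun a b => gm_adj hx)
    (Φ := fun l => Ψ (Sv l)) (Φ' := fun l => Ψ (Sv l)) (fun l hl => by
      rw [Sv_map]
      exact hI _ hx _ hl) v n
  have e : gm (v, nbr v 0) v = (0, 0) := gm_fst (v, nbr v 0)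
  rwa [e] at this

/-- **the two inequalities** -/
theorem aFQ_lower {Ψ : Set P2 → Prop} (hI : Inv Ψ) (n : ℕ) : SS (aHQ Ψ) (n + 1) ≤ 3 * aFQ Ψ n := by
  have h0 : (((0, 0) : P2).1 - ((0, 0) : P2).2) % 3 ≠ 2 := by norm_num
  refine (le_sum_fQ cub Ψ n Hx0).trans ?_
  refine (Finset.sum_le_sum fun i _ => aFQ_le hI (x := ((0, 0), nbr (0, 0) i)) (Hx_nbr h0 i) n).trans ?_
  simp

theorem aFQ_upper {Ψ0 Ψ1 Ψ2 : Set P2 → Prop} (h01 : Rob Hx Ψ0 Ψ1) (h12 : Rob Hx Ψ1 Ψ2)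
    (hI : Inv Ψ2) (n : ℕ) : aFQ Ψ0 (n + 3) ≤
      9 * (SS (aHQ Ψ2) (n + 4) + 4 * SS (aHQ Ψ2) (n + 3) + 3 * SS (aHQ Ψ2) (n + 2)) := by
  have h0 : (((0, 0) : P2).1 - ((0, 0) : P2).2) % 3 ≠ 2 := by norm_num
  refine (fQ_le_FLQ cub Ψ0 (n + 3) Hx0).trans ?_
  exact FLQ_le cub n (0, 0) h01 h12 (aHQ Ψ2) (fun i m => aHQ_le hI (Hx_nbr h0 i).2.2 m)
    (fun m => le_rfl)

end Pool.Agent.D0H94.T12
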