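import Pool.Agent.D0H94.T12.Emb

/-!
# Walks as functions and as lists; the symmetries of the two lattices
-/

set_option autoImplicit false
set_option linter.unusedVariables false

namespace Pool.Agent.D0H94.T12

theorem saw_W {α : Type*} (R : α → α → Prop) (v : α) (n : ℕ) :
    (saw R v n).ncard = (W R v n).ncard := by
  refine Set.ncard_congr (fun f _ => List.ofFn fun i : Fin n => f i.succ) ?_ ?_ ?_
  · rintro f ⟨h0, h1, h2⟩
    have e : v :: (List.ofFn fun i : Fin n => f i.succ) = List.ofFn f := by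
      rw [List.ofFn_succ, h0]
    refine ⟨by simp, ?_, ?_⟩
    · rw [e, List.isChain_ofFn]
      intro i hi
      exact h2 ⟨i, by omega⟩
    · rw [e, List.nodup_ofFn]
      exact h1
  · rintro f g hf hg h
    have h1 := List.ofFn_injective h
    funext i
    induction i using Fin.cases with
    | zero => rw [hf.1, hg.1]
    | succ i => exact congrFun h1 i
  · rintro r ⟨h0, h1, h2⟩
    subst h0
    refine ⟨(v :: r).get, ⟨rfl, ?_, ?_⟩, ?_⟩
    · rw [← List.nodup_ofFn, List.ofFn_get]
      exact h2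
    · intro i
      have := List.isChain_iff_getElem.1 h1 i.1 (by simp)
      exact this
    · simp

/-- the symmetries of the Fisher graph -/
theorem symF : Sym (AF Hx) ((0, 0), (1, 0)) (fun x => Hx x.1 x.2)
    (fun x => Prod.map (gm x) (gm x)) where
  v0 := Hx0
  vR := fun h => h.2.1
  self := fun {x} h => Prod.ext (gm_fst x) (gm_snd h)
  inj := fun h => Prod.map_injective.2 ⟨gm_inj h, gm_inj h⟩
  adj := fun h h' => AF_gm h h'
  back := fun {x} h y => Prod.ext (gm_gm h y.1) (gm_gm h y.2)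
  symm := by
    rintro x y ⟨h1, h2, h3⟩
    refine ⟨h2, h1, ?_⟩
    rcases h3 with ⟨e1, e2⟩ | ⟨e1, e2⟩
    · exact Or.inl ⟨e1.symm, e2.symm⟩
    · exact Or.inr ⟨e2.symm, e1.symm⟩

/-- the symmetries of the honeycomb lattice: a canonical choice of an inverse family -/
def gH (p : P2) (z : P2) : P2 := gm (p, nbr p 0) z

lemma nbr_gm {x : P2} (h : (x.1 - x.2) % 3 ≠ 2) : nbr (gH x (0, 0)) 0 = gH x (1, 0) := by
  obtain ⟨a, b⟩ := x
  simp only at h
  unfold gH gm nbr
  by_cases h0 : (a - b) % 3 = 0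
  · simp only [h0, if_true, Prod.mk.injEq]
    split_ifs with k
    · constructor <;> ring
    · exfalso; apply k; ring_nf; ring_nf at h0; omega
  · simp only [h0, if_false, Prod.mk.injEq]
    split_ifs with k
    · exfalso; ring_nf at k; omega
    · constructor <;> ring

/-- the symmetries of the honeycomb lattice -/
theorem symH : Sym Hx (0, 0) (fun p => (p.1 - p.2) % 3 ≠ 2) gH where
  v0 := by norm_num
  vR := fun h => h.2.2
  self := fun {x} h => gm_fst (x, nbr x 0)
  inj := fun h => gm_inj (Hx_nbr h 0)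
  adj := fun h h' => gm_adj (x := (_, _)) (Hx_nbr h 0) h'
  back := by
    intro x h y
    have h1 := gm_gm (x := (x, nbr x 0)) (Hx_nbr h 0) y
    have h2 := nbr_gm h
    show gm (gH x (0, 0), nbr (gH x (0, 0)) 0) (gH x y) = y
    rw [h2]
    exact h1
  symm := cub.symm

lemma saw_fin {α : Type*} {R : α → α → Prop} {v : α} {n : ℕ} (h : (W R v n).Finite) :
    (saw R v n).Finite := by
  refine Set.Finite.of_finite_image (f := fun f => List.ofFn fun i : Fin n => f i.succ)
    (h.subset ?_) ?_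
  · rintro _ ⟨f, ⟨h0, h1, h2⟩, rfl⟩
    have e : v :: (List.ofFn fun i : Fin n => f i.succ) = List.ofFn f := by
      rw [List.ofFn_succ, h0]
    refine ⟨by simp, ?_, ?_⟩
    · rw [e, List.isChain_ofFn]
      intro i hi
      exact h2 ⟨i, by omega⟩
    · rw [e, List.nodup_ofFn]
      exact h1
  · rintro f hf g hg h
    have h1 := List.ofFn_injective h
    funext i
    induction i using Fin.cases with
    | zero => rw [hf.1, hg.1]
    | succ i => exact congrFun h1 i

lemma finF (n : ℕ) : (saw (AF Hx) ((0, 0), (1, 0)) n).Finite :=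
  saw_fin (W_finite (fin_AF cub) n _)

lemma finH (n : ℕ) : (saw Hx (0, 0) n).Finite := saw_fin (W_finite (fin_nb cub) n _)

/-- number of walks and of pairs on the (3.12²) lattice -/
theorem cardF (n : ℕ) : (wlk dodS (2 * √3 - 3) ((2 - √3 : ℝ) : ℂ) n).ncard = aF n := by
  rw [emb_card embF, saw_W]
  rfl

theorem cardH (n : ℕ) : (wlk hexS 1 0 n).ncard = aH n := by
  rw [emb_card embH, saw_W]
  rfl

theorem pairsF (n : ℕ) :
    {p : (Fin (n + 1) → ℂ) × (Fin (n + 1) → ℂ) | p.1 ∈ wlk dodS (2 * √3 - 3) ((2 - √3 : ℝ) : ℂ) n ∧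
      p.2 ∈ wlk dodS (2 * √3 - 3) ((2 - √3 : ℝ) : ℂ) n ∧
      ∀ i j, i ≠ 0 → p.1 i ≠ p.2 j}.ncard = aF (n + n) := by
  rw [emb_pairs embF, card_dprs symF, saw_W]
  rfl

theorem pairsH (n : ℕ) :
    {p : (Fin (n + 1) → ℂ) × (Fin (n + 1) → ℂ) | p.1 ∈ wlk hexS 1 0 n ∧ p.2 ∈ wlk hexS 1 0 n ∧
      ∀ i j, i ≠ 0 → p.1 i ≠ p.2 j}.ncard = aH (n + n) := by
  rw [emb_pairs embH, card_dprs symH, saw_W]
  rfl

theorem submulF (m n : ℕ) : aF (m + n) ≤ aF m * aF n := by
  have := saw_submul symF finF m n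
  rwa [saw_W, saw_W, saw_W] at this

theorem submulH (m n : ℕ) : aH (m + n) ≤ aH m * aH n := by
  have := saw_submul symH finH m n
  rwa [saw_W, saw_W, saw_W] at this

end Pool.Agent.D0H94.T12
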