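import Pool.Agent.D0H94.T12.Emb

/-!
# The isometry group of the (3.12²) lattice acts transitively on its vertices
-/

set_option autoImplicit false
set_option linter.unusedVariables false

namespace Pool.Agent.D0H94.T12

lemma ww_sq : ww * ww = ww - 1 := by
  unfold ww
  apply Complex.ext
  · simp only [Complex.mul_re, Complex.sub_re, Complex.one_re]
    linear_combination -(1 / 4 : ℝ) * s3
  · simp only [Complex.mul_im, Complex.sub_im, Complex.one_im]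
    ring

lemma ps_gm {x : P2 × P2} (h : Hx x.1 x.2) (y : P2) :
    ps (gm x y) * (ps x.2 - ps x.1) = ps y - ps x.1 := by
  obtain ⟨⟨a, b⟩, ⟨c, d⟩⟩ := x
  obtain ⟨e, f⟩ := y
  obtain ⟨h1, h2, h3⟩ := h
  simp only at h1
  have h1' : ((c : ℂ) - a) ^ 2 + ((c : ℂ) - a) * ((d : ℂ) - b) + ((d : ℂ) - b) ^ 2 = 1 := by
    exact_mod_cast congrArg (fun z : ℤ => (z : ℂ)) h1
  unfold ps gm
  simp only
  push_cast
  linear_combination ((e : ℂ) - a + (f - b) * ww) * h1' +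
    (((c : ℂ) - a) * (f - b) - (d - b) * (e - a)) * (d - b) * ww_sq

lemma gm_class {x : P2 × P2} (h : Hx x.1 x.2) {y : P2} (hy : (y.1 - y.2) % 3 ≠ 2) :
    ((gm x y).1 - (gm x y).2) % 3 ≠ 2 := (gm_adj h (Hx_nbr hy 0)).2.1

lemma gm_surj {x : P2 × P2} (h : Hx x.1 x.2) {e : P2} (he : (e.1 - e.2) % 3 ≠ 2) :
    ∃ y : P2, (y.1 - y.2) % 3 ≠ 2 ∧ gm x y = e := by
  have hb := gm_base h
  refine ⟨gm (gm x (0, 0), gm x (1, 0)) e, gm_class hb he, ?_⟩
  have h1 := gm_gm hb e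
  have e1 : gm (gm x (0, 0), gm x (1, 0)) (0, 0) = x.1 := by
    have h2 := gm_gm h x.1
    rw [gm_fst x] at h2
    exact h2
  have e2 : gm (gm x (0, 0), gm x (1, 0)) (1, 0) = x.2 := by
    have h2 := gm_gm h x.2
    rw [gm_snd h] at h2
    exact h2
  rw [e1, e2] at h1
  exact h1

/-- the motion that maps the arc `x` to the arc `x'` -/
noncomputable def mot (x x' : P2 × P2) (y : ℂ) : ℂ :=
  (ps x'.2 - ps x'.1) / (ps x.2 - ps x.1) * y +
    (ps x'.1 - (ps x'.2 - ps x'.1) / (ps x.2 - ps x.1) * ps x.1)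

lemma arc_norm {x : P2 × P2} (h : Hx x.1 x.2) : ‖ps x.2 - ps x.1‖ = 1 :=
  (embH.adj h.2.1 h.2.2).1 h

lemma arc_ne {x : P2 × P2} (h : Hx x.1 x.2) : ps x.2 - ps x.1 ≠ 0 := by
  intro h0
  have := arc_norm h
  rw [h0, norm_zero] at this
  norm_num at this

lemma mot_hex {x x' : P2 × P2} (h : Hx x.1 x.2) (h' : Hx x'.1 x'.2) {y : ℂ} (hy : y ∈ hexS) :
    mot x x' y ∈ hexS := by
  obtain ⟨z, hz, rfl⟩ := (embH.S y).1 hy
  obtain ⟨z', hz', e⟩ := gm_surj h' (gm_class h hz)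
  refine (embH.S _).2 ⟨z', hz', ?_⟩
  have h1 := ps_gm h z
  have h2 := ps_gm h' z'
  rw [e] at h2
  have hn := arc_ne h
  unfold mot
  have h3 : ps (gm x z) = (ps z - ps x.1) / (ps x.2 - ps x.1) := by
    rw [eq_div_iff hn]
    exact h1
  rw [h3] at h2
  field_simp at h2 ⊢
  linear_combination -h2

lemma mot_sub (x x' : P2 × P2) (y z : ℂ) : mot x x' y - mot x x' z =
    (ps x'.2 - ps x'.1) / (ps x.2 - ps x.1) * (y - z) := by
  unfold mot
  ring

lemma mot_dod {x x' : P2 × P2} (h : Hx x.1 x.2) (h' : Hx x'.1 x'.2) {y : ℂ} (hy : y ∈ dodS) :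
    mot x x' y ∈ dodS := by
  obtain ⟨p, hp, q, hq, h1, h2⟩ := hy
  refine ⟨mot x x' p, mot_hex h h' hp, mot x x' q, mot_hex h h' hq, ?_, ?_⟩
  · rw [mot_sub, norm_mul, norm_div, arc_norm h, arc_norm h', h1]
    norm_num
  · rw [mot_sub, h2]
    unfold mot
    ring

lemma mot_mot {x x' : P2 × P2} (h : Hx x.1 x.2) (h' : Hx x'.1 x'.2) (y : ℂ) :
    mot x' x (mot x x' y) = y := by
  have h1 := arc_ne h
  have h2 := arc_ne h'
  unfold mot
  field_simp
  ring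

/-- **transitivity** -/
theorem dod_trans {z z' : ℂ} (hz : z ∈ dodS) (hz' : z' ∈ dodS) : ∃ c b : ℂ, ‖c‖ = 1 ∧
    (∀ y : ℂ, c * y + b ∈ dodS ↔ y ∈ dodS) ∧ c * z + b = z' := by
  obtain ⟨x, hx, rfl⟩ := (embF.S z).1 hz
  obtain ⟨x', hx', rfl⟩ := (embF.S z').1 hz'
  refine ⟨(ps x'.2 - ps x'.1) / (ps x.2 - ps x.1),
    ps x'.1 - (ps x'.2 - ps x'.1) / (ps x.2 - ps x.1) * ps x.1, ?_, ?_, ?_⟩
  · rw [norm_div, arc_norm hx, arc_norm hx', div_one]
  · intro y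
    constructor
    · intro h
      have h1 := mot_dod hx' hx h
      rw [show (ps x'.2 - ps x'.1) / (ps x.2 - ps x.1) * y +
        (ps x'.1 - (ps x'.2 - ps x'.1) / (ps x.2 - ps x.1) * ps x.1) = mot x x' y from rfl,
        mot_mot hx hx'] at h1
      exact h1
    · exact fun h => mot_dod hx hx' h
  · have h1 := arc_ne hx
    unfold pt
    rw [← ps_sub, ← ps_sub]
    field_simp
    ring

end Pool.Agent.D0H94.T12
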