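import Pool.Agent.D0H94.T12.E2
import Pool.Agent.D0H94.T12.Lat1
import Pool.Agent.D0H94.T12.Trans

/-!
# Properties of the trace in the plane
-/

set_option autoImplicit false
set_option linter.unusedVariables false

namespace Pool.Agent.D0H94.T12

/-- each point of one of the two sets is at distance at most `r` from the other set -/
def Near (r : ℝ) (A B : Set ℂ) : Prop :=
  (∀ a ∈ A, ∃ b ∈ B, ‖a - b‖ ≤ r) ∧ ∀ b ∈ B, ∃ a ∈ A, ‖a - b‖ ≤ r

/-- the sets which are close to a member of `E` -/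
def thick (r : ℝ) (E : Set (Set ℂ)) : Set (Set ℂ) := {A | ∃ B ∈ E, Near r A B}

/-- invariance under the motions of the plane -/
def MotInv (E : Set (Set ℂ)) : Prop :=
  ∀ A ∈ E, ∀ c b : ℂ, ‖c‖ = 1 → (fun z => c * z + b) '' A ∈ E

lemma Near.refl {r : ℝ} (hr : 0 ≤ r) (A : Set ℂ) : Near r A A :=
  ⟨fun a ha => ⟨a, ha, by simpa using hr⟩, fun a ha => ⟨a, ha, by simpa using hr⟩⟩

lemma Near.symm {r : ℝ} {A B : Set ℂ} (h : Near r A B) : Near r B A := by
  refine ⟨fun b hb => ?_, fun a ha => ?_⟩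
  · obtain ⟨a, ha, h1⟩ := h.2 b hb
    exact ⟨a, ha, by rwa [norm_sub_rev]⟩
  · obtain ⟨b, hb, h1⟩ := h.1 a ha
    exact ⟨b, hb, by rwa [norm_sub_rev]⟩

lemma Near.trans {r s : ℝ} {A B C : Set ℂ} (h1 : Near r A B) (h2 : Near s B C) :
    Near (r + s) A C := by
  refine ⟨fun a ha => ?_, fun c hc => ?_⟩
  · obtain ⟨b, hb, k1⟩ := h1.1 a ha
    obtain ⟨c, hc, k2⟩ := h2.1 b hb
    refine ⟨c, hc, ?_⟩
    calc ‖a - c‖ = ‖(a - b) + (b - c)‖ := by ring_nf
      _ ≤ ‖a - b‖ + ‖b - c‖ := norm_add_le _ _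
      _ ≤ r + s := add_le_add k1 k2
  · obtain ⟨b, hb, k2⟩ := h2.2 c hc
    obtain ⟨a, ha, k1⟩ := h1.2 b hb
    refine ⟨a, ha, ?_⟩
    calc ‖a - c‖ = ‖(a - b) + (b - c)‖ := by ring_nf
      _ ≤ ‖a - b‖ + ‖b - c‖ := norm_add_le _ _
      _ ≤ r + s := add_le_add k1 k2

lemma Near.mono {r s : ℝ} {A B : Set ℂ} (h : Near r A B) (hrs : r ≤ s) : Near s A B :=
  ⟨fun a ha => let ⟨b, hb, k⟩ := h.1 a ha; ⟨b, hb, k.trans hrs⟩,
    fun a ha => let ⟨b, hb, k⟩ := h.2 a ha; ⟨b, hb, k.trans hrs⟩⟩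

lemma thick_of_near {r s : ℝ} {E : Set (Set ℂ)} {A B : Set ℂ} (h : Near r A B)
    (hB : B ∈ thick s E) : A ∈ thick (r + s) E := by
  obtain ⟨K, hK, hBK⟩ := hB
  exact ⟨K, hK, h.trans hBK⟩

lemma Near.motion {r : ℝ} {A B : Set ℂ} (h : Near r A B) (c b : ℂ) (hc : ‖c‖ = 1) :
    Near r ((fun z => c * z + b) '' A) ((fun z => c * z + b) '' B) := by
  have key : ∀ z w : ℂ, ‖(c * z + b) - (c * w + b)‖ = ‖z - w‖ := by
    intro z w
    rw [show (c * z + b) - (c * w + b) = c * (z - w) by ring, norm_mul, hc, one_mul]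
  refine ⟨?_, ?_⟩
  · rintro _ ⟨a, ha, rfl⟩
    obtain ⟨b', hb', k⟩ := h.1 a ha
    exact ⟨_, ⟨b', hb', rfl⟩, by simp only; rw [key]; exact k⟩
  · rintro _ ⟨a, ha, rfl⟩
    obtain ⟨b', hb', k⟩ := h.2 a ha
    exact ⟨_, ⟨b', hb', rfl⟩, by simp only; rw [key]; exact k⟩

lemma MotInv.thick {r : ℝ} {E : Set (Set ℂ)} (h : MotInv E) : MotInv (thick r E) := by
  rintro A ⟨B, hB, hAB⟩ c b hc
  exact ⟨_, h B hB c b hc, hAB.motion c b hc⟩

/-- the property of the set of lattice points that its position is in `E` -/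
def Ps (E : Set (Set ℂ)) (S : Set P2) : Prop := ps '' S ∈ E

lemma inv_Ps {E : Set (Set ℂ)} (h : MotInv E) : Inv (Ps E) := by
  intro x hx S hS
  unfold Ps at hS ⊢
  have hn := arc_ne hx
  have e : ps '' (gm x '' S) = (fun z => (ps x.2 - ps x.1)⁻¹ * z +
      (-(ps x.2 - ps x.1)⁻¹ * ps x.1)) '' (ps '' S) := by
    rw [Set.image_image, Set.image_image]
    apply Set.image_congr
    intro y _
    have := ps_gm hx y
    have h2 : ps (gm x y) = (ps y - ps x.1) / (ps x.2 - ps x.1) := by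
      rw [eq_div_iff hn]
      exact this
    rw [h2]
    field_simp
    ring
  rw [e]
  apply h _ hS
  rw [norm_inv, arc_norm hx, inv_one]

lemma rob_Ps (E : Set (Set ℂ)) (r : ℝ) : Rob Hx (Ps (thick r E)) (Ps (thick (1 + r) E)) := by
  refine ⟨?_, ?_⟩
  · intro S hS
    exact thick_of_near (Near.refl zero_le_one _) hS
  · intro S x u hx hxu hS
    refine thick_of_near (B := ps '' insert u S) ⟨?_, ?_⟩ hS
    · rintro _ ⟨y, hy, rfl⟩
      exact ⟨ps y, ⟨y, Set.mem_insert_of_mem _ hy, rfl⟩, by simp⟩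
    · rintro _ ⟨y, hy, rfl⟩
      rcases hy with rfl | hy
      · refine ⟨ps x, ⟨x, hx, rfl⟩, ?_⟩
        have := (embH.adj hxu.2.1 hxu.2.2).1 hxu
        rw [norm_sub_rev, this]
      · exact ⟨ps y, ⟨y, hy, rfl⟩, by simp⟩

/-! ### from functions to lists -/

theorem saw_WQ {α : Type*} (R : α → α → Prop) (v : α) (n : ℕ) (Φ : Set α → Prop) :
    {f | f ∈ saw R v n ∧ Φ (Set.range f)}.ncard = {r | r ∈ W R v n ∧ Φ {x | x ∈ v :: r}}.ncard := by
  refine Set.ncard_congr (fun f _ => List.ofFn fun i : Fin n => f i.succ) ?_ ?_ ?_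
  · rintro f ⟨⟨h0, h1, h2⟩, h3⟩
    have e : v :: (List.ofFn fun i : Fin n => f i.succ) = List.ofFn f := by
      rw [List.ofFn_succ, h0]
    refine ⟨⟨by simp, ?_, ?_⟩, ?_⟩
    · rw [e, List.isChain_ofFn]
      intro i hi
      exact h2 ⟨i, by omega⟩
    · rw [e, List.nodup_ofFn]
      exact h1
    · have e2 : {x | x ∈ v :: (List.ofFn fun i : Fin n => f i.succ)} = Set.range f := by
        rw [e]
        ext x
        simp only [Set.mem_ofPred_eq, List.mem_ofFn, Set.mem_range]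
      rw [e2]
      exact h3
  · rintro f g ⟨hf, -⟩ ⟨hg, -⟩ h
    have h1 := List.ofFn_injective h
    funext i
    induction i using Fin.cases with
    | zero => rw [hf.1, hg.1]
    | succ i => exact congrFun h1 i
  · rintro r ⟨⟨h0, h1, h2⟩, h3⟩
    subst h0
    refine ⟨(v :: r).get, ⟨⟨rfl, ?_, ?_⟩, ?_⟩, ?_⟩
    · rw [← List.nodup_ofFn, List.ofFn_get]
      exact h2
    · intro i
      have := List.isChain_iff_getElem.1 h1 i.1 (by simp)
      exact this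
    · have e2 : Set.range (v :: r).get = {x | x ∈ v :: r} := by
        ext x
        simp only [Set.mem_range, Set.mem_ofPred_eq]
        exact List.mem_iff_get.symm
      rw [e2]
      exact h3
    · simp

theorem emb_cardQ {α : Type*} {R : α → α → Prop} {v : α → Prop} {o' : α} {φ : α → ℂ} {S : Set ℂ}
    {d : ℝ} {o : ℂ} (M : Emb R v o' φ S d o) (n : ℕ) (E : Set (Set ℂ)) :
    {ω | ω ∈ wlk S d o n ∧ Set.range ω ∈ E}.ncard =
      {f | f ∈ saw R o' n ∧ φ '' Set.range f ∈ E}.ncard := by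
  have e : {ω | ω ∈ wlk S d o n ∧ Set.range ω ∈ E} =
      (fun (f : Fin (n + 1) → α) i => φ (f i)) '' {f | f ∈ saw R o' n ∧ φ '' Set.range f ∈ E} := by
    ext ω
    constructor
    · rintro ⟨h1, h2⟩
      rw [emb_image M] at h1
      obtain ⟨f, hf, rfl⟩ := h1
      refine ⟨f, ⟨hf, ?_⟩, rfl⟩
      rw [← Set.range_comp]
      exact h2
    · rintro ⟨f, ⟨hf, h2⟩, rfl⟩
      refine ⟨?_, ?_⟩
      · rw [emb_image M]
        exact ⟨f, hf, rfl⟩
      · rw [← Set.range_comp] at h2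
        exact h2
  rw [e, Set.InjOn.ncard_image ((emb_inj M n).mono fun f hf => hf.1)]

/-- the number of walks on (3.12²) with trace in `E` -/
noncomputable def cF (E : Set (Set ℂ)) (n : ℕ) : ℕ :=
  {ω | ω ∈ wlk dodS (2 * √3 - 3) ((2 - √3 : ℝ) : ℂ) n ∧ Set.range ω ∈ E}.ncard

/-- the number of walks on the honeycomb lattice with trace in `E` -/
noncomputable def cH (E : Set (Set ℂ)) (n : ℕ) : ℕ :=
  {ω | ω ∈ wlk hexS 1 0 n ∧ Set.range ω ∈ E}.ncard

theorem cH_eq (E : Set (Set ℂ)) (n : ℕ) : cH E n = aHQ (Ps E) n := by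
  unfold cH aHQ hQ
  rw [emb_cardQ embH, saw_WQ Hx (0, 0) n (fun S => ps '' S ∈ E)]
  rfl

lemma cF_eq (E : Set (Set ℂ)) (n : ℕ) : cF E n =
    {r | r ∈ W (AF Hx) ((0, 0), (1, 0)) n ∧ pt '' {x | x ∈ ((0, 0), (1, 0)) :: r} ∈ E}.ncard := by
  unfold cF
  rw [emb_cardQ embF, saw_WQ (AF Hx) ((0, 0), (1, 0)) n (fun S => pt '' S ∈ E)]

lemma tt_pos : 0 < tt := by
  unfold tt
  have : √3 < 2 := by
    rw [Real.sqrt_lt' (by norm_num)]
    norm_num
  linarith

lemma tt_lt : tt ≤ 1 := by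
  unfold tt
  have : (1 : ℝ) ≤ √3 := by
    rw [Real.le_sqrt' (by norm_num)]
    norm_num
  linarith

lemma near_pt {r : List (P2 × P2)} {n : ℕ} (hr : r ∈ W (AF Hx) ((0, 0), (1, 0)) n) :
    Near 1 (pt '' {x | x ∈ ((0, 0), (1, 0)) :: r}) (ps '' Sf (((0, 0), (1, 0)) :: r)) := by
  have hA : ∀ e ∈ ((0, 0), (1, 0)) :: r, Hx e.1 e.2 := by
    cases r with
    | nil =>
      intro e he
      simp only [List.mem_cons, List.not_mem_nil, or_false] at he
      rw [he]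
      exact Hx0
    | cons a r => exact AF_of_mem hr.2.1 (by simp)
  have key : ∀ e ∈ ((0, 0), (1, 0)) :: r, ‖pt e - ps e.1‖ ≤ 1 := by
    intro e he
    have h1 := arc_norm (hA e he)
    unfold pt
    rw [add_sub_cancel_left, norm_mul, ← ps_sub, h1, mul_one, Complex.norm_real,
      Real.norm_of_nonneg tt_pos.le]
    exact tt_lt
  refine ⟨?_, ?_⟩
  · rintro _ ⟨e, he, rfl⟩
    exact ⟨ps e.1, ⟨e.1, ⟨e, he, rfl⟩, rfl⟩, key e he⟩
  · rintro _ ⟨_, ⟨e, he, rfl⟩, rfl⟩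
    exact ⟨pt e, ⟨e, he, rfl⟩, key e he⟩

theorem cF_le (E : Set (Set ℂ)) (n : ℕ) : cF E n ≤ aFQ (Ps (thick 1 E)) n := by
  rw [cF_eq]
  refine Set.ncard_le_ncard ?_ (FQ_finite cub _ _ n)
  rintro r ⟨h1, h2⟩
  exact ⟨h1, _, h2, (near_pt h1).symm⟩

theorem le_cF (E : Set (Set ℂ)) (n : ℕ) : aFQ (Ps E) n ≤ cF (thick 1 E) n := by
  rw [cF_eq]
  refine Set.ncard_le_ncard ?_ ((W_finite (fin_AF cub) n _).subset fun _ h => h.1)
  rintro r ⟨h1, h2⟩
  exact ⟨h1, _, h2, near_pt h1⟩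

/-- **the two inequalities for properties of the trace** -/
theorem cF_upper {E : Set (Set ℂ)} (hE : MotInv E) (n : ℕ) : cF E (n + 3) ≤
    9 * (SS (cH (thick 3 E)) (n + 4) + 4 * SS (cH (thick 3 E)) (n + 3) +
      3 * SS (cH (thick 3 E)) (n + 2)) := by
  have e : cH (thick 3 E) = aHQ (Ps (thick 3 E)) := funext fun m => cH_eq _ m
  rw [e]
  have h1 : Rob Hx (Ps (thick 1 E)) (Ps (thick 2 E)) := by
    have := rob_Ps E 1
    norm_num at this
    exact this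
  have h2 : Rob Hx (Ps (thick 2 E)) (Ps (thick 3 E)) := by
    have := rob_Ps E 2
    norm_num at this
    exact this
  exact (cF_le E _).trans (aFQ_upper h1 h2 (inv_Ps hE.thick) n)

theorem cF_lower {E : Set (Set ℂ)} (hE : MotInv E) (n : ℕ) :
    SS (cH E) (n + 1) ≤ 3 * cF (thick 1 E) n := by
  have e : cH E = aHQ (Ps E) := funext fun m => cH_eq _ m
  rw [e]
  exact (aFQ_lower (inv_Ps hE) n).trans (Nat.mul_le_mul_left _ (le_cF E n))

end Pool.Agent.D0H94.T12
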