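import Pool.Agent.D0H94.T12.Fin

/-!
# Assembly, continued
-/

set_option autoImplicit false
set_option linter.unusedVariables false

namespace Pool.Agent.D0H94.T12

open Filter Topology Finset

/-- connective constant of the (3.12²) lattice -/
noncomputable def mF : ℝ := 1 / xx

lemma mF_pos : 0 < mF := one_div_pos.2 xx_pos

lemma sF_eq (n : ℕ) : sF n = (aF n : ℝ) / mF ^ n := by
  unfold sF mF
  rw [one_div, inv_pow, div_inv_eq_mul]

theorem cubic : 1 / mF ^ 2 + 1 / mF ^ 3 = 1 / mH := by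
  have h := xx_eq
  have hm := mH_pos
  have hx := xx_pos
  unfold mF
  rw [one_div xx]
  simp only [inv_pow, one_div, inv_inv]
  exact eq_inv_of_mul_eq_one_left (by linarith)

/-- non-intersection probability -/
noncomputable def PP (a : ℕ → ℕ) (n : ℕ) : ℝ := (a (n + n) : ℝ) / (a n : ℝ) ^ 2

lemma db_of {a : ℕ → ℕ} {m : ℝ} (hm : 0 < m) (h1 : ∀ n, 1 ≤ (a n : ℝ) / m ^ n)
    (hs : ∀ i j, a (i + j) ≤ a i * a j)
    (hl : Tendsto (fun n : ℕ => Real.log ((a n : ℝ) / m ^ n) / n) atTop (𝓝 0)) :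
    Db (PP a) (fun n => Real.log ((a n : ℝ) / m ^ n)) := by
  have hpos : ∀ n, (0 : ℝ) < a n := by
    intro n
    have h2 := h1 n
    rw [le_div_iff₀ (pow_pos hm n), one_mul] at h2
    exact lt_of_lt_of_le (pow_pos hm n) h2
  refine ⟨fun n => div_pos (hpos _) (pow_pos (hpos _) 2), ?_, ?_, hl⟩
  · intro n
    unfold PP
    rw [div_le_one (pow_pos (hpos _) 2), sq]
    exact_mod_cast hs n n
  · intro n
    have e1 : Real.log ((a n : ℝ) / m ^ n) = Real.log (a n) - n * Real.log m := by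
      rw [Real.log_div (hpos _).ne' (pow_pos hm _).ne', Real.log_pow]
    have e2 : Real.log ((a (2 * n) : ℝ) / m ^ (2 * n)) = Real.log (a (n + n)) -
        2 * n * Real.log m := by
      rw [Real.log_div (hpos _).ne' (pow_pos hm _).ne', Real.log_pow]
      rw [show 2 * n = n + n by ring]
      push_cast
      ring
    rw [e1, e2]
    unfold PP
    rw [one_div, Real.log_inv, Real.log_div (hpos _).ne' (pow_pos (hpos _) 2).ne', Real.log_pow]
    push_cast
    ring

theorem dbF : Db (PP aF) (fun n => Real.log ((aF n : ℝ) / mF ^ n)) :=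
  db_of mF_pos (fun n => by rw [← sF_eq]; exact one_le_sF n) submulF (by
    simp only [← sF_eq]
    exact sF_lim)

theorem dbH : Db (PP aH) (fun n => Real.log ((aH n : ℝ) / mH ^ n)) :=
  db_of mH_pos (fun n => hexWk.one_le n) submulH hexWk.sub

theorem expoF (α : ℝ) : Tendsto (fun n : ℕ => Real.log (PP aF n) / Real.log n) atTop (𝓝 (-α)) ↔
    Tendsto (fun n : ℕ => Real.log ((aF n : ℝ) / mF ^ n) / Real.log n) atTop (𝓝 α) :=
  dbF.expo α

theorem expoH (α : ℝ) : Tendsto (fun n : ℕ => Real.log (PP aH n) / Real.log n) atTop (𝓝 (-α)) ↔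
    Tendsto (fun n : ℕ => Real.log ((aH n : ℝ) / mH ^ n) / Real.log n) atTop (𝓝 α) :=
  dbH.expo α

theorem expoFH (α : ℝ) :
    Tendsto (fun n : ℕ => Real.log ((aF n : ℝ) / mF ^ n) / Real.log n) atTop (𝓝 α) ↔
      Tendsto (fun n : ℕ => Real.log ((aH n : ℝ) / mH ^ n) / Real.log n) atTop (𝓝 α) := by
  obtain ⟨K, β, S⟩ := hexSq
  have h := expo_iff (s := sF) hexWk S cmpF α
  simp only [sF_eq] at h
  exact h

theorem upFH (β : ℝ) : Up (fun n => (aF n : ℝ) / mF ^ n) β ↔ Up (fun n => (aH n : ℝ) / mH ^ n) β := by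
  obtain ⟨K, β0, S⟩ := hexSq
  have e : (fun n => (aF n : ℝ) / mF ^ n) = sF := funext fun n => (sF_eq n).symm
  rw [e]
  exact ⟨fun h => up_back (r := rH) cmpF S h, fun h => up_of (r := rH) cmpF h⟩

/-- the polynomial lower bound -/
theorem lowF : ∃ C : ℝ, 0 ≤ C ∧ ∀ n : ℕ, 1 ≤ n →
    1 / 75 * Real.log n - C ≤ Real.log ((aF n : ℝ) / mF ^ n) := by
  have hc0 := cmpF.hc0
  set c0 := 1 / (3 * (mH * xx)) with hc
  have hp := cmpF.hp
  have hq := cmpF.hq
  set p := mH * xx ^ 2 with hp'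
  set q := mH * xx ^ 3 with hq'
  refine ⟨|Real.log (c0 * (p ^ 2 * q))| + 2, by positivity, fun n hn => ?_⟩
  rw [← sF_eq]
  have hn0 : (0 : ℝ) < n := by exact_mod_cast hn
  have hb0 : 0 < Real.exp (1 / 75 * Real.log n - 2) := Real.exp_pos _
  have h1 : Real.exp (1 / 75 * Real.log n - 2) * (p ^ 2 * q) ≤ GG p q rH (n + 1) := by
    refine GG_ge hp hq cmpF.hpq (by omega) hb0.le ?_
    intro m h1 h2
    have hr : 0 < rH m := hexWk.pos m
    rw [← Real.le_log_iff_exp_le hr]
    rcases Nat.eq_zero_or_pos m with h0 | h0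
    · subst h0
      have h3 : n ≤ 2 := by omega
      have h4 : Real.log n ≤ Real.log 2 := Real.log_le_log hn0 (by exact_mod_cast h3)
      have h5 := Real.log_two_lt_d9
      have h6 : 0 ≤ Real.log (rH 0) := Real.log_nonneg (hexWk.one_le 0)
      linarith
    · have h3 := hexLow m h0
      have h4 : Real.log n ≤ Real.log (8 * m) := by
        apply Real.log_le_log hn0
        have : n ≤ 8 * m := by omega
        exact_mod_cast this
      rw [Real.log_mul (by norm_num) (by positivity)] at h4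
      have h5 : Real.log 8 = 3 * Real.log 2 := by
        rw [show (8 : ℝ) = 2 ^ 3 by norm_num, Real.log_pow]
        norm_num
      have h6 := Real.log_two_lt_d9
      have e : Real.log (rH m) = Real.log ((aH m : ℝ) / mH ^ m) := rfl
      rw [e]
      linarith
  have h2 := cmpF.lo n
  have h3 : c0 * (p ^ 2 * q) * Real.exp (1 / 75 * Real.log n - 2) ≤ sF n := by
    refine le_trans ?_ h2
    calc _ = c0 * (Real.exp (1 / 75 * Real.log n - 2) * (p ^ 2 * q)) := by ring
      _ ≤ _ := mul_le_mul_of_nonneg_left h1 hc0.le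
  have hpos : 0 < c0 * (p ^ 2 * q) := by positivity
  have h4 := Real.log_le_log (mul_pos hpos hb0) h3
  rw [Real.log_mul hpos.ne' hb0.ne', Real.log_exp] at h4
  have h5 := neg_abs_le (Real.log (c0 * (p ^ 2 * q)))
  linarith

/-- the two-sided bounds -/
theorem quasiF : ∃ K : ℝ, 0 ≤ K ∧ ∀ n : ℕ, 2 ≤ n → mF ^ n ≤ (aF n : ℝ) ∧
    (aF n : ℝ) ≤ mF ^ n * Real.exp (K * Real.log n ^ 2) ∧
    Real.exp (-(K * Real.log n ^ 2)) ≤ PP aF n ∧ PP aF n ≤ 1 := by
  obtain ⟨K, hK, h⟩ := sF_up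
  have hm := mF_pos
  refine ⟨2 * K, by positivity, fun n hn => ?_⟩
  have h1 := one_le_sF n
  have h2 := h n hn
  have h3 := one_le_sF (n + n)
  rw [sF_eq, le_div_iff₀ (pow_pos hm _), one_mul] at h1 h3
  rw [sF_eq, div_le_iff₀ (pow_pos hm _)] at h2
  have hp : (0 : ℝ) < aF n := lt_of_lt_of_le (pow_pos hm n) h1
  refine ⟨h1, ?_, ?_, dbF.le1 n⟩
  · refine h2.trans ?_
    rw [mul_comm]
    apply mul_le_mul_of_nonneg_left _ (pow_pos hm n).le
    apply Real.exp_le_exp.2
    nlinarith [mul_nonneg hK (sq_nonneg (Real.log (n : ℝ)))]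
  · unfold PP
    rw [le_div_iff₀ (pow_pos hp 2), Real.exp_neg, inv_mul_le_iff₀ (Real.exp_pos _)]
    calc (aF n : ℝ) ^ 2 ≤ (Real.exp (K * Real.log n ^ 2) * mF ^ n) ^ 2 :=
          pow_le_pow_left₀ hp.le h2 2
      _ = Real.exp (2 * K * Real.log n ^ 2) * mF ^ (n + n) := by
        rw [mul_pow, ← Real.exp_nat_mul, ← pow_mul, show n * 2 = n + n by ring]
        congr 2
        push_cast
        ring
      _ ≤ _ := mul_le_mul_of_nonneg_left h3 (Real.exp_pos _).le

end Pool.Agent.D0H94.T12
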