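import Pool.Agent.D0H94.T12.E3
import Pool.Agent.D0H94.T12.Fin2

/-!
# Comparison of the probabilities on the two lattices
-/

set_option autoImplicit false
set_option linter.unusedVariables false

namespace Pool.Agent.D0H94.T12

open Filter Topology Finset

section shift

variable {p q : ℝ}

lemma pw_shift (hp : 0 < p) (hq : 0 < q) (h : p + q = 1) : ∀ (m : ℕ) (z : ℤ),
    pw p q (m + 1) z ≤ 1 / (p ^ 2 * q) * (pw p q (m + 1) (z + 1) + pw p q (m + 2) (z + 1))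
  | 0, z => by
    have hp1 : p < 1 := by linarith
    have hq1 : q < 1 := by linarith
    have hC : 0 < 1 / (p ^ 2 * q) := by positivity
    have n1 := pw_nonneg hp.le hq.le 1 (z + 1)
    have n2 := pw_nonneg hp.le hq.le 2 (z + 1)
    have e1 : pw p q (0 + 1) z = p * (if z - 2 = 0 then 1 else 0) +
        q * (if z - 3 = 0 then 1 else 0) := rfl
    by_cases hz2 : z = 2
    · subst hz2
      have k1 : pw p q (0 + 1) ((2 : ℤ) + 1) = q := by
        show p * (if (2 : ℤ) + 1 - 2 = 0 then (1 : ℝ) else 0) +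
          q * (if (2 : ℤ) + 1 - 3 = 0 then (1 : ℝ) else 0) = q
        norm_num
      rw [e1, k1]
      have k2 : q ≤ q + pw p q (0 + 2) ((2 : ℤ) + 1) := by
        have : 0 ≤ pw p q (0 + 2) ((2 : ℤ) + 1) := n2
        linarith
      have k3 : 1 / (p ^ 2 * q) * q ≤ 1 / (p ^ 2 * q) * (q + pw p q (0 + 2) ((2 : ℤ) + 1)) :=
        mul_le_mul_of_nonneg_left k2 hC.le
      refine le_trans ?_ k3
      norm_num
      have k4 : (q⁻¹ * (p ^ 2)⁻¹) * q = 1 / p ^ 2 := by field_simp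
      rw [k4, le_div_iff₀ (by positivity)]
      nlinarith [mul_pos hp hp]
    · by_cases hz3 : z = 3
      · subst hz3
        have k1 : pw p q (0 + 2) ((3 : ℤ) + 1) = p * p := by
          show p * (p * (if (3 : ℤ) + 1 - 2 - 2 = 0 then (1 : ℝ) else 0) +
            q * (if (3 : ℤ) + 1 - 2 - 3 = 0 then (1 : ℝ) else 0)) +
            q * (p * (if (3 : ℤ) + 1 - 3 - 2 = 0 then (1 : ℝ) else 0) +
            q * (if (3 : ℤ) + 1 - 3 - 3 = 0 then (1 : ℝ) else 0)) = p * p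
          norm_num
        rw [e1, k1]
        have k2 : p * p ≤ pw p q (0 + 1) ((3 : ℤ) + 1) + p * p := by
          have : 0 ≤ pw p q (0 + 1) ((3 : ℤ) + 1) := n1
          linarith
        have k3 := mul_le_mul_of_nonneg_left k2 hC.le
        refine le_trans ?_ k3
        norm_num
        have k4 : (q⁻¹ * (p ^ 2)⁻¹) * (p * p) = 1 / q := by field_simp
        rw [k4, le_div_iff₀ hq]
        nlinarith
      · rw [e1, if_neg (by omega), if_neg (by omega)]
        simp only [mul_zero, add_zero]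
        exact mul_nonneg hC.le (add_nonneg n1 n2)
  | m + 1, z => by
    have i1 := pw_shift hp hq h m (z - 2)
    have i2 := pw_shift hp hq h m (z - 3)
    have e0 : pw p q (m + 1 + 1) z = p * pw p q (m + 1) (z - 2) + q * pw p q (m + 1) (z - 3) := rfl
    have e1 : pw p q (m + 1 + 1) (z + 1) = p * pw p q (m + 1) (z - 2 + 1) +
        q * pw p q (m + 1) (z - 3 + 1) := by
      show p * pw p q (m + 1) (z + 1 - 2) + q * pw p q (m + 1) (z + 1 - 3) = _
      rw [show z + 1 - 2 = z - 2 + 1 by ring, show z + 1 - 3 = z - 3 + 1 by ring]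
    have e2 : pw p q (m + 1 + 2) (z + 1) = p * pw p q (m + 2) (z - 2 + 1) +
        q * pw p q (m + 2) (z - 3 + 1) := by
      show p * pw p q (m + 2) (z + 1 - 2) + q * pw p q (m + 2) (z + 1 - 3) = _
      rw [show z + 1 - 2 = z - 2 + 1 by ring, show z + 1 - 3 = z - 3 + 1 by ring]
    rw [e0, e1, e2]
    have j1 := mul_le_mul_of_nonneg_left i1 hp.le
    have j2 := mul_le_mul_of_nonneg_left i2 hq.le
    linarith

/-- the means at consecutive lengths -/
lemma GG_shift (hp : 0 < p) (hq : 0 < q) (h : p + q = 1) {r : ℕ → ℝ} {B : ℝ} (hr : ∀ m, 0 ≤ r m)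
    (hB : ∀ m, r m ≤ B * r (m + 1)) (hB0 : 0 ≤ B) (N : ℕ) :
    GG p q r N ≤ 1 / (p ^ 2 * q) * (1 + B) * GG p q r (N + 1) := by
  have hC : 0 < 1 / (p ^ 2 * q) := by positivity
  have h1 : GG p q r N ≤ 1 / (p ^ 2 * q) * (∑ m ∈ range N, r m * pw p q (m + 1) ((N : ℤ) + 1) +
      B * ∑ m ∈ range N, r (m + 1) * pw p q (m + 2) ((N : ℤ) + 1)) := by
    unfold GG
    rw [mul_sum, ← sum_add_distrib, mul_sum]
    refine sum_le_sum fun m _ => ?_
    have i1 := mul_le_mul_of_nonneg_left (pw_shift hp hq h m (N : ℤ)) (hr m)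
    have i2 := mul_le_mul_of_nonneg_right (hB m) (pw_nonneg hp.le hq.le (m + 2) ((N : ℤ) + 1))
    have i3 := mul_le_mul_of_nonneg_left i2 hC.le
    calc r m * pw p q (m + 1) (N : ℤ) ≤ _ := i1
      _ = 1 / (p ^ 2 * q) * (r m * pw p q (m + 1) ((N : ℤ) + 1)) +
          1 / (p ^ 2 * q) * (r m * pw p q (m + 2) ((N : ℤ) + 1)) := by ring
      _ ≤ 1 / (p ^ 2 * q) * (r m * pw p q (m + 1) ((N : ℤ) + 1)) +
          1 / (p ^ 2 * q) * (B * r (m + 1) * pw p q (m + 2) ((N : ℤ) + 1)) := by linarith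
      _ = _ := by ring
  have h2 : ∑ m ∈ range N, r m * pw p q (m + 1) ((N : ℤ) + 1) ≤ GG p q r (N + 1) := by
    unfold GG
    push_cast
    rw [sum_range_succ]
    exact le_add_of_nonneg_right (mul_nonneg (hr _) (pw_nonneg hp.le hq.le _ _))
  have h3 : ∑ m ∈ range N, r (m + 1) * pw p q (m + 2) ((N : ℤ) + 1) ≤ GG p q r (N + 1) := by
    unfold GG
    push_cast
    rw [sum_range_succ' _ N]
    exact le_add_of_nonneg_right (mul_nonneg (hr _) (pw_nonneg hp.le hq.le _ _))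
  refine h1.trans ?_
  rw [mul_assoc]
  apply mul_le_mul_of_nonneg_left _ hC.le
  have h4 := mul_le_mul_of_nonneg_left h3 hB0
  linarith

end shift

lemma rH_growth : ∃ B : ℝ, 0 ≤ B ∧ ∀ m, rH m ≤ B * rH (m + 1) := by
  obtain ⟨B0, hB⟩ := hexWk.par
  refine ⟨Real.exp |B0| + rH 0, add_nonneg (Real.exp_pos _).le (hexWk.pos 0).le, fun m => ?_⟩
  have h1 : 1 ≤ rH (m + 1) := hexWk.one_le _
  have h0 : 0 < rH 0 := hexWk.pos 0
  have he := Real.exp_pos |B0|
  rcases Nat.eq_zero_or_pos m with h | h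
  · subst h
    nlinarith
  · have h2 := hB m h
    rw [abs_le] at h2
    have hm : 0 < rH m := hexWk.pos m
    have h3 : Real.log (rH m) ≤ |B0| + Real.log (rH (m + 1)) := by
      have := le_abs_self B0
      have e1 : Real.log (rH m) = Real.log ((aH m : ℝ) / mH ^ m) := rfl
      have e2 : Real.log (rH (m + 1)) = Real.log ((aH (m + 1) : ℝ) / mH ^ (m + 1)) := rfl
      rw [e1, e2]
      linarith
    have h4 : rH m ≤ Real.exp |B0| * rH (m + 1) := by
      rw [Real.log_le_iff_le_exp hm, Real.exp_add, Real.exp_log (by linarith)] at h3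
      exact h3
    nlinarith

lemma K_zero {m N : ℕ} (h : K (m + 1) N ≠ 0) : 2 * (m + 1) ≤ N ∧ N ≤ 3 * (m + 1) := by
  have e := pw_K (p := 1) (q := 1) (μ := 1) (x := 1) (by norm_num) (by norm_num) (m + 1) N
  have h1 : pw 1 1 (m + 1) (N : ℤ) ≠ 0 := by
    rw [e]
    simpa using h
  exact pw_supp h1

lemma SS_le {g : ℕ → ℕ} {ε : ℝ} {N : ℕ} (hg : ∀ m, 2 * (m + 1) ≤ N → N ≤ 3 * (m + 1) →
    (g m : ℝ) ≤ ε * aH m) : (SS g N : ℝ) ≤ ε * SS aH N := by
  unfold SS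
  push_cast
  rw [mul_sum]
  refine sum_le_sum fun m _ => ?_
  by_cases hz : K (m + 1) N = 0
  · rw [hz]; simp
  · obtain ⟨h1, h2⟩ := K_zero hz
    have := mul_le_mul_of_nonneg_right (hg m h1 h2) (Nat.cast_nonneg (α := ℝ) (K (m + 1) N))
    linarith

/-- **from the honeycomb lattice to (3.12²)** -/
theorem up_trans : ∃ C : ℝ, 0 < C ∧ ∀ (E : Set (Set ℂ)), MotInv E → ∀ (n : ℕ) (ε : ℝ), 0 ≤ ε →
    (∀ m, 2 * (m + 1) ≤ n + 4 → n + 2 ≤ 3 * (m + 1) → (cH (thick 3 E) m : ℝ) ≤ ε * aH m) →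
    (cF E (n + 3) : ℝ) ≤ C * ε * aF (n + 3) := by
  obtain ⟨B, hB0, hB⟩ := rH_growth
  have hp := cmpF.hp
  have hq := cmpF.hq
  have hpq := cmpF.hpq
  have hc0 := cmpF.hc0
  have hm := mH_pos
  have hx := xx_pos
  have hx1 := xx_lt
  set p := mH * xx ^ 2 with hp'
  set q := mH * xx ^ 3 with hq'
  set c0 := 1 / (3 * (mH * xx)) with hc0'
  obtain ⟨D, hD⟩ : ∃ D, D = 1 / (p ^ 2 * q) * (1 + B) := ⟨_, rfl⟩
  have hD0 : 0 ≤ D := by rw [hD]; positivity
  have gs : ∀ N, GG p q rH N ≤ D * GG p q rH (N + 1) := fun N => by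
    rw [hD]
    exact GG_shift hp hq hpq (fun m => (hexWk.pos m).le) hB hB0 N
  refine ⟨36 / (mH * xx) * (1 + D + D * D) / c0, by positivity, ?_⟩
  intro E hE n ε hε h
  have u : ((cF E (n + 3) : ℕ) : ℝ) ≤ 9 * (SS (cH (thick 3 E)) (n + 4) +
      4 * SS (cH (thick 3 E)) (n + 3) + 3 * SS (cH (thick 3 E)) (n + 2)) := by
    exact_mod_cast cF_upper hE n
  have s4 : (SS (cH (thick 3 E)) (n + 4) : ℝ) ≤ ε * SS aH (n + 4) :=
    SS_le fun m h1 h2 => h m (by omega) (by omega)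
  have s3 : (SS (cH (thick 3 E)) (n + 3) : ℝ) ≤ ε * SS aH (n + 3) :=
    SS_le fun m h1 h2 => h m (by omega) (by omega)
  have s2 : (SS (cH (thick 3 E)) (n + 2) : ℝ) ≤ ε * SS aH (n + 2) :=
    SS_le fun m h1 h2 => h m (by omega) (by omega)
  have g4 := GG_SS (n + 4)
  have g3 := GG_SS (n + 3)
  have g2 := GG_SS (n + 2)
  rw [← hp', ← hq'] at g4 g3 g2
  have w2 := gs (n + 2)
  have w3 := gs (n + 3)
  have lo := cmpF.lo (n + 3)
  rw [← hp', ← hq'] at lo
  have g4n : 0 ≤ GG p q rH (n + 4) := cmpF.GG_nonneg (n + 4)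
  have hxn : 0 < xx ^ (n + 3) := pow_pos hx _
  -- normalised
  have main : (cF E (n + 3) : ℝ) * xx ^ (n + 3) ≤
      ε * (36 / (mH * xx)) * (GG p q rH (n + 4) + GG p q rH (n + 3) + GG p q rH (n + 2)) := by
    rw [g4, g3, g2]
    have e : ε * (36 / (mH * xx)) * (mH * xx ^ (n + 4) * (SS aH (n + 4) : ℝ) +
        mH * xx ^ (n + 3) * (SS aH (n + 3) : ℝ) + mH * xx ^ (n + 2) * (SS aH (n + 2) : ℝ)) =
        36 * xx ^ (n + 1) * (xx ^ 2 * (ε * SS aH (n + 4) : ℝ) + xx * (ε * SS aH (n + 3) : ℝ) +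
          (ε * SS aH (n + 2) : ℝ)) := by
      field_simp
      ring
    rw [e]
    have h2 := mul_le_mul_of_nonneg_right u hxn.le
    refine h2.trans ?_
    have e2 : xx ^ (n + 3) = xx ^ (n + 1) * xx ^ 2 := by rw [← pow_add]
    rw [e2]
    have h3 : 0 ≤ xx ^ (n + 1) := by positivity
    have a1 : (0 : ℝ) ≤ (SS (cH (thick 3 E)) (n + 4) : ℝ) := Nat.cast_nonneg _
    have a2 : (0 : ℝ) ≤ (SS (cH (thick 3 E)) (n + 3) : ℝ) := Nat.cast_nonneg _
    have a3 : (0 : ℝ) ≤ (SS (cH (thick 3 E)) (n + 2) : ℝ) := Nat.cast_nonneg _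
    have b1 : xx ^ 2 ≤ xx := by nlinarith
    have b2 : xx ^ 2 ≤ 1 := by nlinarith
    have key : 9 * ((SS (cH (thick 3 E)) (n + 4) : ℝ) + 4 * SS (cH (thick 3 E)) (n + 3) +
        3 * SS (cH (thick 3 E)) (n + 2)) * xx ^ 2 ≤
        36 * (xx ^ 2 * (ε * SS aH (n + 4) : ℝ) + xx * (ε * SS aH (n + 3) : ℝ) +
          (ε * SS aH (n + 2) : ℝ)) := by
      have c1 := mul_le_mul_of_nonneg_right b1 a2
      have c2 := mul_le_mul_of_nonneg_right b2 a3
      have c3 := mul_nonneg (sq_nonneg xx) a1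
      have d1 := mul_le_mul_of_nonneg_left s4 (sq_nonneg xx)
      have d2 := mul_le_mul_of_nonneg_left s3 hx.le
      nlinarith
    calc _ = xx ^ (n + 1) * (9 * ((SS (cH (thick 3 E)) (n + 4) : ℝ) +
          4 * SS (cH (thick 3 E)) (n + 3) + 3 * SS (cH (thick 3 E)) (n + 2)) * xx ^ 2) := by ring
      _ ≤ xx ^ (n + 1) * (36 * (xx ^ 2 * (ε * SS aH (n + 4) : ℝ) + xx * (ε * SS aH (n + 3) : ℝ) +
          (ε * SS aH (n + 2) : ℝ))) := mul_le_mul_of_nonneg_left key h3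
      _ = _ := by ring
  have w : GG p q rH (n + 4) + GG p q rH (n + 3) + GG p q rH (n + 2) ≤
      (1 + D + D * D) * GG p q rH (n + 4) := by
    have k1 : GG p q rH (n + 3) ≤ D * GG p q rH (n + 4) := w3
    have k2 : GG p q rH (n + 2) ≤ D * GG p q rH (n + 3) := w2
    have k3 := mul_le_mul_of_nonneg_left k1 hD0
    linarith
  have w' : GG p q rH (n + 4) ≤ sF (n + 3) / c0 := by
    rw [le_div_iff₀ hc0, mul_comm]
    exact lo
  have hk : 0 ≤ ε * (36 / (mH * xx)) := by positivity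
  have fin : (cF E (n + 3) : ℝ) * xx ^ (n + 3) ≤
      (36 / (mH * xx) * (1 + D + D * D) / c0 * ε * aF (n + 3)) * xx ^ (n + 3) := by
    calc _ ≤ _ := main
      _ ≤ ε * (36 / (mH * xx)) * ((1 + D + D * D) * (sF (n + 3) / c0)) := by
        apply mul_le_mul_of_nonneg_left _ hk
        exact w.trans (mul_le_mul_of_nonneg_left w' (by positivity))
      _ = _ := by unfold sF; ring
  exact le_of_mul_le_mul_right fin hxn

end Pool.Agent.D0H94.T12
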