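import Pool.Agent.D0H94.T12.E4

/-!
# From (3.12²) to the honeycomb lattice
-/

set_option autoImplicit false
set_option linter.unusedVariables false

namespace Pool.Agent.D0H94.T12

open Filter Topology Finset

/-- one length -/
lemma one_len {E : Set (Set ℂ)} (hE : MotInv E) {m n : ℕ} {w : ℝ} (hw : 0 < w)
    (h : w ≤ pw (mH * xx ^ 2) (mH * xx ^ 3) (m + 1) ((n + 1 : ℕ) : ℤ)) :
    (cH E m : ℝ) * aF n ≤ 3 * (mH * xx) * sF n / w * (aH m * cF (thick 1 E) n) := by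
  have hm := mH_pos
  have hx := xx_pos
  have hne : pw (mH * xx ^ 2) (mH * xx ^ 3) (m + 1) ((n + 1 : ℕ) : ℤ) ≠ 0 := by
    intro e
    rw [e] at h
    linarith
  obtain ⟨h1, h2⟩ := pw_supp hne
  have h3 : cH E m * K (m + 1) (n + 1) ≤ 3 * cF (thick 1 E) n := by
    refine le_trans ?_ (cF_lower hE n)
    unfold SS
    exact Finset.single_le_sum (f := fun m => cH E m * K (m + 1) (n + 1))
      (fun i _ => Nat.zero_le _) (Finset.mem_range.2 (by omega))
  have h3' : (cH E m : ℝ) * K (m + 1) (n + 1) ≤ 3 * cF (thick 1 E) n := by exact_mod_cast h3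
  rw [pw_K (μ := mH) (x := xx) rfl rfl] at h
  have hc : (0 : ℝ) ≤ cH E m := Nat.cast_nonneg _
  have hcF : (0 : ℝ) ≤ cF (thick 1 E) n := Nat.cast_nonneg _
  have hs : 0 ≤ sF n := sF_nonneg n
  have h4 : (cH E m : ℝ) * w ≤ 3 * cF (thick 1 E) n * (mH ^ (m + 1) * xx ^ (n + 1)) := by
    calc (cH E m : ℝ) * w ≤ cH E m * (K (m + 1) (n + 1) * mH ^ (m + 1) * xx ^ (n + 1)) :=
          mul_le_mul_of_nonneg_left h hc
      _ = cH E m * K (m + 1) (n + 1) * (mH ^ (m + 1) * xx ^ (n + 1)) := by ring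
      _ ≤ _ := mul_le_mul_of_nonneg_right h3' (by positivity)
  have e1 : (aF n : ℝ) = sF n / xx ^ n := by
    unfold sF
    have := (pow_pos hx n).ne'
    field_simp
  have h5 : mH ^ m ≤ (aH m : ℝ) := hexWk.low m
  rw [e1]
  have h6 := mul_le_mul_of_nonneg_right h4 (div_nonneg hs (pow_pos hx n).le)
  have h7 : 3 * (cF (thick 1 E) n : ℝ) * (mH ^ (m + 1) * xx ^ (n + 1)) * (sF n / xx ^ n) =
      3 * (mH * xx) * sF n * (mH ^ m * cF (thick 1 E) n) := by
    have := (pow_pos hx n).ne'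
    rw [pow_succ, pow_succ]
    field_simp
  rw [h7] at h6
  have h8 : 3 * (mH * xx) * sF n * (mH ^ m * cF (thick 1 E) n) ≤
      3 * (mH * xx) * sF n * (aH m * cF (thick 1 E) n) :=
    mul_le_mul_of_nonneg_left (mul_le_mul_of_nonneg_right h5 hcF) (by positivity)
  rw [div_mul_eq_mul_div, le_div_iff₀ hw]
  calc _ = (cH E m : ℝ) * w * (sF n / xx ^ n) := by ring
    _ ≤ _ := h6
    _ ≤ _ := h8

/-- absorbing constants -/
lemma absorb {A B : ℝ} (hB : 0 < B) : ∃ K : ℝ, 0 ≤ K ∧ ∀ m : ℕ, 2 ≤ m →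
    B * m * Real.exp (A * Real.log m ^ 2) ≤ Real.exp (K * Real.log m ^ 2) := by
  have hl2 := Real.log_two_gt_d9
  refine ⟨|A| + 3 * |Real.log B| + 2, by positivity, fun m hm => ?_⟩
  have hm0 : (0 : ℝ) < m := by positivity
  have hln : Real.log 2 ≤ Real.log m := Real.log_le_log (by norm_num) (by exact_mod_cast hm)
  have h1 : (1 : ℝ) / 3 ≤ Real.log m ^ 2 := by nlinarith
  rw [← Real.log_le_iff_le_exp (by positivity), Real.log_mul (by positivity)
    (Real.exp_pos _).ne', Real.log_mul hB.ne' hm0.ne', Real.log_exp]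
  have h2 := le_abs_self A
  have h3 := le_abs_self (Real.log B)
  have h4 := abs_nonneg (Real.log B)
  have h5 : A * Real.log m ^ 2 ≤ |A| * Real.log m ^ 2 :=
    mul_le_mul_of_nonneg_right h2 (sq_nonneg _)
  have h6 : Real.log m ≤ 2 * Real.log m ^ 2 := by nlinarith
  nlinarith

/-- **for every length on the honeycomb lattice there is one on (3.12²)** -/
theorem dn_trans : ∃ C : ℝ, 0 ≤ C ∧ ∀ (E : Set (Set ℂ)), MotInv E → ∀ m : ℕ, 2 ≤ m →
    ∃ n : ℕ, 2 * m + 1 ≤ n ∧ n ≤ 3 * m + 2 ∧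
      (cH E m : ℝ) * aF n ≤ Real.exp (C * Real.log m ^ 2) * (aH m * cF (thick 1 E) n) := by
  obtain ⟨K0, hK0, hs⟩ := sF_up
  have hm := mH_pos
  have hx := xx_pos
  obtain ⟨C, hC, hC2⟩ := absorb (A := 9 * K0) (B := 3 * (mH * xx) * 40) (by positivity)
  refine ⟨C, hC, fun E hE m hm2 => ?_⟩
  have hp := cmpF.hp
  have hq := cmpF.hq
  have hpq := cmpF.hpq
  set p := mH * xx ^ 2 with hp'
  set q := mH * xx ^ 3 with hq'
  obtain ⟨s, hs0⟩ : ∃ s : ℝ, s = √((m + 1 : ℕ) : ℝ) := ⟨_, rfl⟩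
  have hs1 : s ^ 2 = ((m + 1 : ℕ) : ℝ) := by rw [hs0]; exact Real.sq_sqrt (by positivity)
  have hs2 : 1 ≤ s := by
    rw [hs0, Real.one_le_sqrt]
    push_cast
    linarith [Nat.cast_nonneg (α := ℝ) m]
  obtain ⟨W, hW⟩ : ∃ W : Finset ℤ, W = Finset.Icc ⌊(2 + q) * ((m + 1 : ℕ) : ℝ) - 3 * s⌋
    ⌈(2 + q) * ((m + 1 : ℕ) : ℝ) + 3 * s⌉ := ⟨_, rfl⟩
  have c1 := conc hp.le hq.le hpq (m := m + 1) (by omega) W (by
    intro z hz
    rw [← hs0, abs_le] at hz
    rw [hW, Finset.mem_Icc]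
    constructor
    · apply Int.floor_le_iff.2 ?_ |>.trans le_rfl
      linarith
    · apply Int.le_ceil_iff.2
      linarith)
  have card : (W.card : ℝ) ≤ 12 * ((m + 1 : ℕ) : ℝ) := by
    rw [hW, Int.card_Icc]
    have f1 := Int.sub_one_lt_floor ((2 + q) * ((m + 1 : ℕ) : ℝ) - 3 * s)
    have f2 := Int.ceil_lt_add_one ((2 + q) * ((m + 1 : ℕ) : ℝ) + 3 * s)
    have hge : (0 : ℤ) ≤ ⌈(2 + q) * ((m + 1 : ℕ) : ℝ) + 3 * s⌉ + 1 -
        ⌊(2 + q) * ((m + 1 : ℕ) : ℝ) - 3 * s⌋ := by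
      have f3 := Int.floor_le ((2 + q) * ((m + 1 : ℕ) : ℝ) - 3 * s)
      have f4 := Int.le_ceil ((2 + q) * ((m + 1 : ℕ) : ℝ) + 3 * s)
      have : ((⌊(2 + q) * ((m + 1 : ℕ) : ℝ) - 3 * s⌋ : ℤ) : ℝ) ≤
          ((⌈(2 + q) * ((m + 1 : ℕ) : ℝ) + 3 * s⌉ : ℤ) : ℝ) := by linarith
      have := Int.cast_le.1 this
      omega
    have e : (((⌈(2 + q) * ((m + 1 : ℕ) : ℝ) + 3 * s⌉ + 1 -
        ⌊(2 + q) * ((m + 1 : ℕ) : ℝ) - 3 * s⌋).toNat : ℕ) : ℝ) =
        ((⌈(2 + q) * ((m + 1 : ℕ) : ℝ) + 3 * s⌉ + 1 -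
        ⌊(2 + q) * ((m + 1 : ℕ) : ℝ) - 3 * s⌋ : ℤ) : ℝ) := by
      rw [← Int.cast_natCast, Int.toNat_of_nonneg hge]
    rw [e]
    push_cast at *
    nlinarith
  -- a value with large weight
  obtain ⟨z, hz, hz2⟩ : ∃ z ∈ W, 1 / (2 * (12 * ((m + 1 : ℕ) : ℝ))) ≤ pw p q (m + 1) z := by
    by_contra hcon
    push Not at hcon
    have h1 : ∑ z ∈ W, pw p q (m + 1) z < 1 / 2 := by
      rcases W.eq_empty_or_nonempty with he | he
      · rw [he]; simp
      · calc ∑ z ∈ W, pw p q (m + 1) z < ∑ z ∈ W, 1 / (2 * (12 * ((m + 1 : ℕ) : ℝ))) :=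
            Finset.sum_lt_sum_of_nonempty he hcon
          _ = W.card * (1 / (2 * (12 * ((m + 1 : ℕ) : ℝ)))) := by
            rw [Finset.sum_const, nsmul_eq_mul]
          _ ≤ 12 * ((m + 1 : ℕ) : ℝ) * (1 / (2 * (12 * ((m + 1 : ℕ) : ℝ)))) :=
            mul_le_mul_of_nonneg_right card (by positivity)
          _ = 1 / 2 := by
            have : ((m + 1 : ℕ) : ℝ) ≠ 0 := by positivity
            field_simp
    linarith
  have hw : (0 : ℝ) < 1 / (2 * (12 * ((m + 1 : ℕ) : ℝ))) := by positivity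
  have hne : pw p q (m + 1) z ≠ 0 := by
    intro e
    rw [e] at hz2
    linarith
  have z1 : 2 * ((m : ℤ) + 1) ≤ z := by
    by_contra hc
    exact hne (pw_zero_low _ _ (by push_cast; omega))
  have z2 : z ≤ 3 * ((m : ℤ) + 1) := by
    by_contra hc
    exact hne (pw_zero_high _ _ (by push_cast; omega))
  obtain ⟨n, hn⟩ : ∃ n : ℕ, z = ((n + 1 : ℕ) : ℤ) := ⟨(z - 1).toNat, by push_cast; omega⟩
  subst hn
  push_cast at z1 z2
  refine ⟨n, by omega, by omega, ?_⟩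
  have h1 := one_len hE hw hz2
  refine h1.trans ?_
  have hcF : (0 : ℝ) ≤ (aH m : ℝ) * cF (thick 1 E) n := by positivity
  apply mul_le_mul_of_nonneg_right _ hcF
  have hsn := hs n (by omega)
  have hln : Real.log n ≤ 3 * Real.log m := by
    have a1 : Real.log n ≤ Real.log (4 * m) :=
      Real.log_le_log (by exact_mod_cast (show 0 < n by omega))
        (by exact_mod_cast (show n ≤ 4 * m by omega))
    rw [Real.log_mul (by norm_num) (by positivity)] at a1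
    have a2 : Real.log 4 = 2 * Real.log 2 := by
      rw [show (4 : ℝ) = 2 ^ 2 by norm_num, Real.log_pow]
      norm_num
    have a3 : Real.log 2 ≤ Real.log m := Real.log_le_log (by norm_num) (by exact_mod_cast hm2)
    linarith
  have hln0 : 0 ≤ Real.log n := Real.log_natCast_nonneg n
  have h2 : sF n ≤ Real.exp (9 * K0 * Real.log m ^ 2) := by
    refine hsn.trans (Real.exp_le_exp.2 ?_)
    have : Real.log n ^ 2 ≤ 9 * Real.log m ^ 2 := by nlinarith
    nlinarith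
  refine le_trans ?_ (hC2 m hm2)
  rw [div_div_eq_mul_div, div_one]
  have hmm : ((m + 1 : ℕ) : ℝ) ≤ 1.5 * m := by
    push_cast
    have : (2 : ℝ) ≤ m := by exact_mod_cast hm2
    linarith
  have h3 : 3 * (mH * xx) * sF n * (2 * (12 * ((m + 1 : ℕ) : ℝ))) ≤
      3 * (mH * xx) * Real.exp (9 * K0 * Real.log m ^ 2) * (2 * (12 * (1.5 * m))) := by
    apply mul_le_mul _ (by linarith) (by positivity) (by positivity)
    exact mul_le_mul_of_nonneg_left h2 (by positivity)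
  refine h3.trans ?_
  have hm0 : (0 : ℝ) ≤ m := Nat.cast_nonneg m
  have he := Real.exp_pos (9 * K0 * Real.log m ^ 2)
  have h4 : 0 ≤ 3 * (mH * xx) * Real.exp (9 * K0 * Real.log m ^ 2) * m := by positivity
  nlinarith

/-- **for every length on (3.12²) there is one on the honeycomb lattice** -/
theorem dn_trans' : ∃ C : ℝ, 0 ≤ C ∧ ∀ (E : Set (Set ℂ)), MotInv E → ∀ n : ℕ, 2 ≤ n →
    ∃ m : ℕ, 2 * m + 1 ≤ n ∧ n ≤ 3 * m + 2 ∧
      (cH E m : ℝ) * aF n ≤ Real.exp (C * Real.log n ^ 2) * (aH m * cF (thick 1 E) n) := by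
  obtain ⟨K0, hK0, hs⟩ := sF_up
  have hm := mH_pos
  have hx := xx_pos
  have hp := cmpF.hp
  have hq := cmpF.hq
  have hpq := cmpF.hpq
  set p := mH * xx ^ 2 with hp'
  set q := mH * xx ^ 3 with hq'
  obtain ⟨C, hC, hC2⟩ := absorb (A := K0) (B := 3 * (mH * xx) * 2 / (p ^ 2 * q)) (by positivity)
  refine ⟨C, hC, fun E hE n hn => ?_⟩
  have r1 := ren_ge hp hq hpq (n + 1) (n + 2) (by omega) (by omega)
  obtain ⟨m0, hm0, hm1⟩ : ∃ m0 ∈ range (n + 2), p ^ 2 * q / (n + 2 : ℕ) ≤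
      pw p q m0 ((n + 1 : ℕ) : ℤ) := by
    by_contra hcon
    push Not at hcon
    have h1 : ∑ z ∈ range (n + 2), pw p q z ((n + 1 : ℕ) : ℤ) < p ^ 2 * q := by
      calc ∑ z ∈ range (n + 2), pw p q z ((n + 1 : ℕ) : ℤ) <
            ∑ z ∈ range (n + 2), p ^ 2 * q / (n + 2 : ℕ) :=
            Finset.sum_lt_sum_of_nonempty (by simp) hcon
        _ = p ^ 2 * q := by
          rw [Finset.sum_const, nsmul_eq_mul, Finset.card_range]
          have : ((n + 2 : ℕ) : ℝ) ≠ 0 := by positivity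
          field_simp
    linarith
  have hw : (0 : ℝ) < p ^ 2 * q / (n + 2 : ℕ) := by positivity
  cases m0 with
  | zero =>
    exfalso
    have : pw p q 0 ((n + 1 : ℕ) : ℤ) = 0 := by
      unfold pw
      rw [if_neg]
      push_cast
      omega
    rw [this] at hm1
    linarith
  | succ m =>
    have hne : pw p q (m + 1) ((n + 1 : ℕ) : ℤ) ≠ 0 := by
      intro e
      rw [e] at hm1
      linarith
    obtain ⟨g1, g2⟩ := pw_supp hne
    refine ⟨m, by omega, by omega, ?_⟩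
    have h1 := one_len hE hw hm1
    refine h1.trans ?_
    have hcF : (0 : ℝ) ≤ (aH m : ℝ) * cF (thick 1 E) n := by positivity
    apply mul_le_mul_of_nonneg_right _ hcF
    refine le_trans ?_ (hC2 n hn)
    have hsn := hs n hn
    rw [div_div_eq_mul_div]
    have hnn : ((n + 2 : ℕ) : ℝ) ≤ 2 * n := by
      push_cast
      have : (2 : ℝ) ≤ n := by exact_mod_cast hn
      linarith
    have hpq2 : 0 < p ^ 2 * q := by positivity
    rw [div_mul_eq_mul_div, div_mul_eq_mul_div]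
    apply div_le_div_of_nonneg_right _ hpq2.le
    have he := Real.exp_pos (K0 * Real.log n ^ 2)
    calc 3 * (mH * xx) * sF n * ((n + 2 : ℕ) : ℝ) ≤
          3 * (mH * xx) * Real.exp (K0 * Real.log n ^ 2) * (2 * n) := by
          apply mul_le_mul _ hnn (by positivity) (by positivity)
          exact mul_le_mul_of_nonneg_left hsn (by positivity)
      _ = _ := by ring

end Pool.Agent.D0H94.T12
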