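import Pool.Agent.D0H94.T12.E5

/-!
# The diameter
-/

set_option autoImplicit false
set_option linter.unusedVariables false

namespace Pool.Agent.D0H94.T12

open Filter Topology Finset

/-- sets of diameter at least `x` -/
def GE (x : ℝ) : Set (Set ℂ) := {A | ∃ a ∈ A, ∃ b ∈ A, x ≤ ‖a - b‖}

/-- sets of diameter at most `x` -/
def LE (x : ℝ) : Set (Set ℂ) := {A | ∀ a ∈ A, ∀ b ∈ A, ‖a - b‖ ≤ x}

lemma GE_inv (x : ℝ) : MotInv (GE x) := by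
  rintro A ⟨a, ha, b, hb, h⟩ c d hc
  refine ⟨_, ⟨a, ha, rfl⟩, _, ⟨b, hb, rfl⟩, ?_⟩
  simp only
  rw [show (c * a + d) - (c * b + d) = c * (a - b) by ring, norm_mul, hc, one_mul]
  exact h

lemma LE_inv (x : ℝ) : MotInv (LE x) := by
  rintro A h c d hc
  rintro _ ⟨a, ha, rfl⟩ _ ⟨b, hb, rfl⟩
  simp only
  rw [show (c * a + d) - (c * b + d) = c * (a - b) by ring, norm_mul, hc, one_mul]
  exact h a ha b hb

lemma GE_thick (x : ℝ) : thick 3 (GE x) ⊆ GE (x - 6) := by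
  rintro A ⟨B, ⟨a, ha, b, hb, h⟩, hN⟩
  obtain ⟨a', ha', k1⟩ := hN.2 a ha
  obtain ⟨b', hb', k2⟩ := hN.2 b hb
  refine ⟨a', ha', b', hb', ?_⟩
  have h1 : ‖a - b‖ ≤ ‖a' - a‖ + ‖a' - b'‖ + ‖b' - b‖ := by
    calc ‖a - b‖ = ‖-(a' - a) + (a' - b') + (b' - b)‖ := by congr 1; ring
      _ ≤ ‖-(a' - a) + (a' - b')‖ + ‖b' - b‖ := norm_add_le _ _
      _ ≤ ‖-(a' - a)‖ + ‖a' - b'‖ + ‖b' - b‖ := by linarith [norm_add_le (-(a' - a)) (a' - b')]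
      _ = _ := by rw [norm_neg]
  linarith

lemma LE_thick (x : ℝ) : thick 3 (LE x) ⊆ LE (x + 6) := by
  rintro A ⟨B, h, hN⟩ a ha b hb
  obtain ⟨a', ha', k1⟩ := hN.1 a ha
  obtain ⟨b', hb', k2⟩ := hN.1 b hb
  have h0 := h a' ha' b' hb'
  calc ‖a - b‖ = ‖(a - a') + (a' - b') + -(b - b')‖ := by congr 1; ring
    _ ≤ ‖(a - a') + (a' - b')‖ + ‖-(b - b')‖ := norm_add_le _ _
    _ ≤ ‖a - a'‖ + ‖a' - b'‖ + ‖-(b - b')‖ := by linarith [norm_add_le (a - a') (a' - b')]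
    _ ≤ x + 6 := by rw [norm_neg]; linarith

lemma GE_mono {x y : ℝ} (h : x ≤ y) : GE y ⊆ GE x := by
  rintro A ⟨a, ha, b, hb, h1⟩
  exact ⟨a, ha, b, hb, h.trans h1⟩

lemma LE_mono {x y : ℝ} (h : x ≤ y) : LE x ⊆ LE y := by
  rintro A h1 a ha b hb
  exact (h1 a ha b hb).trans h

lemma thick_mono {r s : ℝ} (h : r ≤ s) (E : Set (Set ℂ)) : thick r E ⊆ thick s E := by
  rintro A ⟨B, hB, hN⟩
  exact ⟨B, hB, hN.mono h⟩

/-- diameter of a walk -/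
noncomputable def diam {n : ℕ} (ω : Fin (n + 1) → ℂ) : ℝ :=
  ⨆ p : Fin (n + 1) × Fin (n + 1), ‖ω p.1 - ω p.2‖

lemma le_diam_iff {n : ℕ} (ω : Fin (n + 1) → ℂ) (x : ℝ) : x ≤ diam ω ↔ Set.range ω ∈ GE x := by
  constructor
  · intro h
    obtain ⟨p, hp⟩ := exists_eq_ciSup_of_finite (f := fun p : Fin (n + 1) × Fin (n + 1) =>
      ‖ω p.1 - ω p.2‖)
    refine ⟨_, ⟨p.1, rfl⟩, _, ⟨p.2, rfl⟩, ?_⟩
    rw [hp]
    exact h
  · rintro ⟨_, ⟨i, rfl⟩, _, ⟨j, rfl⟩, h⟩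
    exact h.trans (le_ciSup (f := fun p : Fin (n + 1) × Fin (n + 1) => ‖ω p.1 - ω p.2‖)
      (Set.finite_range _).bddAbove (i, j))

lemma diam_le_iff {n : ℕ} (ω : Fin (n + 1) → ℂ) (x : ℝ) : diam ω ≤ x ↔ Set.range ω ∈ LE x := by
  constructor
  · rintro h _ ⟨i, rfl⟩ _ ⟨j, rfl⟩
    exact (le_ciSup (f := fun p : Fin (n + 1) × Fin (n + 1) => ‖ω p.1 - ω p.2‖)
      (Set.finite_range _).bddAbove (i, j)).trans h
  · intro h
    exact ciSup_le fun p => h _ ⟨p.1, rfl⟩ _ ⟨p.2, rfl⟩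

/-! ### probabilities -/

lemma finWF (n : ℕ) : (wlk dodS (2 * √3 - 3) ((2 - √3 : ℝ) : ℂ) n).Finite := by
  rw [emb_image embF]
  exact (finF n).image _

lemma finWH (n : ℕ) : (wlk hexS 1 0 n).Finite := by
  rw [emb_image embH]
  exact (finH n).image _

/-- probability on (3.12²) -/
noncomputable def PrF (E : Set (Set ℂ)) (n : ℕ) : ℝ := (cF E n : ℝ) / aF n

/-- probability on the honeycomb lattice -/
noncomputable def PrH (E : Set (Set ℂ)) (n : ℕ) : ℝ := (cH E n : ℝ) / aH n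

lemma PrF_nonneg (E : Set (Set ℂ)) (n : ℕ) : 0 ≤ PrF E n := by unfold PrF; positivity
lemma PrH_nonneg (E : Set (Set ℂ)) (n : ℕ) : 0 ≤ PrH E n := by unfold PrH; positivity

lemma PrF_mono {E E' : Set (Set ℂ)} (h : E ⊆ E') (n : ℕ) : PrF E n ≤ PrF E' n := by
  unfold PrF
  apply div_le_div_of_nonneg_right _ (Nat.cast_nonneg _)
  have : cF E n ≤ cF E' n :=
    Set.ncard_le_ncard (fun ω hω => ⟨hω.1, h hω.2⟩) ((finWF n).subset fun _ h => h.1)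
  exact_mod_cast this

lemma PrH_mono {E E' : Set (Set ℂ)} (h : E ⊆ E') (n : ℕ) : PrH E n ≤ PrH E' n := by
  unfold PrH
  apply div_le_div_of_nonneg_right _ (Nat.cast_nonneg _)
  have : cH E n ≤ cH E' n :=
    Set.ncard_le_ncard (fun ω hω => ⟨hω.1, h hω.2⟩) ((finWH n).subset fun _ h => h.1)
  exact_mod_cast this

lemma aH_pos (n : ℕ) : 0 < (aH n : ℝ) := hexWk.cpos n

lemma aF_pos' (n : ℕ) : 0 < (aF n : ℝ) := by
  rcases Nat.eq_zero_or_pos n with h | h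
  · rw [h, aF_zero]; norm_num
  · exact aF_pos n h

/-- **first comparison** -/
theorem PrF_le : ∃ C : ℝ, 0 < C ∧ ∀ (E : Set (Set ℂ)), MotInv E → ∀ n : ℕ, 3 ≤ n →
    ∃ m : ℕ, 2 * m + 1 ≤ n ∧ n ≤ 3 * m + 4 ∧ PrF E n ≤ C * PrH (thick 3 E) m := by
  obtain ⟨C, hC, h⟩ := up_trans
  refine ⟨C, hC, fun E hE n hn => ?_⟩
  obtain ⟨I, hI⟩ : ∃ I : Finset ℕ, I = (range n).filter (fun m => 2 * m + 1 ≤ n ∧ n ≤ 3 * m + 4) :=
    ⟨_, rfl⟩
  have hne : I.Nonempty := by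
    refine ⟨(n - 1) / 2, ?_⟩
    rw [hI, mem_filter, mem_range]
    omega
  obtain ⟨m, hm, hmax⟩ := I.exists_max_image (fun m => PrH (thick 3 E) m) hne
  rw [hI, mem_filter] at hm
  refine ⟨m, hm.2.1, hm.2.2, ?_⟩
  obtain ⟨k, rfl⟩ : ∃ k, n = k + 3 := ⟨n - 3, by omega⟩
  have h1 := h E hE k (PrH (thick 3 E) m) (PrH_nonneg _ _) (by
    intro m' g1 g2
    have h2 : m' ∈ I := by
      rw [hI, mem_filter, mem_range]
      omega
    have h3 := hmax m' h2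
    have h4 : (cH (thick 3 E) m' : ℝ) = PrH (thick 3 E) m' * aH m' := by
      unfold PrH
      rw [div_mul_cancel₀ _ (aH_pos m').ne']
    rw [h4]
    exact mul_le_mul_of_nonneg_right h3 (aH_pos m').le)
  unfold PrF
  rw [div_le_iff₀ (aF_pos' _)]
  exact h1

/-- **second comparison** -/
theorem PrH_le : ∃ C : ℝ, 0 ≤ C ∧ ∀ (E : Set (Set ℂ)), MotInv E → ∀ m : ℕ, 2 ≤ m →
    ∃ n : ℕ, 2 * m + 1 ≤ n ∧ n ≤ 3 * m + 2 ∧
      PrH E m ≤ Real.exp (C * Real.log m ^ 2) * PrF (thick 1 E) n := by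
  obtain ⟨C, hC, h⟩ := dn_trans
  refine ⟨C, hC, fun E hE m hm => ?_⟩
  obtain ⟨n, h1, h2, h3⟩ := h E hE m hm
  refine ⟨n, h1, h2, ?_⟩
  unfold PrF PrH
  rw [← mul_div_assoc, div_le_div_iff₀ (aH_pos m) (aF_pos' n)]
  linarith

/-- **third comparison** -/
theorem PrH_le' : ∃ C : ℝ, 0 ≤ C ∧ ∀ (E : Set (Set ℂ)), MotInv E → ∀ n : ℕ, 2 ≤ n →
    ∃ m : ℕ, 2 * m + 1 ≤ n ∧ n ≤ 3 * m + 2 ∧
      PrH E m ≤ Real.exp (C * Real.log n ^ 2) * PrF (thick 1 E) n := by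
  obtain ⟨C, hC, h⟩ := dn_trans'
  refine ⟨C, hC, fun E hE n hn => ?_⟩
  obtain ⟨m, h1, h2, h3⟩ := h E hE n hn
  refine ⟨m, h1, h2, ?_⟩
  unfold PrF PrH
  rw [← mul_div_assoc, div_le_div_iff₀ (aH_pos m) (aF_pos' n)]
  linarith

/-! ### asymptotics -/

lemma pow_cmp {a b : ℝ} (ha : 0 < a) (hab : a < b) : ∃ N0 : ℕ, 1 ≤ N0 ∧ ∀ j k : ℕ, N0 ≤ k →
    j ≤ 7 * k → (j : ℝ) ^ a + 6 ≤ (k : ℝ) ^ b := by
  have t : Tendsto (fun k : ℕ => (k : ℝ) ^ (b - a)) atTop atTop :=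
    (tendsto_rpow_atTop (by linarith)).comp tendsto_natCast_atTop_atTop
  obtain ⟨N1, hN1⟩ := eventually_atTop.1 (t.eventually_ge_atTop ((7 : ℝ) ^ a + 6))
  refine ⟨max N1 1, le_max_right _ _, fun j k hk hj => ?_⟩
  have h1 := hN1 k ((le_max_left _ _).trans hk)
  have hk1 : 1 ≤ k := (le_max_right _ _).trans hk
  have hk0 : (0 : ℝ) < k := by exact_mod_cast hk1
  have hk1' : (1 : ℝ) ≤ k := by exact_mod_cast hk1
  have h2 : (j : ℝ) ^ a ≤ (7 * k : ℝ) ^ a :=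
    Real.rpow_le_rpow (Nat.cast_nonneg j) (by exact_mod_cast hj) ha.le
  rw [Real.mul_rpow (by norm_num) hk0.le] at h2
  have h3 : (k : ℝ) ^ b = (k : ℝ) ^ a * (k : ℝ) ^ (b - a) := by
    rw [← Real.rpow_add hk0]
    congr 1
    ring
  have h4 : 1 ≤ (k : ℝ) ^ a := Real.one_le_rpow hk1' ha.le
  rw [h3]
  have h5 := mul_le_mul_of_nonneg_left h1 (zero_le_one.trans h4)
  have h6 : 0 ≤ (7 : ℝ) ^ a := by positivity
  nlinarith

/-- comparison of two families of probabilities -/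
def Rel (P Q : Set (Set ℂ) → ℕ → ℝ) : Prop := ∃ K : ℝ, 0 ≤ K ∧ ∃ N0 : ℕ, ∀ n : ℕ, N0 ≤ n →
  ∀ E, MotInv E → ∃ m : ℕ, n ≤ 7 * m ∧ m ≤ 7 * n ∧
    P E n ≤ Real.exp (K * Real.log n ^ 2) * Q (thick 3 E) m

lemma relFH : Rel PrF PrH := by
  obtain ⟨C, hC, h⟩ := PrF_le
  refine ⟨4 * |Real.log C|, by positivity, 5, fun n hn E hE => ?_⟩
  obtain ⟨m, h1, h2, h3⟩ := h E hE n (by omega)
  refine ⟨m, by omega, by omega, h3.trans (mul_le_mul_of_nonneg_right ?_ (PrH_nonneg _ _))⟩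
  rw [← Real.log_le_iff_le_exp hC]
  have hl2 := Real.log_two_gt_d9
  have hln : Real.log 2 ≤ Real.log n :=
    Real.log_le_log (by norm_num) (by exact_mod_cast (show 2 ≤ n by omega))
  have h4 := le_abs_self (Real.log C)
  have h5 : (1 : ℝ) / 4 ≤ Real.log n ^ 2 := by nlinarith
  have h6 := abs_nonneg (Real.log C)
  nlinarith

lemma relHF : Rel PrH PrF := by
  obtain ⟨C, hC, h⟩ := PrH_le
  refine ⟨C, hC, 2, fun m hm E hE => ?_⟩
  obtain ⟨n, h1, h2, h3⟩ := h E hE m hm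
  refine ⟨n, by omega, by omega, h3.trans (mul_le_mul_of_nonneg_left ?_ (Real.exp_pos _).le)⟩
  exact PrF_mono (thick_mono (by norm_num) E) n

lemma log_sq_small (K : ℝ) {δ : ℝ} (hδ : 0 < δ) : ∀ᶠ n : ℕ in atTop,
    K * Real.log n ^ 2 + (n : ℝ) ^ (δ / 2) ≤ ((n : ℝ) / 7) ^ δ := by
  have h1 : Tendsto (fun x : ℝ => Real.log x ^ 2 / x ^ (δ / 2)) atTop (𝓝 0) := by
    have := (isLittleO_log_rpow_rpow_atTop (s := δ / 2) 2 (by linarith)).tendsto_div_nhds_zero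
    refine this.congr' ?_
    filter_upwards [eventually_ge_atTop (1 : ℝ)] with x hx
    rw [Real.rpow_two]
  have h2 : Tendsto (fun n : ℕ => (n : ℝ) ^ (δ / 2)) atTop atTop :=
    (tendsto_rpow_atTop (by linarith)).comp tendsto_natCast_atTop_atTop
  have h3 := (h1.comp tendsto_natCast_atTop_atTop).const_mul |K|
  rw [mul_zero] at h3
  filter_upwards [h3.eventually_le_const one_pos, h2.eventually_ge_atTop (2 * 7 ^ δ),
    eventually_ge_atTop 1] with n g1 g2 hn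
  have hn0 : (0 : ℝ) < n := by exact_mod_cast hn
  have hp : 0 < (n : ℝ) ^ (δ / 2) := Real.rpow_pos_of_pos hn0 _
  simp only [Function.comp] at g1
  rw [← mul_div_assoc, div_le_iff₀ hp, one_mul] at g1
  rw [Real.div_rpow hn0.le (by norm_num)]
  have e : (n : ℝ) ^ δ = (n : ℝ) ^ (δ / 2) * (n : ℝ) ^ (δ / 2) := by
    rw [← Real.rpow_add hn0]
    congr 1
    ring
  have h7 : 0 < (7 : ℝ) ^ δ := by positivity
  rw [le_div_iff₀ h7, e]
  have h5 : K * Real.log n ^ 2 ≤ |K| * Real.log n ^ 2 :=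
    mul_le_mul_of_nonneg_right (le_abs_self K) (sq_nonneg _)
  have h6 : K * Real.log n ^ 2 + (n : ℝ) ^ (δ / 2) ≤ 2 * (n : ℝ) ^ (δ / 2) := by linarith
  calc (K * Real.log n ^ 2 + (n : ℝ) ^ (δ / 2)) * 7 ^ δ ≤ (2 * (n : ℝ) ^ (δ / 2)) * 7 ^ δ :=
        mul_le_mul_of_nonneg_right h6 h7.le
    _ = (n : ℝ) ^ (δ / 2) * (2 * 7 ^ δ) := by ring
    _ ≤ _ := mul_le_mul_of_nonneg_left g2 hp.le

/-- bounds which are stretched exponential -/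
def Str (T : ℕ → ℝ) : Prop := ∃ δ : ℝ, 0 < δ ∧ ∀ᶠ n : ℕ in atTop, T n ≤ Real.exp (-(n : ℝ) ^ δ)

lemma str_trans {T T' : ℕ → ℝ} {K : ℝ} (h : ∀ᶠ n : ℕ in atTop, ∃ m : ℕ, n ≤ 7 * m ∧
    T n ≤ Real.exp (K * Real.log n ^ 2) * T' m) (h' : Str T') : Str T := by
  obtain ⟨δ, hδ, h'⟩ := h'
  obtain ⟨N1, hN1⟩ := eventually_atTop.1 h'
  refine ⟨δ / 2, by linarith, ?_⟩
  filter_upwards [h, eventually_ge_atTop (7 * N1), log_sq_small K hδ, eventually_ge_atTop 1]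
    with n h1 hn h2 hn1
  obtain ⟨m, hm, h3⟩ := h1
  have h4 := hN1 m (by omega)
  refine h3.trans ((mul_le_mul_of_nonneg_left h4 (Real.exp_pos _).le).trans ?_)
  rw [← Real.exp_add, Real.exp_le_exp]
  have h5 : ((n : ℝ) / 7) ^ δ ≤ (m : ℝ) ^ δ := by
    apply Real.rpow_le_rpow (by positivity) _ hδ.le
    rw [div_le_iff₀ (by norm_num)]
    have : (n : ℝ) ≤ 7 * m := by exact_mod_cast hm
    linarith
  linarith

/-- upper tails -/
theorem str_GE {P Q : Set (Set ℂ) → ℕ → ℝ} (R : Rel P Q)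
    (hQ : ∀ {E E' : Set (Set ℂ)}, E ⊆ E' → ∀ n, Q E n ≤ Q E' n) {θ : ℝ} (hθ : 0 < θ)
    (h : ∀ ε : ℝ, 0 < ε → Str (fun n => Q (GE ((n : ℝ) ^ (θ + ε))) n)) :
    ∀ ε : ℝ, 0 < ε → Str (fun n => P (GE ((n : ℝ) ^ (θ + ε))) n) := by
  intro ε hε
  obtain ⟨K, hK, N0, hR⟩ := R
  obtain ⟨N1, -, hN1⟩ := pow_cmp (a := θ + ε / 2) (b := θ + ε) (by linarith) (by linarith)
  refine str_trans (K := K) ?_ (h (ε / 2) (by linarith))
  filter_upwards [eventually_ge_atTop N0, eventually_ge_atTop N1] with n h0 h1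
  obtain ⟨m, h2, h3, h4⟩ := hR n h0 _ (GE_inv ((n : ℝ) ^ (θ + ε)))
  refine ⟨m, h2, h4.trans (mul_le_mul_of_nonneg_left ?_ (Real.exp_pos _).le)⟩
  refine hQ ((GE_thick _).trans (GE_mono ?_)) m
  have := hN1 m n h1 h3
  linarith

/-- lower tails -/
theorem str_LE {P Q : Set (Set ℂ) → ℕ → ℝ} (R : Rel P Q)
    (hP : ∀ {E E' : Set (Set ℂ)}, E ⊆ E' → ∀ n, P E n ≤ P E' n)
    (hQ : ∀ {E E' : Set (Set ℂ)}, E ⊆ E' → ∀ n, Q E n ≤ Q E' n) {θ : ℝ} (hθ : 0 < θ)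
    (h : ∀ ε : ℝ, 0 < ε → Str (fun n => Q (LE ((n : ℝ) ^ (θ - ε))) n)) :
    ∀ ε : ℝ, 0 < ε → Str (fun n => P (LE ((n : ℝ) ^ (θ - ε))) n) := by
  have small : ∀ ε : ℝ, 0 < ε → ε < θ → Str (fun n => P (LE ((n : ℝ) ^ (θ - ε))) n) := by
    intro ε hε hεθ
    obtain ⟨K, hK, N0, hR⟩ := R
    obtain ⟨N1, -, hN1⟩ := pow_cmp (a := θ - ε) (b := θ - ε / 2) (by linarith) (by linarith)
    refine str_trans (K := K) ?_ (h (ε / 2) (by linarith))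
    filter_upwards [eventually_ge_atTop N0, eventually_ge_atTop (7 * N1)] with n h0 h1
    obtain ⟨m, h2, h3, h4⟩ := hR n h0 _ (LE_inv ((n : ℝ) ^ (θ - ε)))
    refine ⟨m, h2, h4.trans (mul_le_mul_of_nonneg_left ?_ (Real.exp_pos _).le)⟩
    refine hQ ((LE_thick _).trans (LE_mono ?_)) m
    exact hN1 n m (by omega) h2
  intro ε hε
  rcases lt_or_ge ε θ with h1 | h1
  · exact small ε hε h1
  · obtain ⟨δ, hδ, h2⟩ := small (θ / 2) (by linarith) (by linarith)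
    refine ⟨δ, hδ, ?_⟩
    filter_upwards [h2, eventually_ge_atTop 1] with n h3 hn
    refine (hP (LE_mono ?_) n).trans h3
    exact Real.rpow_le_rpow_of_exponent_le (by exact_mod_cast hn) (by linarith)

/-! ### convergence to zero -/

lemma lim_trans {T T' : ℕ → ℝ} {C : ℝ} (hT : ∀ n, 0 ≤ T n) (hC : 0 ≤ C)
    (h : ∀ᶠ n : ℕ in atTop, ∃ m : ℕ, n ≤ 7 * m ∧ T n ≤ C * T' m)
    (h' : Tendsto T' atTop (𝓝 0)) : Tendsto T atTop (𝓝 0) := by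
  rw [Metric.tendsto_atTop]
  intro ε hε
  have hε' : 0 < ε / (C + 1) := by positivity
  obtain ⟨N1, hN1⟩ := eventually_atTop.1 (h'.eventually_lt_const hε')
  obtain ⟨N2, hN2⟩ := eventually_atTop.1 h
  refine ⟨max N2 (7 * N1), fun n hn => ?_⟩
  obtain ⟨m, h1, h2⟩ := hN2 n ((le_max_left _ _).trans hn)
  have h3 := hN1 m (by have := (le_max_right _ _).trans hn; omega)
  rw [Real.dist_eq, sub_zero, abs_of_nonneg (hT n)]
  calc T n ≤ C * T' m := h2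
    _ ≤ C * (ε / (C + 1)) := mul_le_mul_of_nonneg_left h3.le hC
    _ < ε := by
      rw [← mul_div_assoc, div_lt_iff₀ (by positivity)]
      nlinarith

theorem lim_GE {θ : ℝ} (hθ : 0 < θ)
    (h : ∀ ε : ℝ, 0 < ε → Tendsto (fun n : ℕ => PrH (GE ((n : ℝ) ^ (θ + ε))) n) atTop (𝓝 0)) :
    ∀ ε : ℝ, 0 < ε → Tendsto (fun n : ℕ => PrF (GE ((n : ℝ) ^ (θ + ε))) n) atTop (𝓝 0) := by
  intro ε hε
  obtain ⟨C, hC, hR⟩ := PrF_le
  obtain ⟨N1, -, hN1⟩ := pow_cmp (a := θ + ε / 2) (b := θ + ε) (by linarith) (by linarith)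
  refine lim_trans (C := C) (fun n => PrF_nonneg _ _) hC.le ?_ (h (ε / 2) (by linarith))
  filter_upwards [eventually_ge_atTop 5, eventually_ge_atTop N1] with n h0 h1
  obtain ⟨m, h2, h3, h4⟩ := hR _ (GE_inv ((n : ℝ) ^ (θ + ε))) n (by omega)
  refine ⟨m, by omega, h4.trans (mul_le_mul_of_nonneg_left ?_ hC.le)⟩
  refine PrH_mono ((GE_thick _).trans (GE_mono ?_)) m
  have := hN1 m n h1 (by omega)
  linarith

theorem lim_LE {θ : ℝ} (hθ : 0 < θ)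
    (h : ∀ ε : ℝ, 0 < ε → Tendsto (fun n : ℕ => PrH (LE ((n : ℝ) ^ (θ - ε))) n) atTop (𝓝 0)) :
    ∀ ε : ℝ, 0 < ε → Tendsto (fun n : ℕ => PrF (LE ((n : ℝ) ^ (θ - ε))) n) atTop (𝓝 0) := by
  have small : ∀ ε : ℝ, 0 < ε → ε < θ →
      Tendsto (fun n : ℕ => PrF (LE ((n : ℝ) ^ (θ - ε))) n) atTop (𝓝 0) := by
    intro ε hε hεθ
    obtain ⟨C, hC, hR⟩ := PrF_le
    obtain ⟨N1, -, hN1⟩ := pow_cmp (a := θ - ε) (b := θ - ε / 2) (by linarith) (by linarith)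
    refine lim_trans (C := C) (fun n => PrF_nonneg _ _) hC.le ?_ (h (ε / 2) (by linarith))
    filter_upwards [eventually_ge_atTop 5, eventually_ge_atTop (7 * N1)] with n h0 h1
    obtain ⟨m, h2, h3, h4⟩ := hR _ (LE_inv ((n : ℝ) ^ (θ - ε))) n (by omega)
    refine ⟨m, by omega, h4.trans (mul_le_mul_of_nonneg_left ?_ hC.le)⟩
    refine PrH_mono ((LE_thick _).trans (LE_mono ?_)) m
    exact hN1 n m (by omega) (by omega)
  intro ε hε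
  rcases lt_or_ge ε θ with h1 | h1
  · exact small ε hε h1
  · refine squeeze_zero' (Filter.Eventually.of_forall fun n => PrF_nonneg _ _) ?_
      (small (θ / 2) (by linarith) (by linarith))
    filter_upwards [eventually_ge_atTop 1] with n hn
    exact PrF_mono (LE_mono (Real.rpow_le_rpow_of_exponent_le (by exact_mod_cast hn)
      (by linarith))) n

end Pool.Agent.D0H94.T12
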