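import Pool.Agent.D0H94.T12.E6

/-!
# The diameter: transfer of the concentration
-/

set_option autoImplicit false
set_option linter.unusedVariables false

namespace Pool.Agent.D0H94.T12

open Filter Topology Finset

lemma PrH_add {E E' : Set (Set ℂ)} (h : ∀ A, A ∈ E → A ∉ E') (n : ℕ) :
    PrH E n + PrH E' n ≤ 1 := by
  unfold PrH
  rw [← add_div, div_le_one (aH_pos n)]
  have h1 : cH E n + cH E' n ≤ aH n := by
    rw [← cardH n]
    unfold cH
    rw [← Set.ncard_union_eq ?_ ((finWH n).subset fun _ h => h.1)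
      ((finWH n).subset fun _ h => h.1)]
    · refine Set.ncard_le_ncard ?_ (finWH n)
      rintro ω (h | h)
      · exact h.1
      · exact h.1
    · rw [Set.disjoint_left]
      rintro ω h1 h2
      exact h _ h1.2 h2.2
  exact_mod_cast h1

lemma PrF_cover {E1 E2 E3 : Set (Set ℂ)} (n : ℕ) (h : ∀ ω : Fin (n + 1) → ℂ,
    Set.range ω ∈ E1 ∨ Set.range ω ∈ E2 ∨ Set.range ω ∈ E3) :
    1 ≤ PrF E1 n + PrF E2 n + PrF E3 n := by
  unfold PrF
  rw [← add_div, ← add_div, one_le_div (aF_pos' n)]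
  have h1 : aF n ≤ cF E1 n + cF E2 n + cF E3 n := by
    rw [← cardF n]
    unfold cF
    refine (Set.ncard_le_ncard ?_ ?_).trans ((Set.ncard_union_le _ _).trans
      (Nat.add_le_add_right (Set.ncard_union_le _ _) _))
    · intro ω hω
      rcases h ω with h | h | h
      · exact Or.inl (Or.inl ⟨hω, h⟩)
      · exact Or.inl (Or.inr ⟨hω, h⟩)
      · exact Or.inr ⟨hω, h⟩
    · refine Set.Finite.union (Set.Finite.union ?_ ?_) ?_ <;>
        exact (finWF n).subset fun _ h => h.1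
  exact_mod_cast h1

lemma PrF_le_one (E : Set (Set ℂ)) (n : ℕ) : PrF E n ≤ 1 := by
  unfold PrF
  rw [div_le_one (aF_pos' n)]
  have h1 : cF E n ≤ aF n := by
    rw [← cardF n]
    exact Set.ncard_le_ncard (fun ω h => h.1) (finWF n)
  exact_mod_cast h1

/-- the sets with diameter in an interval -/
def Win (x y : ℝ) : Set (Set ℂ) := GE x ∩ LE y

lemma GE_LE {x y : ℝ} (h : x < y) (A : Set ℂ) (hA : A ∈ GE y) : A ∉ LE x := by
  intro h2
  obtain ⟨a, ha, b, hb, h1⟩ := hA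
  have := h2 a ha b hb
  linarith

theorem conc_trans {θ : ℝ} (hθ : 0 < θ)
    (h : ∀ ε : ℝ, 0 < ε → Tendsto (fun n : ℕ =>
      PrH (Win ((n : ℝ) ^ (θ - ε)) ((n : ℝ) ^ (θ + ε))) n) atTop (𝓝 1)) :
    ∀ ε : ℝ, 0 < ε → Tendsto (fun n : ℕ =>
      PrF (Win ((n : ℝ) ^ (θ - ε)) ((n : ℝ) ^ (θ + ε))) n) atTop (𝓝 1) := by
  have hlt : ∀ {a b : ℝ} {n : ℕ}, a < b → 2 ≤ n → (n : ℝ) ^ a < (n : ℝ) ^ b := by
    intro a b n hab hn
    exact Real.rpow_lt_rpow_of_exponent_lt (by exact_mod_cast (show 1 < n by omega)) hab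
  have g1 : ∀ ε : ℝ, 0 < ε →
      Tendsto (fun n : ℕ => PrH (GE ((n : ℝ) ^ (θ + ε))) n) atTop (𝓝 0) := by
    intro ε hε
    have t := (h (ε / 2) (by linarith)).const_sub 1
    rw [sub_self] at t
    refine squeeze_zero' (Filter.Eventually.of_forall fun n => PrH_nonneg _ _) ?_ t
    filter_upwards [eventually_ge_atTop 2] with n hn
    have := PrH_add (E := GE ((n : ℝ) ^ (θ + ε)))
      (E' := Win ((n : ℝ) ^ (θ - ε / 2)) ((n : ℝ) ^ (θ + ε / 2)))
      (fun A hA hA' => GE_LE (hlt (by linarith) hn) A hA hA'.2) n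
    linarith
  have g2 : ∀ ε : ℝ, 0 < ε →
      Tendsto (fun n : ℕ => PrH (LE ((n : ℝ) ^ (θ - ε))) n) atTop (𝓝 0) := by
    intro ε hε
    have t := (h (ε / 2) (by linarith)).const_sub 1
    rw [sub_self] at t
    refine squeeze_zero' (Filter.Eventually.of_forall fun n => PrH_nonneg _ _) ?_ t
    filter_upwards [eventually_ge_atTop 2] with n hn
    have := PrH_add (E := LE ((n : ℝ) ^ (θ - ε)))
      (E' := Win ((n : ℝ) ^ (θ - ε / 2)) ((n : ℝ) ^ (θ + ε / 2)))
      (fun A hA hA' => GE_LE (hlt (show θ - ε < θ - ε / 2 by linarith) hn) A hA'.1 hA) n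
    linarith
  intro ε hε
  have k1 := lim_GE hθ g1 ε hε
  have k2 := lim_LE hθ g2 ε hε
  have k3 := (k1.add k2).const_sub 1
  rw [add_zero, sub_zero] at k3
  refine tendsto_of_tendsto_of_tendsto_of_le_of_le k3 tendsto_const_nhds ?_ ?_
  · intro n
    have := PrF_cover (E1 := Win ((n : ℝ) ^ (θ - ε)) ((n : ℝ) ^ (θ + ε)))
      (E2 := GE ((n : ℝ) ^ (θ + ε))) (E3 := LE ((n : ℝ) ^ (θ - ε))) n (fun ω => by
        rcases le_total ((n : ℝ) ^ (θ - ε)) (diam ω) with h1 | h1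
        · rcases le_total (diam ω) ((n : ℝ) ^ (θ + ε)) with h2 | h2
          · exact Or.inl ⟨(le_diam_iff ω _).1 h1, (diam_le_iff ω _).1 h2⟩
          · exact Or.inr (Or.inl ((le_diam_iff ω _).1 h2))
        · exact Or.inr (Or.inr ((diam_le_iff ω _).1 h1)))
    simp only
    linarith
  · intro n
    exact PrF_le_one _ _

end Pool.Agent.D0H94.T12
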