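import Mathlib

/-!
# Pairs of disjoint walks on a graph with a simply transitive group of symmetries
-/

set_option autoImplicit false
set_option linter.unusedVariables false

namespace Pool.Agent.D0H94.T12

/-- self-avoiding walks from `o` -/
def saw {α : Type*} (R : α → α → Prop) (o : α) (n : ℕ) : Set (Fin (n + 1) → α) :=
  {f | f 0 = o ∧ Function.Injective f ∧ ∀ i : Fin n, R (f i.castSucc) (f i.succ)}

/-- the symmetries: `g x` maps `x` to `o` -/
structure Sym {α : Type*} (R : α → α → Prop) (o : α) (v : α → Prop) (g : α → α → α) : Prop where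
  v0 : v o
  vR : ∀ {x y}, R x y → v y
  self : ∀ {x}, v x → g x x = o
  inj : ∀ {x}, v x → Function.Injective (g x)
  adj : ∀ {x y z}, v x → R y z → R (g x y) (g x z)
  back : ∀ {x}, v x → ∀ y, g (g x o) (g x y) = y
  symm : ∀ {x y}, R x y → R y x

variable {α : Type*} {R : α → α → Prop} {o : α} {v : α → Prop} {g : α → α → α}

lemma saw_v (G : Sym R o v g) {n : ℕ} {f : Fin (n + 1) → α} (hf : f ∈ saw R o n) (k : ℕ)
    (hk : k < n + 1) : v (f ⟨k, hk⟩) := by
  cases k with
  | zero =>
    have h0 : f ⟨0, hk⟩ = o := hf.1
    rw [h0]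
    exact G.v0
  | succ k => exact G.vR (hf.2.2 ⟨k, by omega⟩)

lemma sym_eq (G : Sym R o v g) {x x' : α} (hx : v x) (hx' : v x') (h : g x o = g x' o) :
    x = x' := by
  have h1 := G.back hx x
  have h2 := G.back hx' x'
  rw [G.self hx] at h1
  rw [G.self hx'] at h2
  rw [← h1, h, h2]

/-- initial and final piece of a walk -/
theorem saw_submul (G : Sym R o v g) (hfin : ∀ n, (saw R o n).Finite) (m n : ℕ) :
    (saw R o (m + n)).ncard ≤ (saw R o m).ncard * (saw R o n).ncard := by
  classical
  rw [← Set.ncard_prod]
  refine Set.ncard_le_ncard_of_injOn (fun f =>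
    (fun i : Fin (m + 1) => f ⟨i.1, by omega⟩,
     fun i : Fin (n + 1) => g (f ⟨m, by omega⟩) (f ⟨m + i.1, by omega⟩))) ?_ ?_
    ((hfin m).prod (hfin n))
  · intro f hf
    have hv := saw_v G hf m (by omega)
    refine ⟨⟨hf.1, ?_, ?_⟩, ⟨?_, ?_, ?_⟩⟩
    · intro i j hij
      have := hf.2.1 hij
      simp only [Fin.mk.injEq] at this
      exact Fin.ext this
    · intro i
      exact hf.2.2 ⟨i.1, by omega⟩
    · exact G.self hv
    · intro i j hij
      have := hf.2.1 (G.inj hv hij)
      simp only [Fin.mk.injEq] at this
      exact Fin.ext (by omega)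
    · intro i
      refine G.adj hv ?_
      exact hf.2.2 ⟨m + i.1, by omega⟩
  · intro f hf g' hg hfg
    have hv := saw_v G hf m (by omega)
    simp only [Prod.mk.injEq] at hfg
    obtain ⟨h1, h2⟩ := hfg
    have hm : f ⟨m, by omega⟩ = g' ⟨m, by omega⟩ := congrFun h1 ⟨m, by omega⟩
    funext i
    rcases Nat.lt_or_ge i.1 (m + 1) with hi | hi
    · exact congrFun h1 ⟨i.1, hi⟩
    · have h3 := congrFun h2 ⟨i.1 - m, by omega⟩
      simp only [← hm] at h3
      have h4 := G.inj hv h3
      have e : m + (i.1 - m) = i.1 := by omega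
      simp only [e] at h4
      exact h4

/-- pairs of walks which only meet at `o` -/
def dprs (R : α → α → Prop) (o : α) (n : ℕ) : Set ((Fin (n + 1) → α) × (Fin (n + 1) → α)) :=
  {p | p.1 ∈ saw R o n ∧ p.2 ∈ saw R o n ∧ ∀ i j : Fin (n + 1), i ≠ 0 → p.1 i ≠ p.2 j}

theorem card_dprs (G : Sym R o v g) (n : ℕ) : (dprs R o n).ncard = (saw R o (n + n)).ncard := by
  classical
  refine Set.ncard_congr (fun p _ => fun k : Fin (n + n + 1) =>
    g (p.1 (Fin.last n)) (if h : k.1 ≤ n then p.1 ⟨n - k.1, by omega⟩
      else p.2 ⟨k.1 - n, by omega⟩)) ?_ ?_ ?_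
  · rintro ⟨f, f'⟩ ⟨hf, hg, hd⟩
    simp only at hf hg hd ⊢
    have hpar := saw_v G hf n (by omega)
    have hlast : f (Fin.last n) = f ⟨n, by omega⟩ := rfl
    rw [← hlast] at hpar
    refine ⟨?_, ?_, ?_⟩
    · simp only [Fin.val_zero, Nat.zero_le, Nat.sub_zero]
      exact G.self hpar
    · intro i j hij
      have h1 := G.inj hpar hij
      by_cases hi : i.1 ≤ n <;> by_cases hj : j.1 ≤ n
      · rw [dif_pos hi, dif_pos hj] at h1
        have h2 := hf.2.1 h1
        simp only [Fin.mk.injEq] at h2
        exact Fin.ext (by omega)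
      · rw [dif_pos hi, dif_neg hj] at h1
        exfalso
        by_cases h0 : n - i.1 = 0
        · have e : f ⟨n - i.1, by omega⟩ = o := by
            have : (⟨n - i.1, by omega⟩ : Fin (n + 1)) = 0 := Fin.ext h0
            rw [this]
            exact hf.1
          rw [e, ← hg.1] at h1
          have h2 := hg.2.1 h1
          have h3 := congrArg Fin.val h2
          simp only [Fin.val_zero] at h3
          omega
        · exact hd ⟨n - i.1, by omega⟩ ⟨j.1 - n, by omega⟩
            (fun h => h0 (by have := congrArg Fin.val h; simpa using this)) h1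
      · rw [dif_neg hi, dif_pos hj] at h1
        exfalso
        by_cases h0 : n - j.1 = 0
        · have e : f ⟨n - j.1, by omega⟩ = o := by
            have : (⟨n - j.1, by omega⟩ : Fin (n + 1)) = 0 := Fin.ext h0
            rw [this]
            exact hf.1
          rw [e, ← hg.1] at h1
          have h2 := hg.2.1 h1
          have h3 := congrArg Fin.val h2
          simp only [Fin.val_zero] at h3
          omega
        · exact hd ⟨n - j.1, by omega⟩ ⟨i.1 - n, by omega⟩
            (fun h => h0 (by have := congrArg Fin.val h; simpa using this)) h1.symm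
      · rw [dif_neg hi, dif_neg hj] at h1
        have h2 := hg.2.1 h1
        simp only [Fin.mk.injEq] at h2
        exact Fin.ext (by omega)
    · intro i
      refine G.adj hpar ?_
      simp only [Fin.val_castSucc, Fin.val_succ]
      rcases lt_trichotomy i.1 n with hi | hi | hi
      · rw [dif_pos (by omega), dif_pos (by omega)]
        have h1 := hf.2.2 ⟨n - (i.1 + 1), by omega⟩
        simp only [Fin.castSucc_mk, Fin.succ_mk] at h1
        have e : n - (i.1 + 1) + 1 = n - i.1 := by omega
        simp only [e] at h1
        exact G.symm h1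
      · rw [dif_pos (by omega), dif_neg (by omega)]
        have h1 := hg.2.2 ⟨0, by omega⟩
        simp only [Fin.castSucc_mk, Fin.succ_mk] at h1
        have e1 : f ⟨n - i.1, by omega⟩ = o := by
          have : (⟨n - i.1, by omega⟩ : Fin (n + 1)) = 0 := Fin.ext (by simp; omega)
          rw [this]
          exact hf.1
        have e2 : f' ⟨0, by omega⟩ = o := hg.1
        rw [e1]
        rw [e2] at h1
        have e3 : i.1 + 1 - n = 0 + 1 := by omega
        simp only [e3]
        exact h1
      · rw [dif_neg (by omega), dif_neg (by omega)]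
        have h1 := hg.2.2 ⟨i.1 - n, by omega⟩
        simp only [Fin.castSucc_mk, Fin.succ_mk] at h1
        have e : i.1 - n + 1 = i.1 + 1 - n := by omega
        simp only [e] at h1
        exact h1
  · rintro ⟨f, g1⟩ ⟨f', g1'⟩ ⟨hf, hg, hd⟩ ⟨hf', hg', hd'⟩ heq
    simp only at hf hg hf' hg' heq
    have hv : v (f (Fin.last n)) := saw_v G hf n (by omega)
    have hv' : v (f' (Fin.last n)) := saw_v G hf' n (by omega)
    -- the point at time `n` determines the end of `f`
    have hn := congrFun heq ⟨n, by omega⟩
    simp only [le_refl, dite_true, Nat.sub_self] at hn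
    have e1 : f ⟨0, by omega⟩ = o := hf.1
    have e2 : f' ⟨0, by omega⟩ = o := hf'.1
    rw [e1, e2] at hn
    have hu : f (Fin.last n) = f' (Fin.last n) := sym_eq G hv hv' hn
    rw [hu] at heq
    have hff : f = f' := by
      funext i
      have h1 := congrFun heq ⟨n - i.1, by omega⟩
      simp only at h1
      have h2 := G.inj hv' h1
      rw [dif_pos (by omega), dif_pos (by omega)] at h2
      have e : n - (n - i.1) = i.1 := by omega
      simp only [e] at h2
      exact h2
    have hgg : g1 = g1' := by
      funext i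
      by_cases hi : i.1 = 0
      · have : i = 0 := Fin.ext hi
        rw [this, hg.1, hg'.1]
      · have h1 := congrFun heq ⟨n + i.1, by omega⟩
        simp only at h1
        have h2 := G.inj hv' h1
        rw [dif_neg (by omega), dif_neg (by omega)] at h2
        have e : n + i.1 - n = i.1 := by omega
        simp only [e] at h2
        exact h2
    rw [hff, hgg]
  · intro F hF
    have hpar := saw_v G hF n (by omega)
    refine ⟨(fun i : Fin (n + 1) => g (F ⟨n, by omega⟩) (F ⟨n - i.1, by omega⟩),
      fun i : Fin (n + 1) => g (F ⟨n, by omega⟩) (F ⟨n + i.1, by omega⟩)), ⟨⟨?_, ?_, ?_⟩,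
        ⟨?_, ?_, ?_⟩, ?_⟩, ?_⟩
    · simp only [Fin.val_zero, Nat.sub_zero]
      exact G.self hpar
    · intro i j hij
      have := hF.2.1 (G.inj hpar hij)
      simp only [Fin.mk.injEq] at this
      have := i.2
      have := j.2
      exact Fin.ext (by omega)
    · intro i
      refine G.adj hpar ?_
      simp only [Fin.val_castSucc, Fin.val_succ]
      have h1 := hF.2.2 ⟨n - (i.1 + 1), by omega⟩
      simp only [Fin.castSucc_mk, Fin.succ_mk] at h1
      have e : n - (i.1 + 1) + 1 = n - i.1 := by omega
      simp only [e] at h1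
      exact G.symm h1
    · simp only [Fin.val_zero, Nat.add_zero]
      exact G.self hpar
    · intro i j hij
      have := hF.2.1 (G.inj hpar hij)
      simp only [Fin.mk.injEq] at this
      exact Fin.ext (by omega)
    · intro i
      refine G.adj hpar ?_
      simp only [Fin.val_castSucc, Fin.val_succ]
      have h1 := hF.2.2 ⟨n + i.1, by omega⟩
      exact h1
    · intro i j hi hij
      simp only at hij
      have h3 := hF.2.1 (G.inj hpar hij)
      simp only [Fin.mk.injEq] at h3
      have h4 := i.2
      exact hi (Fin.ext (by simp only [Fin.val_zero]; omega))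
    · funext k
      simp only [Fin.val_last, Nat.sub_self]
      have e0 : g (F ⟨n, by omega⟩) (F ⟨0, by omega⟩) = g (F ⟨n, by omega⟩) o := by
        have : F ⟨0, by omega⟩ = o := hF.1
        rw [this]
      rw [e0]
      split_ifs with hk
      · have e : n - (n - k.1) = k.1 := by omega
        simp only [e]
        exact G.back hpar _
      · have e : n + (k.1 - n) = k.1 := by omega
        simp only [e]
        exact G.back hpar _

end Pool.Agent.D0H94.T12
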