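import Pool.Agent.D0H94.T12.Geo
import Pool.Agent.D0H94.T12.Pairs

/-!
# The two lattices as sets of points of the plane
-/

set_option autoImplicit false
set_option linter.unusedVariables false

namespace Pool.Agent.D0H94.T12

/-- self-avoiding walks of `n` steps of length `d` on the set `S`, from `o` -/
def wlk (S : Set ℂ) (d : ℝ) (o : ℂ) (n : ℕ) : Set (Fin (n + 1) → ℂ) :=
  {ω | ω 0 = o ∧ (∀ i, ω i ∈ S) ∧ (∀ i : Fin n, ‖ω i.succ - ω i.castSucc‖ = d) ∧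
    Function.Injective ω}

/-- coordinates of a lattice -/
structure Emb {α : Type*} (R : α → α → Prop) (v : α → Prop) (o' : α) (φ : α → ℂ) (S : Set ℂ)
    (d : ℝ) (o : ℂ) : Prop where
  inj : ∀ {x y}, v x → v y → φ x = φ y → x = y
  adj : ∀ {x y}, v x → v y → (R x y ↔ ‖φ y - φ x‖ = d)
  vR : ∀ {x y}, R x y → v y
  S : ∀ z, z ∈ S ↔ ∃ x, v x ∧ φ x = z
  o : φ o' = o
  v0 : v o'

section emb

variable {α : Type*} {R : α → α → Prop} {v : α → Prop} {o' : α} {φ : α → ℂ} {S : Set ℂ}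
  {d : ℝ} {o : ℂ}

lemma emb_v (E : Emb R v o' φ S d o) {n : ℕ} {f : Fin (n + 1) → α} (hf : f ∈ saw R o' n)
    (i : Fin (n + 1)) : v (f i) := by
  induction i using Fin.cases with
  | zero => rw [hf.1]; exact E.v0
  | succ i => exact E.vR (hf.2.2 i)

lemma emb_inj (E : Emb R v o' φ S d o) (n : ℕ) :
    Set.InjOn (fun (f : Fin (n + 1) → α) i => φ (f i)) (saw R o' n) := by
  intro f hf g hg h
  funext i
  exact E.inj (emb_v E hf i) (emb_v E hg i) (congrFun h i)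

theorem emb_image (E : Emb R v o' φ S d o) (n : ℕ) :
    wlk S d o n = (fun (f : Fin (n + 1) → α) i => φ (f i)) '' saw R o' n := by
  ext ω
  constructor
  · rintro ⟨h0, h1, h2, h3⟩
    have h1' : ∀ i, ∃ x, v x ∧ φ x = ω i := fun i => (E.S _).1 (h1 i)
    choose f hv hf using h1'
    refine ⟨f, ⟨?_, ?_, ?_⟩, funext hf⟩
    · apply E.inj (hv 0) E.v0
      rw [hf, h0, E.o]
    · intro i j hij
      apply h3
      rw [← hf, ← hf, hij]
    · intro i
      rw [E.adj (hv _) (hv _), hf, hf]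
      exact h2 i
  · rintro ⟨f, hf, rfl⟩
    have hv := emb_v E hf
    obtain ⟨h0, h1, h2⟩ := id hf
    refine ⟨?_, ?_, ?_, ?_⟩
    · simp only
      rw [h0, E.o]
    · intro i
      exact (E.S _).2 ⟨f i, hv i, rfl⟩
    · intro i
      exact (E.adj (hv _) (hv _)).1 (h2 i)
    · intro i j hij
      exact h1 (E.inj (hv i) (hv j) hij)

theorem emb_card (E : Emb R v o' φ S d o) (n : ℕ) :
    (wlk S d o n).ncard = (saw R o' n).ncard := by
  rw [emb_image E, (emb_inj E n).ncard_image]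

theorem emb_pairs (E : Emb R v o' φ S d o) (n : ℕ) :
    {p : (Fin (n + 1) → ℂ) × (Fin (n + 1) → ℂ) | p.1 ∈ wlk S d o n ∧ p.2 ∈ wlk S d o n ∧
      ∀ i j, i ≠ 0 → p.1 i ≠ p.2 j}.ncard = (dprs R o' n).ncard := by
  have e : {p : (Fin (n + 1) → ℂ) × (Fin (n + 1) → ℂ) | p.1 ∈ wlk S d o n ∧ p.2 ∈ wlk S d o n ∧
      ∀ i j, i ≠ 0 → p.1 i ≠ p.2 j} =
      (fun p : (Fin (n + 1) → α) × (Fin (n + 1) → α) =>
        ((fun i => φ (p.1 i)), (fun i => φ (p.2 i)))) '' dprs R o' n := by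
    ext ⟨w, w'⟩
    constructor
    · rintro ⟨h1, h2, h3⟩
      simp only at h1 h2 h3
      rw [emb_image E] at h1 h2
      obtain ⟨f, hf, rfl⟩ := h1
      obtain ⟨f', hf', rfl⟩ := h2
      refine ⟨(f, f'), ⟨hf, hf', fun i j hi hij => h3 i j hi ?_⟩, rfl⟩
      simp only at hij ⊢
      rw [hij]
    · rintro ⟨⟨f, f'⟩, ⟨h1, h2, h3⟩, h4⟩
      simp only [Prod.mk.injEq] at h4
      obtain ⟨rfl, rfl⟩ := h4
      refine ⟨?_, ?_, ?_⟩
      · simp only
        rw [emb_image E]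
        exact ⟨f, h1, rfl⟩
      · simp only
        rw [emb_image E]
        exact ⟨f', h2, rfl⟩
      · intro i j hi hij
        exact h3 i j hi (E.inj (emb_v E h1 i) (emb_v E h2 j) hij)
  rw [e, Set.InjOn.ncard_image]
  rintro ⟨f, f'⟩ ⟨h1, h2, h3⟩ ⟨g, g'⟩ ⟨h4, h5, h6⟩ h
  simp only [Prod.mk.injEq] at h
  exact Prod.ext (emb_inj E n h1 h4 h.1) (emb_inj E n h2 h5 h.2)

end emb

/-! ### the honeycomb lattice -/

/-- `e^{iπ/3}` -/
noncomputable def ww : ℂ := ⟨1 / 2, √3 / 2⟩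

/-- position -/
noncomputable def ps (p : P2) : ℂ := p.1 + p.2 * ww

/-- norm form -/
def NN (p : P2) : ℤ := p.1 ^ 2 + p.1 * p.2 + p.2 ^ 2

/-- bilinear form -/
def TT2 (p r : P2) : ℤ := 2 * p.1 * r.1 + p.1 * r.2 + p.2 * r.1 + 2 * p.2 * r.2

lemma s3 : √3 * √3 = (3 : ℝ) := Real.mul_self_sqrt (by norm_num)

lemma nsq (A B : P2) (t : ℝ) : ‖ps A + t * ps B‖ ^ 2 =
    (NN A : ℝ) + t * (TT2 A B : ℝ) + t ^ 2 * (NN B : ℝ) := by
  rw [Complex.sq_norm, Complex.normSq_apply]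
  unfold ps ww NN TT2
  simp only [Complex.add_re, Complex.add_im, Complex.mul_re, Complex.mul_im, Complex.intCast_re,
    Complex.intCast_im, Complex.ofReal_re, Complex.ofReal_im]
  push_cast
  linear_combination ((A.2 : ℝ) + t * B.2) ^ 2 / 4 * s3

lemma ps_sub (A B : P2) : ps A - ps B = ps (A - B) := by
  unfold ps
  simp only [Prod.fst_sub, Prod.snd_sub]
  push_cast
  ring

lemma ps_zero' : ps 0 = 0 := by simp [ps]

lemma nsq0 (A : P2) : ‖ps A‖ ^ 2 = (NN A : ℝ) := by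
  have := nsq A 0 0
  simpa using this

lemma NN_nonneg (A : P2) : 0 ≤ NN A := by
  unfold NN
  nlinarith [sq_nonneg (2 * A.1 + A.2), sq_nonneg A.2]

lemma NN_zero {A : P2} (h : NN A = 0) : A = 0 := by
  obtain ⟨a, b⟩ := A
  unfold NN at h
  simp only at h
  have h1 : b ^ 2 ≤ 0 := by nlinarith [sq_nonneg (2 * a + b)]
  have h2 : a ^ 2 ≤ 0 := by nlinarith [sq_nonneg (2 * b + a)]
  have hb : b = 0 := pow_eq_zero_iff (n := 2) (by norm_num) |>.mp (le_antisymm h1 (sq_nonneg b))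
  have ha : a = 0 := pow_eq_zero_iff (n := 2) (by norm_num) |>.mp (le_antisymm h2 (sq_nonneg a))
  rw [ha, hb]; rfl

lemma ps_inj' : Function.Injective ps := by
  intro A B h
  have h1 : ‖ps (A - B)‖ ^ 2 = 0 := by rw [← ps_sub, h]; simp
  rw [nsq0] at h1
  exact sub_eq_zero.1 (NN_zero (by exact_mod_cast h1))

/-- the honeycomb lattice -/
def hexS : Set ℂ := {z | ∃ a b : ℤ, (a - b) % 3 ≠ 2 ∧ z = a + b * ww}

lemma norm_one {A : P2} : ‖ps A‖ = 1 ↔ NN A = 1 := by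
  have h := nsq0 A
  constructor
  · intro h1
    rw [h1] at h
    have : (1 : ℝ) = (NN A : ℝ) := by rw [← h]; norm_num
    exact_mod_cast this.symm
  · intro h1
    rw [h1] at h
    have := norm_nonneg (ps A)
    push_cast at h
    nlinarith

theorem embH : Emb Hx (fun p => (p.1 - p.2) % 3 ≠ 2) (0, 0) ps hexS 1 0 where
  inj := fun _ _ h => ps_inj' h
  adj := by
    intro x y hx hy
    rw [ps_sub, norm_one]
    constructor
    · intro h; exact h.1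
    · intro h; exact ⟨h, hx, hy⟩
  vR := fun h => h.2.2
  S := by
    intro z
    constructor
    · rintro ⟨a, b, h1, h2⟩
      exact ⟨(a, b), h1, h2.symm⟩
    · rintro ⟨⟨a, b⟩, h1, h2⟩
      exact ⟨a, b, h1, h2.symm⟩
  o := ps_zero'
  v0 := by norm_num

/-! ### the (3.12²) lattice -/

/-- the ratio -/
noncomputable def tt : ℝ := 2 - √3

/-- position -/
noncomputable def pt (x : P2 × P2) : ℂ := ps x.1 + tt * ps (x.2 - x.1)

lemma tt_sq : tt ^ 2 = 4 * tt - 1 := by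
  unfold tt
  linear_combination s3

lemma tt_irr {a b : ℤ} (h : (a : ℝ) + b * tt = 0) : a = 0 ∧ b = 0 := by
  have hb : b = 0 := by
    by_contra hb
    have hb' : (b : ℝ) ≠ 0 := by exact_mod_cast hb
    have h1 : √3 = ((2 + (a : ℚ) / b : ℚ) : ℝ) := by
      push_cast
      unfold tt at h
      field_simp
      linarith
    have h2 : Irrational √(3 : ℕ) := Nat.Prime.irrational_sqrt (by norm_num)
    apply h2
    refine ⟨2 + (a : ℚ) / b, ?_⟩
    rw [← h1]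
    norm_num
  rw [hb] at h
  simp only [Int.cast_zero, zero_mul, add_zero] at h
  exact ⟨by exact_mod_cast h, hb⟩

lemma pt_sub (x y : P2 × P2) : pt y - pt x =
    ps (y.1 - x.1) + tt * ps ((y.2 - y.1) - (x.2 - x.1)) := by
  have e1 : ps (y.1 - x.1) = ps y.1 - ps x.1 := (ps_sub _ _).symm
  have e2 : ps ((y.2 - y.1) - (x.2 - x.1)) = ps (y.2 - y.1) - ps (x.2 - x.1) :=
    (ps_sub _ _).symm
  unfold pt
  rw [e1, e2]
  ring

lemma pt_nsq (x y : P2 × P2) : ‖pt y - pt x‖ ^ 2 =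
    ((NN (y.1 - x.1) - NN ((y.2 - y.1) - (x.2 - x.1)) : ℤ) : ℝ) +
    ((TT2 (y.1 - x.1) ((y.2 - y.1) - (x.2 - x.1)) +
      4 * NN ((y.2 - y.1) - (x.2 - x.1)) : ℤ) : ℝ) * tt := by
  rw [pt_sub, nsq, tt_sq]
  push_cast
  ring

lemma pt_inj {x y : P2 × P2} (h : pt x = pt y) : x = y := by
  have h1 := pt_nsq x y
  rw [h, sub_self, norm_zero] at h1
  obtain ⟨h2, h3⟩ := tt_irr (by rw [← h1]; norm_num)
  obtain ⟨A, hA⟩ : ∃ A, A = y.1 - x.1 := ⟨_, rfl⟩
  obtain ⟨B, hB⟩ : ∃ B, B = (y.2 - y.1) - (x.2 - x.1) := ⟨_, rfl⟩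
  rw [← hA, ← hB] at h2 h3
  have h4 : NN (A + B) = NN A + TT2 A B + NN B := by
    unfold NN TT2
    simp only [Prod.fst_add, Prod.snd_add]
    ring
  have h5 := NN_nonneg (A + B)
  have h6 := NN_nonneg A
  have h7 : NN A = 0 := by omega
  have h8 : NN B = 0 := by omega
  have a1 := NN_zero h7
  have a2 := NN_zero h8
  rw [hA] at a1
  rw [hB] at a2
  have e1 : x.1 = y.1 := (sub_eq_zero.1 a1).symm
  have e2 := sub_eq_zero.1 a2
  rw [e1] at e2
  exact Prod.ext e1 (sub_left_inj.1 e2).symm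

lemma dd_sq : (2 * √3 - 3 : ℝ) ^ 2 = ((-3 : ℤ) : ℝ) + ((12 : ℤ) : ℝ) * tt := by
  unfold tt
  push_cast
  linear_combination 4 * s3

lemma dd_pos : (0 : ℝ) < 2 * √3 - 3 := by
  have : (1.6 : ℝ) < √3 := by
    rw [Real.lt_sqrt (by norm_num)]
    norm_num
  linarith

lemma norm_dd (x y : P2 × P2) : ‖pt y - pt x‖ = 2 * √3 - 3 ↔
    (NN (y.1 - x.1) - NN ((y.2 - y.1) - (x.2 - x.1)) = -3 ∧
    TT2 (y.1 - x.1) ((y.2 - y.1) - (x.2 - x.1)) + 4 * NN ((y.2 - y.1) - (x.2 - x.1)) = 12) := by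
  have h1 := pt_nsq x y
  constructor
  · intro h
    rw [h, dd_sq] at h1
    have h2 := tt_irr (a := -3 - (NN (y.1 - x.1) - NN ((y.2 - y.1) - (x.2 - x.1))))
      (b := 12 - (TT2 (y.1 - x.1) ((y.2 - y.1) - (x.2 - x.1)) +
        4 * NN ((y.2 - y.1) - (x.2 - x.1)))) (by
        push_cast at h1 ⊢
        linarith)
    omega
  · rintro ⟨h2, h3⟩
    rw [h2, h3, ← dd_sq] at h1
    exact (pow_left_inj₀ (norm_nonneg _) dd_pos.le (by norm_num)).1 h1

lemma zero2 {a b : ℤ} (h : a ^ 2 + a * b + b ^ 2 = 0) : a = 0 ∧ b = 0 := by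
  have := NN_zero (A := (a, b)) h
  exact ⟨congrArg Prod.fst this, congrArg Prod.snd this⟩

lemma adj_pt {x y : P2 × P2} (hx : Hx x.1 x.2) (hy : Hx y.1 y.2) :
    AF Hx x y ↔ ‖pt y - pt x‖ = 2 * √3 - 3 := by
  rw [norm_dd]
  obtain ⟨⟨a, b⟩, ⟨c, d⟩⟩ := x
  obtain ⟨⟨a', b'⟩, ⟨c', d'⟩⟩ := y
  have hx' := Hx_cases hx
  have hy' := Hx_cases hy
  unfold AF
  simp only [hx, hy, true_and, NN, TT2, Prod.mk_sub_mk, ne_eq, Prod.mk.injEq] at hx' hy' ⊢
  constructor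
  · intro h
    rcases h with ⟨⟨e1, e2⟩, e3⟩ | ⟨⟨e1, e2⟩, e3, e4⟩
    · subst e1
      subst e2
      rcases hx' with ⟨m, k | k | k⟩ | ⟨m, k | k | k⟩ <;>
        rcases hy' with ⟨m', k' | k' | k'⟩ | ⟨m', k' | k' | k'⟩ <;>
        first
        | (exfalso; omega)
        | (obtain ⟨k1, k2⟩ := k
           obtain ⟨k3, k4⟩ := k'
           subst k1 k2 k3 k4
           constructor <;> ring)
    · subst e1 e2 e3 e4
      rcases hx' with ⟨m, k | k | k⟩ | ⟨m, k | k | k⟩ <;>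
        (obtain ⟨k1, k2⟩ := k
         subst k1 k2
         constructor <;> ring)
  · rintro ⟨h1, h2⟩
    obtain ⟨p, hp⟩ : ∃ p, p = a' - a := ⟨_, rfl⟩
    obtain ⟨q, hq⟩ : ∃ q, q = b' - b := ⟨_, rfl⟩
    obtain ⟨e, he⟩ : ∃ e, e = c' - a' - (c - a) := ⟨_, rfl⟩
    obtain ⟨f, hf⟩ : ∃ f, f = d' - b' - (d - b) := ⟨_, rfl⟩
    rw [← hp, ← hq, ← he, ← hf] at h1 h2
    have hnn : 0 ≤ p ^ 2 + p * q + q ^ 2 := by
      nlinarith [sq_nonneg (2 * p + q), sq_nonneg q]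
    have e1 : -2 ≤ e := by omega
    have e2 : e ≤ 2 := by omega
    have f1 : -2 ≤ f := by omega
    have f2 : f ≤ 2 := by omega
    interval_cases e <;> interval_cases f <;>
      first
      | (exfalso; linarith)
      | (exfalso; omega)
      | (have h3 : p ^ 2 + p * q + q ^ 2 = 0 := by linarith
         obtain ⟨k1, k2⟩ := zero2 h3
         omega)
      | (have h3 : p ^ 2 + p * q + q ^ 2 = 1 := by linarith
         rcases units h3 with ⟨k1, k2⟩ | ⟨k1, k2⟩ | ⟨k1, k2⟩ | ⟨k1, k2⟩ | ⟨k1, k2⟩ | ⟨k1, k2⟩ <;>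
           omega)

/-- the vertex set of the (3.12²) lattice: on each edge of the honeycomb lattice, the two points
at distance `2 - √3` from an endpoint -/
def dodS : Set ℂ := {z | ∃ p ∈ hexS, ∃ q ∈ hexS, ‖q - p‖ = 1 ∧ z = p + (2 - √3 : ℝ) * (q - p)}

theorem embF : Emb (AF Hx) (fun x => Hx x.1 x.2) ((0, 0), (1, 0)) pt dodS (2 * √3 - 3)
    ((2 - √3 : ℝ) : ℂ) where
  inj := fun _ _ h => pt_inj h
  adj := fun hx hy => adj_pt hx hy
  vR := fun h => h.2.1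
  S := by
    intro z
    constructor
    · rintro ⟨p, hp, q, hq, h1, h2⟩
      obtain ⟨x, hx, rfl⟩ := (embH.S p).1 hp
      obtain ⟨y, hy, rfl⟩ := (embH.S q).1 hq
      refine ⟨(x, y), (embH.adj hx hy).2 h1, ?_⟩
      rw [h2, ps_sub]
      rfl
    · rintro ⟨⟨x, y⟩, h1, h2⟩
      have hx := h1.2.1
      have hy := h1.2.2
      refine ⟨ps x, (embH.S _).2 ⟨x, hx, rfl⟩, ps y, (embH.S _).2 ⟨y, hy, rfl⟩,
        (embH.adj hx hy).1 h1, ?_⟩
      rw [← h2, ps_sub]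
      rfl
  o := by
    unfold pt ps tt
    simp
  v0 := Hx_of (Or.inl ⟨by norm_num, Or.inl rfl⟩)

end Pool.Agent.D0H94.T12
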