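import Pool.Agent.D0H94.T12.Lat2
import Pool.Agent.D0H94.T12.Ana4
import Pool.Agent.D0H94.T12.Dbl

/-!
# Assembly
-/

set_option autoImplicit false
set_option linter.unusedVariables false

namespace Pool.Agent.D0H94.T12

open Filter Topology Finset

lemma mH_pos : 0 < mH := hexWk.hμ

lemma mH_gt : 1 < mH := by
  unfold mH
  rw [Real.lt_sqrt (by norm_num)]
  have := Real.sqrt_nonneg 2
  linarith

/-- the root -/
lemma exists_x : ∃ x : ℝ, 0 < x ∧ x < 1 ∧ mH * (x ^ 2 + x ^ 3) = 1 := by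
  have hc : Continuous fun x : ℝ => mH * (x ^ 2 + x ^ 3) := by fun_prop
  have h := intermediate_value_Icc (zero_le_one' ℝ) hc.continuousOn
  have h1 : (1 : ℝ) ∈ Set.Icc (mH * ((0 : ℝ) ^ 2 + 0 ^ 3)) (mH * ((1 : ℝ) ^ 2 + 1 ^ 3)) := by
    have := mH_gt
    constructor
    · norm_num
    · norm_num
      linarith
  obtain ⟨x, hx, hx2⟩ := h h1
  simp only at hx2
  refine ⟨x, lt_of_le_of_ne hx.1 ?_, lt_of_le_of_ne hx.2 ?_, hx2⟩
  · rintro rfl
    norm_num at hx2
  · rintro rfl
    have := mH_gt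
    norm_num at hx2
    linarith

/-- the critical weight of the (3.12²) lattice -/
noncomputable def xx : ℝ := exists_x.choose

lemma xx_pos : 0 < xx := exists_x.choose_spec.1
lemma xx_lt : xx < 1 := exists_x.choose_spec.2.1
lemma xx_eq : mH * (xx ^ 2 + xx ^ 3) = 1 := exists_x.choose_spec.2.2

/-- normalised number of walks on the (3.12²) lattice -/
noncomputable def sF (n : ℕ) : ℝ := aF n * xx ^ n

/-- normalised number of walks on the honeycomb lattice -/
noncomputable def rH (n : ℕ) : ℝ := (aH n : ℝ) / mH ^ n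

lemma GG_SS (N : ℕ) : GG (mH * xx ^ 2) (mH * xx ^ 3) rH N = mH * xx ^ N * (SS aH N : ℝ) := by
  unfold GG SS rH
  push_cast
  rw [Finset.mul_sum]
  refine Finset.sum_congr rfl fun m _ => ?_
  rw [pw_K (μ := mH) (x := xx) rfl rfl]
  have := (pow_pos mH_pos m).ne'
  field_simp
  ring

theorem cmpF : Cmp (mH * xx ^ 2) (mH * xx ^ 3) rH sF (1 / (3 * (mH * xx))) (36 / (mH * xx)) where
  hp := mul_pos mH_pos (pow_pos xx_pos 2)
  hq := mul_pos mH_pos (pow_pos xx_pos 3)
  hpq := by rw [← xx_eq]; ring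
  hc0 := by have := mH_pos; have := xx_pos; positivity
  hC0 := by have := mH_pos; have := xx_pos; positivity
  r1 := fun n => hexWk.one_le n
  lo := by
    intro n
    have h1 : ((SS aH (n + 1) : ℕ) : ℝ) ≤ 3 * aF n := by exact_mod_cast aF_lower n
    rw [GG_SS]
    have hm := mH_pos
    have hx := xx_pos
    have e : 1 / (3 * (mH * xx)) * (mH * xx ^ (n + 1) * (SS aH (n + 1) : ℝ)) =
        xx ^ n / 3 * (SS aH (n + 1) : ℝ) := by
      rw [pow_succ]
      field_simp
    rw [e, sF]
    have := mul_le_mul_of_nonneg_left h1 (show 0 ≤ xx ^ n / 3 by positivity)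
    linarith
  up := by
    intro n
    have h1 : ((aF (n + 3) : ℕ) : ℝ) ≤ 9 * (SS aH (n + 4) + 4 * SS aH (n + 3) +
        3 * SS aH (n + 2)) := by exact_mod_cast aF_upper n
    rw [GG_SS, GG_SS, GG_SS, sF]
    have hm := mH_pos
    have hx := xx_pos
    have hx1 := xx_lt
    have e : 36 / (mH * xx) * (mH * xx ^ (n + 4) * (SS aH (n + 4) : ℝ) +
        mH * xx ^ (n + 3) * (SS aH (n + 3) : ℝ) + mH * xx ^ (n + 2) * (SS aH (n + 2) : ℝ)) =
        36 * xx ^ (n + 1) * (xx ^ 2 * (SS aH (n + 4) : ℝ) + xx * (SS aH (n + 3) : ℝ) +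
          (SS aH (n + 2) : ℝ)) := by
      field_simp
      ring
    rw [e]
    have h2 := mul_le_mul_of_nonneg_right h1 (show 0 ≤ xx ^ (n + 3) by positivity)
    refine h2.trans ?_
    have e2 : xx ^ (n + 3) = xx ^ (n + 1) * xx ^ 2 := by rw [← pow_add]
    rw [e2]
    have h3 : 0 ≤ xx ^ (n + 1) := by positivity
    have a1 : (0 : ℝ) ≤ (SS aH (n + 4) : ℝ) := Nat.cast_nonneg _
    have a2 : (0 : ℝ) ≤ (SS aH (n + 3) : ℝ) := Nat.cast_nonneg _
    have a3 : (0 : ℝ) ≤ (SS aH (n + 2) : ℝ) := Nat.cast_nonneg _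
    have b1 : xx ^ 2 ≤ xx := by nlinarith
    have b2 : xx ^ 2 ≤ 1 := by nlinarith
    have key : 9 * ((SS aH (n + 4) : ℝ) + 4 * SS aH (n + 3) + 3 * SS aH (n + 2)) * xx ^ 2 ≤
        36 * (xx ^ 2 * (SS aH (n + 4) : ℝ) + xx * (SS aH (n + 3) : ℝ) + (SS aH (n + 2) : ℝ)) := by
      have c1 := mul_le_mul_of_nonneg_right b1 a2
      have c2 := mul_le_mul_of_nonneg_right b2 a3
      have c3 := mul_nonneg (sq_nonneg xx) a1
      nlinarith
    calc _ = xx ^ (n + 1) * (9 * ((SS aH (n + 4) : ℝ) + 4 * SS aH (n + 3) +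
          3 * SS aH (n + 2)) * xx ^ 2) := by ring
      _ ≤ xx ^ (n + 1) * (36 * (xx ^ 2 * (SS aH (n + 4) : ℝ) + xx * (SS aH (n + 3) : ℝ) +
          (SS aH (n + 2) : ℝ))) := mul_le_mul_of_nonneg_left key h3
      _ = _ := by ring

/-! ### the critical weight is the inverse of the connective constant -/

lemma aF_pos (n : ℕ) (hn : 1 ≤ n) : 0 < (aF n : ℝ) := by
  have h := cmpF.s_pos hn
  unfold sF at h
  have := pow_pos xx_pos n
  by_contra h0
  have h1 : (aF n : ℝ) = 0 := le_antisymm (not_lt.1 h0) (Nat.cast_nonneg _)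
  rw [h1, zero_mul] at h
  exact lt_irrefl _ h

lemma aF_zero : aF 0 = 1 := by
  have : W (AF Hx) ((0, 0), (1, 0)) 0 = {[]} := by
    ext r
    simp only [W, Set.mem_ofPred_eq, Set.mem_singleton_iff, List.length_eq_zero_iff]
    constructor
    · exact fun h => h.1
    · rintro rfl
      simp
  unfold aF
  rw [this, Set.ncard_singleton]

lemma sF_submul (m n : ℕ) : sF (m + n) ≤ sF m * sF n := by
  unfold sF
  have h : (aF (m + n) : ℝ) ≤ aF m * aF n := by exact_mod_cast submulF m n
  rw [pow_add]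
  have := mul_le_mul_of_nonneg_right h (mul_pos (pow_pos xx_pos m) (pow_pos xx_pos n)).le
  linarith

lemma sF_zero : sF 0 = 1 := by
  unfold sF
  rw [aF_zero]
  norm_num

lemma sF_nonneg (n : ℕ) : 0 ≤ sF n := mul_nonneg (Nat.cast_nonneg _) (pow_pos xx_pos n).le

lemma sF_pow (n k : ℕ) : sF (k * n) ≤ sF n ^ k := by
  induction k with
  | zero => rw [zero_mul, pow_zero, sF_zero]
  | succ k ih =>
    rw [add_mul, one_mul, pow_succ]
    exact (sF_submul _ _).trans (mul_le_mul_of_nonneg_right ih (sF_nonneg n))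

/-- supermultiplicative bound -/
theorem one_le_sF (n : ℕ) : 1 ≤ sF n := by
  by_contra h
  push Not at h
  rcases Nat.eq_zero_or_pos n with h0 | h0
  · rw [h0, sF_zero] at h
    exact lt_irrefl _ h
  have h1 := tendsto_pow_atTop_nhds_zero_of_lt_one (sF_nonneg n) h
  set c := 1 / (3 * (mH * xx)) * ((mH * xx ^ 2) ^ 2 * (mH * xx ^ 3)) with hc
  have hc0 : 0 < c := by have := mH_pos; have := xx_pos; positivity
  have h2 : ∀ᶠ k : ℕ in atTop, c ≤ sF n ^ k := by
    filter_upwards [eventually_ge_atTop 1] with k hk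
    exact (cmpF.s_ge (Nat.mul_pos hk h0)).trans (sF_pow n k)
  have h3 := ge_of_tendsto h1 h2
  linarith

/-- quasi-polynomial bound -/
theorem sF_up : ∃ K : ℝ, 0 ≤ K ∧ ∀ n : ℕ, 2 ≤ n → sF n ≤ Real.exp (K * Real.log n ^ 2) := by
  obtain ⟨K, hK, h⟩ := hexUp
  have hl2 := Real.log_two_gt_d9
  have hC := cmpF.hC0
  set C0 := 36 / (mH * xx) with hC0
  -- a uniform bound for `rH`
  set R1 := rH 1 with hR1
  have hr : ∀ (n m : ℕ), 2 ≤ n → m ≤ 3 * n → rH m ≤ (1 + R1) * Real.exp (9 * K * Real.log n ^ 2) := by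
    intro n m hn hm
    have hR : 0 < R1 := hexWk.pos 1
    have hln : Real.log 2 ≤ Real.log n := Real.log_le_log (by norm_num) (by exact_mod_cast hn)
    have he : (1 : ℝ) ≤ Real.exp (9 * K * Real.log n ^ 2) := Real.one_le_exp (by positivity)
    rcases Nat.lt_or_ge m 2 with h2 | h2
    · interval_cases m
      · have : rH 0 = 1 := by
          unfold rH
          have e : aH 0 = 1 := by
            have : W Hx (0, 0) 0 = {[]} := by
              ext r
              simp only [W, Set.mem_ofPred_eq, Set.mem_singleton_iff, List.length_eq_zero_iff]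
              constructor
              · exact fun h => h.1
              · rintro rfl
                simp
            unfold aH
            rw [this, Set.ncard_singleton]
          rw [e]
          norm_num
        rw [this]
        nlinarith
      · nlinarith
    · have h3 := h m h2
      have h4 : rH m ≤ Real.exp (K * Real.log m ^ 2) := by
        unfold rH
        rw [div_le_iff₀ (pow_pos mH_pos m)]
        linarith
      have h5 : Real.log m ≤ 3 * Real.log n := by
        have a1 : Real.log m ≤ Real.log (3 * n) :=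
          Real.log_le_log (by positivity) (by exact_mod_cast hm)
        rw [Real.log_mul (by norm_num) (by positivity)] at a1
        have a2 : Real.log 3 ≤ 2 * Real.log 2 := by
          rw [← Real.log_rpow (by norm_num)]
          exact Real.log_le_log (by norm_num) (by norm_num)
        linarith
      have h6 : 0 ≤ Real.log m := Real.log_natCast_nonneg m
      have h7 : Real.log m ^ 2 ≤ 9 * Real.log n ^ 2 := by nlinarith
      have h8 : Real.exp (K * Real.log m ^ 2) ≤ Real.exp (9 * K * Real.log n ^ 2) := by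
        apply Real.exp_le_exp.2
        nlinarith
      nlinarith [Real.exp_pos (9 * K * Real.log n ^ 2)]
  have hR : 0 < R1 := hexWk.pos 1
  -- a bound for `sF`
  have hs : ∀ n : ℕ, 3 ≤ n → sF n ≤ (C0 * 3 * (1 + R1)) * Real.exp (9 * K * Real.log n ^ 2) := by
    intro n hn
    obtain ⟨k, rfl⟩ : ∃ k, n = k + 3 := ⟨n - 3, by omega⟩
    have h1 := cmpF.up k
    have hB : 0 ≤ (1 + R1) * Real.exp (9 * K * Real.log ((k + 3 : ℕ) : ℝ) ^ 2) := by positivity
    have g : ∀ N, N ≤ 2 * (k + 3) → GG (mH * xx ^ 2) (mH * xx ^ 3) rH N ≤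
        (1 + R1) * Real.exp (9 * K * Real.log ((k + 3 : ℕ) : ℝ) ^ 2) := by
      intro N hN
      exact GG_le cmpF.hp.le cmpF.hq.le cmpF.hpq hB (fun m h1 h2 => hr _ m (by omega) (by omega))
    have g1 := g (k + 4) (by omega)
    have g2 := g (k + 3) (by omega)
    have g3 := g (k + 2) (by omega)
    calc sF (k + 3) ≤ _ := h1
      _ ≤ C0 * (3 * ((1 + R1) * Real.exp (9 * K * Real.log ((k + 3 : ℕ) : ℝ) ^ 2))) := by
        apply mul_le_mul_of_nonneg_left _ hC.le
        linarith
      _ = _ := by ring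
  -- absorb the constant
  obtain ⟨A, hA0, hA1, hA2⟩ : ∃ A : ℝ, 0 ≤ A ∧ Real.log (C0 * 3 * (1 + R1)) ≤ A ∧
      Real.log (sF 2) ≤ A :=
    ⟨max 0 (max (Real.log (C0 * 3 * (1 + R1))) (Real.log (sF 2))), le_max_left _ _,
      (le_max_left _ _).trans (le_max_right _ _), (le_max_right _ _).trans (le_max_right _ _)⟩
  refine ⟨9 * K + 4 * A, by positivity, fun n hn => ?_⟩
  have hln : Real.log 2 ≤ Real.log n := Real.log_le_log (by norm_num) (by exact_mod_cast hn)
  have hln2 : 1 ≤ 4 * Real.log n ^ 2 := by nlinarith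
  have hpos : 0 < sF n := lt_of_lt_of_le one_pos (one_le_sF n)
  have hA3 : A ≤ 4 * A * Real.log n ^ 2 := by nlinarith
  rw [← Real.log_le_iff_le_exp hpos]
  rcases Nat.lt_or_ge n 3 with h3 | h3
  · have : n = 2 := by omega
    subst this
    nlinarith [mul_nonneg hK (sq_nonneg (Real.log ((2 : ℕ) : ℝ)))]
  · have h4 := Real.log_le_log hpos (hs n h3)
    rw [Real.log_mul (by positivity) (Real.exp_pos _).ne', Real.log_exp] at h4
    nlinarith

theorem sF_lim : Tendsto (fun n : ℕ => Real.log (sF n) / n) atTop (𝓝 0) := by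
  obtain ⟨K, hK, h⟩ := sF_up
  have t : Tendsto (fun n : ℕ => K * (Real.log (n : ℝ) ^ 2 / n)) atTop (𝓝 0) := by
    have h1 : Tendsto (fun x : ℝ => Real.log x ^ 2 / x) atTop (𝓝 0) := by
      have := Real.tendsto_pow_log_div_mul_add_atTop 1 0 2 one_ne_zero
      simpa using this
    have h2 := (h1.comp tendsto_natCast_atTop_atTop).const_mul K
    simpa using h2
  refine tendsto_of_tendsto_of_tendsto_of_le_of_le' tendsto_const_nhds t ?_ ?_
  · filter_upwards with n
    exact div_nonneg (Real.log_nonneg (one_le_sF n)) (Nat.cast_nonneg n)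
  · filter_upwards [eventually_ge_atTop 2] with n hn
    have hn0 : (0 : ℝ) < n := by positivity
    rw [← mul_div_assoc]
    apply div_le_div_of_nonneg_right _ hn0.le
    rw [Real.log_le_iff_le_exp (lt_of_lt_of_le one_pos (one_le_sF n))]
    exact h n hn

/-- the connective constant of the (3.12²) lattice -/
theorem mF_eq : (⨅ n : {n : ℕ // 1 ≤ n}, ((aF n.1 : ℝ) ^ ((1 : ℝ) / (n.1 : ℝ)))) = 1 / xx := by
  have hx := xx_pos
  have hbdd : BddBelow (Set.range fun n : {n : ℕ // 1 ≤ n} =>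
      ((aF n.1 : ℝ) ^ ((1 : ℝ) / (n.1 : ℝ)))) :=
    ⟨0, by rintro _ ⟨n, rfl⟩; positivity⟩
  have hroot : ∀ n : ℕ, 1 ≤ n → (aF n : ℝ) ^ ((1 : ℝ) / (n : ℝ)) =
      1 / xx * Real.exp (Real.log (sF n) / n) := by
    intro n hn
    have hn0 : (0 : ℝ) < n := by exact_mod_cast hn
    have hpos := aF_pos n hn
    rw [Real.rpow_def_of_pos hpos]
    have e : Real.log (aF n) = Real.log (sF n) - n * Real.log xx := by
      unfold sF
      rw [Real.log_mul hpos.ne' (pow_pos hx n).ne', Real.log_pow]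
      ring
    rw [e, one_div xx, ← Real.exp_log (inv_pos.2 hx), ← Real.exp_add, Real.log_inv]
    congr 1
    field_simp
    ring
  apply le_antisymm
  · have t : Tendsto (fun n : ℕ => 1 / xx * Real.exp (Real.log (sF n) / n)) atTop
        (𝓝 (1 / xx * Real.exp 0)) :=
      ((Real.continuous_exp.tendsto 0).comp sF_lim).const_mul _
    rw [Real.exp_zero, mul_one] at t
    refine ge_of_tendsto t ?_
    filter_upwards [eventually_ge_atTop 1] with n hn
    rw [← hroot n hn]
    exact ciInf_le hbdd ⟨n, hn⟩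
  · have : Nonempty {n : ℕ // 1 ≤ n} := ⟨⟨1, le_rfl⟩⟩
    refine le_ciInf fun n => ?_
    rw [hroot n.1 n.2]
    have h1 : 1 ≤ Real.exp (Real.log (sF n.1) / n.1) :=
      Real.one_le_exp (div_nonneg (Real.log_nonneg (one_le_sF _)) (Nat.cast_nonneg _))
    have h2 : 0 < 1 / xx := by positivity
    nlinarith

end Pool.Agent.D0H94.T12
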