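import Pool.Agent.D0H94.T12.Lat1
import Pool.Agent.H982R3.Walk3
import Pool.Agent.TH232.Hex.Dis
import Pool.Agent.R956.V2

/-!
# The known facts on the honeycomb lattice
-/

set_option autoImplicit false
set_option linter.unusedVariables false

namespace Pool.Agent.D0H94.T12

open H982 H982P Filter Topology

lemma ncard_aux2 [La : H982.Lat] {Adj : ℤ × ℤ → ℤ × ℤ → Prop} {φ : ℤ × ℤ → ℤ × ℤ}
    {R : ℕ → ℤ × ℤ → Prop} (H : Coord2 Adj φ R) (n : ℕ) :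
    ((walks Adj n).ncard : ℝ) = H982.cr' n := by
  rw [H982.cr'_card, ← (bijOn_hw H n).image_eq, (bijOn_hw H n).injOn.ncard_image]
  rfl

theorem aH_cr (n : ℕ) : (aH n : ℝ) = @H982.cr' hexL n := by
  rw [← @ncard_aux2 hexL _ _ _ coord2_hex n, aH, ← saw_W]
  rfl

theorem aH_brick (n : ℕ) : aH n = Set.ncard {f : Fin (n + 1) → ℤ × ℤ |
    f 0 = 0 ∧ Function.Injective f ∧ ∀ i : Fin n, TH966.AK.AdjH (f i.castSucc) (f i.succ)} := by
  have h1 := aH_cr n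
  have h2 := @H982.ncard_walks hexL _ _ _ coord_hex n
  rw [← h2] at h1
  exact_mod_cast h1

/-- the connective constant of the honeycomb lattice -/
noncomputable def mH : ℝ := √(2 + √2)

lemma mH_eq : (⨅ n : {n : ℕ // 1 ≤ n}, ((aH n.1 : ℝ) ^ ((1 : ℝ) / (n.1 : ℝ)))) = mH :=
  TH966.AK.hex_mu aH aH_brick

theorem hexWk : Pool.Agent.Y943.SL.Wk (fun n => (aH n : ℝ)) mH :=
  (Pool.Agent.Y943.SL.wk_hex aH aH_brick mH mH_eq.symm).1

theorem hexSq : ∃ K β : ℝ, Pool.Agent.R956.V1.Sq (fun n => (aH n : ℝ) / mH ^ n) K β := by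
  obtain ⟨h0, h1, h2, K, h⟩ := Pool.Agent.R956.V2.hex aH aH_brick mH mH_eq.symm
  exact ⟨K, 2 / mH, h⟩

theorem hexUp : ∃ K : ℝ, 0 ≤ K ∧ ∀ n : ℕ, 2 ≤ n →
    (aH n : ℝ) ≤ mH ^ n * Real.exp (K * (Real.log n) ^ 2) :=
  (TH966.AK.mu_facts (L := H982P.hexL) H982P.coord_hex aH aH_brick mH mH_eq.symm).2

theorem hexLow (n : ℕ) (hn : 1 ≤ n) : 1 / 75 * Real.log n - 1 ≤ Real.log ((aH n : ℝ) / mH ^ n) := by
  have h := Pool.Agent.TH232.Hex.Rn_lower75 n hn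
  have e : (aH n : ℝ) = ((H978R2.Hex.saws n).ncard : ℝ) := by
    rw [aH_brick n]
    rfl
  have hμ : 0 < mH := hexWk.hμ
  have hp : (0 : ℝ) < aH n := hexWk.cpos n
  rw [Real.log_div hp.ne' (pow_pos hμ n).ne', Real.log_pow, e]
  exact h

end Pool.Agent.D0H94.T12
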