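import Pool.Agent.D0H94.T12.Fin2

/-!
# Bounds of the exact order
-/

set_option autoImplicit false
set_option linter.unusedVariables false

namespace Pool.Agent.D0H94.T12

open Filter Topology Finset

/-- `f n` is of the order `n ^ α` -/
def Ord (f : ℕ → ℝ) (α : ℝ) : Prop :=
  ∃ c C : ℝ, 0 < c ∧ ∀ᶠ n : ℕ in atTop, c * (n : ℝ) ^ α ≤ f n ∧ f n ≤ C * (n : ℝ) ^ α

lemma log7 : Real.log 7 ≤ 2 := by
  rw [Real.log_le_iff_le_exp (by norm_num)]
  have h := Real.exp_one_gt_d9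
  have e : Real.exp 2 = Real.exp 1 * Real.exp 1 := by rw [← Real.exp_add]; norm_num
  rw [e]
  nlinarith

lemma rpow_cmp {m n : ℕ} (hm : 1 ≤ m) (h1 : m ≤ n) (h2 : n ≤ 7 * m) (α : ℝ) :
    (m : ℝ) ^ α ≤ Real.exp (2 * |α|) * (n : ℝ) ^ α ∧
      Real.exp (-(2 * |α|)) * (n : ℝ) ^ α ≤ (m : ℝ) ^ α := by
  have hm0 : (0 : ℝ) < m := by exact_mod_cast hm
  have hn0 : (0 : ℝ) < n := by exact_mod_cast (show 0 < n by omega)
  have h3 : Real.log m ≤ Real.log n := Real.log_le_log hm0 (by exact_mod_cast h1)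
  have h4 : Real.log n ≤ 2 + Real.log m := by
    have := Real.log_le_log hn0 (show (n : ℝ) ≤ 7 * m by exact_mod_cast h2)
    rw [Real.log_mul (by norm_num) hm0.ne'] at this
    linarith [log7]
  have h5 : |(Real.log n - Real.log m) * α| ≤ 2 * |α| := by
    rw [abs_mul]
    apply mul_le_mul_of_nonneg_right _ (abs_nonneg α)
    rw [abs_le]
    constructor <;> linarith
  rw [abs_le] at h5
  rw [Real.rpow_def_of_pos hm0, Real.rpow_def_of_pos hn0, ← Real.exp_add, ← Real.exp_add,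
    Real.exp_le_exp, Real.exp_le_exp]
  constructor <;> nlinarith

variable {p q : ℝ} {r s : ℕ → ℝ} {c0 C0 : ℝ}

theorem ord_of (H : Cmp p q r s c0 C0) {α : ℝ} (h : Ord r α) : Ord s α := by
  obtain ⟨c, C, hc, h⟩ := h
  obtain ⟨N0, hN0⟩ := eventually_atTop.1 h
  have hC : 0 ≤ C := by
    have h1 := hN0 (N0 + 1) (by omega)
    have h2 : (0 : ℝ) < ((N0 + 1 : ℕ) : ℝ) ^ α := Real.rpow_pos_of_pos (by positivity) _
    have h3 : 0 < C * ((N0 + 1 : ℕ) : ℝ) ^ α :=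
      lt_of_lt_of_le (mul_pos hc h2) (h1.1.trans h1.2)
    exact (pos_of_mul_pos_left h3 h2.le).le
  have hc0 := H.hc0
  have hC0 := H.hC0
  have hp := H.hp
  have hq := H.hq
  refine ⟨c0 * (c * Real.exp (-(2 * |α|)) * (p ^ 2 * q)),
    C0 * (3 * (C * Real.exp (2 * |α|))), by positivity, ?_⟩
  filter_upwards [eventually_ge_atTop (3 * N0 + 10)] with n hn
  have hn0 : (0 : ℝ) < n := by exact_mod_cast (show 0 < n by omega)
  have hna : (0 : ℝ) < (n : ℝ) ^ α := Real.rpow_pos_of_pos hn0 _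
  constructor
  · refine le_trans ?_ (H.lo n)
    have h1 := GG_ge hp hq H.hpq (r := r) (N := n + 1) (by omega)
      (b := c * Real.exp (-(2 * |α|)) * (n : ℝ) ^ α) (by positivity) (fun m h1 h2 => by
        have h3 := (hN0 m (by omega)).1
        have h4 := (rpow_cmp (m := m) (n := n) (by omega) (by omega) (by omega) α).2
        have h5 := mul_le_mul_of_nonneg_left h4 hc.le
        linarith)
    have h2 := mul_le_mul_of_nonneg_left h1 hc0.le
    linarith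
  · obtain ⟨k, rfl⟩ : ∃ k, n = k + 3 := ⟨n - 3, by omega⟩
    have g : ∀ N, k + 2 ≤ N → N ≤ k + 4 → GG p q r N ≤
        C * Real.exp (2 * |α|) * ((k + 3 : ℕ) : ℝ) ^ α := by
      intro N hN hN'
      refine GG_le hp.le hq.le H.hpq (by positivity) (fun m h1 h2 => ?_)
      have h3 := (hN0 m (by omega)).2
      have h4 := (rpow_cmp (m := m) (n := k + 3) (by omega) (by omega) (by omega) α).1
      have h5 := mul_le_mul_of_nonneg_left h4 hC
      linarith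
    have g1 := g (k + 4) (by omega) (by omega)
    have g2 := g (k + 3) (by omega) (by omega)
    have g3 := g (k + 2) (by omega) (by omega)
    calc s (k + 3) ≤ _ := H.up k
      _ ≤ C0 * (3 * (C * Real.exp (2 * |α|) * ((k + 3 : ℕ) : ℝ) ^ α)) := by
        apply mul_le_mul_of_nonneg_left _ hC0.le
        linarith
      _ = _ := by ring

theorem ordF {α : ℝ} (h : Ord (fun n => (aH n : ℝ) / mH ^ n) α) :
    Ord (fun n => (aF n : ℝ) / mF ^ n) α := by
  have h1 := ord_of (r := rH) cmpF h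
  have e : (fun n => (aF n : ℝ) / mF ^ n) = sF := funext fun n => (sF_eq n).symm
  rw [e]
  exact h1

theorem ordP {a : ℕ → ℕ} {m : ℝ} (hm : 0 < m) {α : ℝ} (h : Ord (fun n => (a n : ℝ) / m ^ n) α) :
    Ord (PP a) (-α) := by
  obtain ⟨c, C, hc, h⟩ := h
  have hC : 0 < C := by
    obtain ⟨n, hn1, hn2⟩ := ((eventually_ge_atTop 1).and h).exists
    have h2 : (0 : ℝ) < (n : ℝ) ^ α := Real.rpow_pos_of_pos (by positivity) _
    exact pos_of_mul_pos_left (lt_of_lt_of_le (mul_pos hc h2) (hn2.1.trans hn2.2)) h2.le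
  refine ⟨c * 2 ^ α / C ^ 2, C * 2 ^ α / c ^ 2, by positivity, ?_⟩
  have t : Tendsto (fun n : ℕ => n + n) atTop atTop :=
    tendsto_atTop_mono (fun n => Nat.le_add_left n n) tendsto_id
  filter_upwards [h, t.eventually h, eventually_ge_atTop 1] with n h1 h2 hn
  obtain ⟨h1, h1'⟩ := h1
  obtain ⟨h2, h2'⟩ := h2
  have hn0 : (0 : ℝ) < n := by exact_mod_cast hn
  have hx : (0 : ℝ) < (n : ℝ) ^ α := Real.rpow_pos_of_pos hn0 _
  have e2 : ((n + n : ℕ) : ℝ) ^ α = 2 ^ α * (n : ℝ) ^ α := by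
    rw [← Real.mul_rpow (by norm_num) hn0.le]
    congr 1
    push_cast
    ring
  rw [e2] at h2 h2'
  have h2pos : (0 : ℝ) < 2 ^ α := Real.rpow_pos_of_pos (by norm_num) _
  have e3 : PP a n = ((a (n + n) : ℝ) / m ^ (n + n)) / ((a n : ℝ) / m ^ n) ^ 2 := by
    unfold PP
    rw [pow_add]
    have := (pow_pos hm n).ne'
    field_simp
  have hr : 0 < (a n : ℝ) / m ^ n := lt_of_lt_of_le (mul_pos hc hx) h1
  rw [e3, Real.rpow_neg hn0.le]
  constructor
  · rw [le_div_iff₀ (pow_pos hr 2)]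
    have h3 : ((a n : ℝ) / m ^ n) ^ 2 ≤ (C * (n : ℝ) ^ α) ^ 2 := pow_le_pow_left₀ hr.le h1' 2
    have h4 : 0 ≤ c * 2 ^ α / C ^ 2 * ((n : ℝ) ^ α)⁻¹ := by positivity
    calc _ ≤ c * 2 ^ α / C ^ 2 * ((n : ℝ) ^ α)⁻¹ * (C * (n : ℝ) ^ α) ^ 2 :=
          mul_le_mul_of_nonneg_left h3 h4
      _ = c * (2 ^ α * (n : ℝ) ^ α) := by field_simp
      _ ≤ _ := h2
  · rw [div_le_iff₀ (pow_pos hr 2)]
    have h3 : (c * (n : ℝ) ^ α) ^ 2 ≤ ((a n : ℝ) / m ^ n) ^ 2 :=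
      pow_le_pow_left₀ (by positivity) h1 2
    have h4 : 0 ≤ C * 2 ^ α / c ^ 2 * ((n : ℝ) ^ α)⁻¹ := by positivity
    calc _ ≤ C * (2 ^ α * (n : ℝ) ^ α) := h2'
      _ = C * 2 ^ α / c ^ 2 * ((n : ℝ) ^ α)⁻¹ * (c * (n : ℝ) ^ α) ^ 2 := by field_simp
      _ ≤ _ := mul_le_mul_of_nonneg_left h3 h4

end Pool.Agent.D0H94.T12
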