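import Pool.Agent.D0H94.T12.Cnt

/-!
# Renewal weights

`pw p q m z` is the probability that a sum of `m` independent variables with values `2`
(probability `p`) and `3` (probability `q`) is `z`.
-/

set_option autoImplicit false
set_option linter.unusedVariables false

namespace Pool.Agent.D0H94.T12

open Finset

/-- the law of the sum of `m` variables -/
noncomputable def pw (p q : ℝ) : ℕ → ℤ → ℝ
  | 0, z => if z = 0 then 1 else 0
  | m + 1, z => p * pw p q m (z - 2) + q * pw p q m (z - 3)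

variable {p q : ℝ}

lemma pw_nonneg (hp : 0 ≤ p) (hq : 0 ≤ q) : ∀ (m : ℕ) (z : ℤ), 0 ≤ pw p q m z
  | 0, z => by unfold pw; split_ifs <;> norm_num
  | m + 1, z => by
    unfold pw
    have h1 := pw_nonneg hp hq m (z - 2)
    have h2 := pw_nonneg hp hq m (z - 3)
    positivity

lemma pw_zero_low : ∀ (m : ℕ) (z : ℤ), z < 2 * m → pw p q m z = 0
  | 0, z, h => by
    unfold pw
    rw [if_neg]
    intro e
    rw [e] at h
    simp at h
  | m + 1, z, h => by
    unfold pw
    push_cast at h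
    rw [pw_zero_low m (z - 2) (by omega), pw_zero_low m (z - 3) (by omega)]
    ring

lemma pw_zero_high : ∀ (m : ℕ) (z : ℤ), 3 * m < z → pw p q m z = 0
  | 0, z, h => by
    unfold pw
    rw [if_neg]
    intro e
    rw [e] at h
    simp at h
  | m + 1, z, h => by
    unfold pw
    push_cast at h
    rw [pw_zero_high m (z - 2) (by omega), pw_zero_high m (z - 3) (by omega)]
    ring

/-- the relation with the numbers `K` -/
lemma pw_K {μ x : ℝ} (hp : p = μ * x ^ 2) (hq : q = μ * x ^ 3) : ∀ (m N : ℕ),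
    pw p q m N = K m N * μ ^ m * x ^ N
  | 0, N => by
    unfold pw K
    by_cases h : N = 0
    · rw [if_pos (by exact_mod_cast h), if_pos h, h]; simp
    · rw [if_neg (by exact_mod_cast h), if_neg h]; simp
  | m + 1, N => by
    unfold pw K
    have a1 : p * pw p q m ((N : ℤ) - 2) =
        ((if 2 ≤ N then K m (N - 2) else 0 : ℕ) : ℝ) * μ ^ (m + 1) * x ^ N := by
      by_cases h : 2 ≤ N
      · rw [if_pos h]
        obtain ⟨k, rfl⟩ : ∃ k, N = k + 2 := ⟨N - 2, by omega⟩
        have e : (((k + 2 : ℕ) : ℤ) - 2) = (k : ℤ) := by push_cast; ring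
        rw [e, pw_K hp hq m k, hp, Nat.add_sub_cancel]
        ring
      · rw [if_neg h, pw_zero_low m _ (by omega)]
        simp
    have a2 : q * pw p q m ((N : ℤ) - 3) =
        ((if 3 ≤ N then K m (N - 3) else 0 : ℕ) : ℝ) * μ ^ (m + 1) * x ^ N := by
      by_cases h : 3 ≤ N
      · rw [if_pos h]
        obtain ⟨k, rfl⟩ : ∃ k, N = k + 3 := ⟨N - 3, by omega⟩
        have e : (((k + 3 : ℕ) : ℤ) - 3) = (k : ℤ) := by push_cast; ring
        rw [e, pw_K hp hq m k, hq, Nat.add_sub_cancel]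
        ring
      · rw [if_neg h, pw_zero_low m _ (by omega)]
        simp
    rw [a1, a2]
    push_cast
    ring

/-! ### the number of sums -/

/-- partial sums of the renewal probability -/
lemma ren_succ (L : ℕ) (z : ℤ) : ∑ m ∈ range (L + 1), pw p q m z = (if z = 0 then 1 else 0) +
    (p * ∑ m ∈ range L, pw p q m (z - 2) + q * ∑ m ∈ range L, pw p q m (z - 3)) := by
  rw [sum_range_succ', mul_sum, mul_sum, ← sum_add_distrib, add_comm]
  rfl

lemma ren_neg (L : ℕ) {z : ℤ} (hz : z < 0) : ∑ m ∈ range L, pw p q m z = 0 :=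
  sum_eq_zero fun m _ => pw_zero_low m z (by omega)

lemma ren_le (hp : 0 ≤ p) (hq : 0 ≤ q) (h : p + q = 1) : ∀ (L : ℕ) (z : ℤ),
    ∑ m ∈ range L, pw p q m z ≤ 1
  | 0, z => by simp
  | L + 1, z => by
    rw [ren_succ]
    by_cases h0 : z = 0
    · subst h0
      rw [if_pos rfl, ren_neg L (show (0 : ℤ) - 2 < 0 by norm_num),
        ren_neg L (show (0 : ℤ) - 3 < 0 by norm_num)]
      simp
    · rw [if_neg h0]
      have h1 := ren_le hp hq h L (z - 2)
      have h2 := ren_le hp hq h L (z - 3)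
      nlinarith

lemma ren_ge (hp : 0 < p) (hq : 0 < q) (h : p + q = 1) : ∀ (z L : ℕ), 2 ≤ z → z ≤ L →
    p ^ 2 * q ≤ ∑ m ∈ range L, pw p q m z := by
  have hp1 : p ≤ 1 := by linarith
  have hq1 : q ≤ 1 := by linarith
  have c1 : p ^ 2 * q ≤ p := by nlinarith [mul_pos hp hq, mul_pos hp hp]
  have c2 : p ^ 2 * q ≤ q := by
    have : p ^ 2 ≤ 1 := pow_le_one₀ hp.le hp1
    nlinarith
  have c3 : p ^ 2 * q ≤ p * p := by nlinarith [mul_pos hp hp]
  intro z
  induction z using Nat.strong_induction_on with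
  | _ z ih =>
    intro L h2 hL
    obtain ⟨L, rfl⟩ : ∃ k, L = k + 1 := ⟨L - 1, by omega⟩
    rw [ren_succ, if_neg (by omega)]
    have n1 : 0 ≤ ∑ m ∈ range L, pw p q m ((z : ℤ) - 3) :=
      sum_nonneg fun m _ => pw_nonneg hp.le hq.le _ _
    have n2 : 0 ≤ ∑ m ∈ range L, pw p q m ((z : ℤ) - 2) :=
      sum_nonneg fun m _ => pw_nonneg hp.le hq.le _ _
    have one : ∀ M : ℕ, 1 ≤ M → 1 ≤ ∑ m ∈ range M, pw p q m 0 := by
      intro M hM
      have : pw p q 0 0 ≤ ∑ m ∈ range M, pw p q m 0 :=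
        single_le_sum (f := fun m => pw p q m 0) (fun m _ => pw_nonneg hp.le hq.le _ _)
          (mem_range.2 hM)
      simpa [pw] using this
    rcases (show z = 2 ∨ z = 3 ∨ z = 4 ∨ 5 ≤ z by omega) with e | e | e | e
    · subst e
      have := one L (by omega)
      norm_num at n1 n2 ⊢
      nlinarith
    · subst e
      have := one L (by omega)
      norm_num at n1 n2 ⊢
      nlinarith
    · subst e
      obtain ⟨L, rfl⟩ : ∃ k, L = k + 1 := ⟨L - 1, by omega⟩
      have h1 : p * 1 ≤ ∑ m ∈ range (L + 1), pw p q m (2 : ℤ) := by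
        rw [ren_succ, if_neg (by norm_num)]
        have := one L (by omega)
        have n3 : 0 ≤ ∑ m ∈ range L, pw p q m ((2 : ℤ) - 3) :=
          sum_nonneg fun m _ => pw_nonneg hp.le hq.le _ _
        norm_num at n3 ⊢
        nlinarith
      norm_num at n1 n2 ⊢
      nlinarith
    · have h1 := ih (z - 2) (by omega) L (by omega) (by omega)
      have h2 := ih (z - 3) (by omega) L (by omega) (by omega)
      rw [show ((z - 2 : ℕ) : ℤ) = (z : ℤ) - 2 by omega] at h1
      rw [show ((z - 3 : ℕ) : ℤ) = (z : ℤ) - 3 by omega] at h2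
      rw [zero_add]
      calc p ^ 2 * q = p * (p ^ 2 * q) + q * (p ^ 2 * q) := by rw [← add_mul, h, one_mul]
        _ ≤ _ := add_le_add (mul_le_mul_of_nonneg_left h1 hp.le)
            (mul_le_mul_of_nonneg_left h2 hq.le)

/-! ### exponential moments -/

lemma mgf (hp : 0 ≤ p) (hq : 0 ≤ q) (h : p + q = 1) {θ : ℝ} (hθ : |θ| ≤ 1) :
    p * Real.exp (2 * θ) + q * Real.exp (3 * θ) ≤ Real.exp ((2 + q) * θ + θ ^ 2) := by
  have hp1 : p ≤ 1 := by linarith
  have hq1 : q ≤ 1 := by linarith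
  have ha : |p * θ| ≤ 1 := by
    rw [abs_mul, abs_of_nonneg hp]
    exact mul_le_one₀ hp1 (abs_nonneg _) hθ
  have hb : |-(q * θ)| ≤ 1 := by
    rw [abs_neg, abs_mul, abs_of_nonneg hq]
    exact mul_le_one₀ hq1 (abs_nonneg _) hθ
  have h1 := (abs_le.1 (Real.abs_exp_sub_one_sub_id_le ha)).2
  have h2 := (abs_le.1 (Real.abs_exp_sub_one_sub_id_le hb)).2
  have h3 : p * Real.exp (-(q * θ)) + q * Real.exp (p * θ) ≤ Real.exp (θ ^ 2) := by
    have h4 := Real.add_one_le_exp (θ ^ 2)
    have h5 : p * Real.exp (-(q * θ)) ≤ p * (1 - q * θ + (q * θ) ^ 2) :=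
      mul_le_mul_of_nonneg_left (by nlinarith) hp
    have h6 : q * Real.exp (p * θ) ≤ q * (1 + p * θ + (p * θ) ^ 2) :=
      mul_le_mul_of_nonneg_left (by nlinarith) hq
    have e : p * (1 - q * θ + (q * θ) ^ 2) + q * (1 + p * θ + (p * θ) ^ 2) =
        (p + q) + p * q * (p + q) * θ ^ 2 := by ring
    rw [h] at e
    have h7 : p * q ≤ 1 := mul_le_one₀ hp1 hq hq1
    nlinarith [sq_nonneg θ]
  have e1 : Real.exp (2 * θ) = Real.exp ((2 + q) * θ) * Real.exp (-(q * θ)) := by
    rw [← Real.exp_add]; congr 1; ring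
  have e2 : Real.exp (3 * θ) = Real.exp ((2 + q) * θ) * Real.exp (p * θ) := by
    rw [← Real.exp_add]; congr 1
    have : p = 1 - q := by linarith
    rw [this]; ring
  rw [e1, e2, Real.exp_add]
  calc _ = Real.exp ((2 + q) * θ) * (p * Real.exp (-(q * θ)) + q * Real.exp (p * θ)) := by ring
    _ ≤ _ := mul_le_mul_of_nonneg_left h3 (Real.exp_pos _).le

/-- upper tail of the number of summands -/
lemma tail_up (hp : 0 ≤ p) (hq : 0 ≤ q) (h : p + q = 1) {θ : ℝ} (hθ : 0 ≤ θ) (L : ℕ) :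
    ∀ (M : ℕ) (z : ℤ), ∑ m ∈ range L, pw p q (M + m) z ≤
      Real.exp (θ * z) * (p * Real.exp (-(2 * θ)) + q * Real.exp (-(3 * θ))) ^ M
  | 0, z => by
    simp only [zero_add, pow_zero, mul_one]
    rcases lt_or_ge z 0 with hz | hz
    · rw [ren_neg L hz]; exact (Real.exp_pos _).le
    · refine (ren_le hp hq h L z).trans (Real.one_le_exp ?_)
      have : (0 : ℝ) ≤ z := by exact_mod_cast hz
      positivity
  | M + 1, z => by
    have h1 := tail_up hp hq h hθ L M (z - 2)
    have h2 := tail_up hp hq h hθ L M (z - 3)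
    have e : ∑ m ∈ range L, pw p q (M + 1 + m) z =
        p * ∑ m ∈ range L, pw p q (M + m) (z - 2) + q * ∑ m ∈ range L, pw p q (M + m) (z - 3) := by
      rw [mul_sum, mul_sum, ← sum_add_distrib]
      refine sum_congr rfl fun m _ => ?_
      rw [show M + 1 + m = (M + m) + 1 by ring]
      rfl
    rw [e]
    refine (add_le_add (mul_le_mul_of_nonneg_left h1 hp) (mul_le_mul_of_nonneg_left h2 hq)).trans
      (le_of_eq ?_)
    have e1 : Real.exp (θ * ((z - 2 : ℤ) : ℝ)) = Real.exp (θ * z) * Real.exp (-(2 * θ)) := by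
      rw [← Real.exp_add]; congr 1; push_cast; ring
    have e2 : Real.exp (θ * ((z - 3 : ℤ) : ℝ)) = Real.exp (θ * z) * Real.exp (-(3 * θ)) := by
      rw [← Real.exp_add]; congr 1; push_cast; ring
    rw [e1, e2, pow_succ]
    ring

/-- lower tail of the number of summands -/
lemma tail_dn (hp : 0 ≤ p) (hq : 0 ≤ q) (h : p + q = 1) {θ : ℝ} (hθ : 0 ≤ θ) :
    ∀ (M : ℕ) (z : ℤ), ∑ m ∈ range (M + 1), pw p q m z ≤
      Real.exp (-(θ * z)) * (p * Real.exp (2 * θ) + q * Real.exp (3 * θ)) ^ M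
  | 0, z => by
    rw [ren_succ]
    simp only [range_zero, sum_empty, mul_zero, add_zero, pow_zero, mul_one]
    split_ifs with h0
    · rw [h0]; simp
    · exact (Real.exp_pos _).le
  | M + 1, z => by
    have h1 := tail_dn hp hq h hθ M (z - 2)
    have h2 := tail_dn hp hq h hθ M (z - 3)
    have ge1 : 1 ≤ p * Real.exp (2 * θ) + q * Real.exp (3 * θ) := by
      have a1 := Real.one_le_exp (show 0 ≤ 2 * θ by positivity)
      have a2 := Real.one_le_exp (show 0 ≤ 3 * θ by positivity)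
      nlinarith
    rw [ren_succ]
    by_cases h0 : z = 0
    · subst h0
      rw [if_pos rfl, ren_neg _ (show (0 : ℤ) - 2 < 0 by norm_num),
        ren_neg _ (show (0 : ℤ) - 3 < 0 by norm_num)]
      simp only [mul_zero, add_zero, Int.cast_zero, neg_zero, Real.exp_zero, one_mul]
      exact one_le_pow₀ ge1
    · rw [if_neg h0, zero_add]
      refine (add_le_add (mul_le_mul_of_nonneg_left h1 hp)
        (mul_le_mul_of_nonneg_left h2 hq)).trans (le_of_eq ?_)
      have e1 : Real.exp (-(θ * ((z - 2 : ℤ) : ℝ))) = Real.exp (-(θ * z)) * Real.exp (2 * θ) := by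
        rw [← Real.exp_add]; congr 1; push_cast; ring
      have e2 : Real.exp (-(θ * ((z - 3 : ℤ) : ℝ))) = Real.exp (-(θ * z)) * Real.exp (3 * θ) := by
        rw [← Real.exp_add]; congr 1; push_cast; ring
      rw [e1, e2, pow_succ]
      ring

/-- exponential moments of the sum -/
lemma hasSum_pw (hp : 0 ≤ p) (hq : 0 ≤ q) (θ : ℝ) : ∀ (m : ℕ),
    HasSum (fun z : ℤ => pw p q m z * Real.exp (θ * z))
      ((p * Real.exp (2 * θ) + q * Real.exp (3 * θ)) ^ m)
  | 0 => by
    rw [pow_zero]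
    have : HasSum (fun z : ℤ => pw p q 0 z * Real.exp (θ * z))
        (pw p q 0 0 * Real.exp (θ * ((0 : ℤ) : ℝ))) := by
      refine hasSum_single 0 fun z hz => ?_
      unfold pw
      rw [if_neg hz, zero_mul]
    simpa [pw] using this
  | m + 1 => by
    have ih := hasSum_pw hp hq θ m
    have s2 : HasSum (fun z : ℤ => pw p q m (z - 2) * Real.exp (θ * ((z - 2 : ℤ) : ℝ)))
        ((p * Real.exp (2 * θ) + q * Real.exp (3 * θ)) ^ m) :=
      (Equiv.subRight (2 : ℤ)).hasSum_iff.2 ih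
    have s3 : HasSum (fun z : ℤ => pw p q m (z - 3) * Real.exp (θ * ((z - 3 : ℤ) : ℝ)))
        ((p * Real.exp (2 * θ) + q * Real.exp (3 * θ)) ^ m) :=
      (Equiv.subRight (3 : ℤ)).hasSum_iff.2 ih
    have := (s2.mul_left (p * Real.exp (2 * θ))).add (s3.mul_left (q * Real.exp (3 * θ)))
    have e0 : (p * Real.exp (2 * θ) + q * Real.exp (3 * θ)) ^ (m + 1) =
        p * Real.exp (2 * θ) * (p * Real.exp (2 * θ) + q * Real.exp (3 * θ)) ^ m +
        q * Real.exp (3 * θ) * (p * Real.exp (2 * θ) + q * Real.exp (3 * θ)) ^ m := by ring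
    rw [e0]
    have e : (fun z : ℤ => pw p q (m + 1) z * Real.exp (θ * z)) = fun z : ℤ =>
        p * Real.exp (2 * θ) * (pw p q m (z - 2) * Real.exp (θ * ((z - 2 : ℤ) : ℝ))) +
        q * Real.exp (3 * θ) * (pw p q m (z - 3) * Real.exp (θ * ((z - 3 : ℤ) : ℝ))) := by
      funext z
      have e1 : Real.exp (θ * (z : ℝ)) = Real.exp (2 * θ) * Real.exp (θ * ((z - 2 : ℤ) : ℝ)) := by
        rw [← Real.exp_add]; congr 1; push_cast; ring
      have e2 : Real.exp (θ * (z : ℝ)) = Real.exp (3 * θ) * Real.exp (θ * ((z - 3 : ℤ) : ℝ)) := by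
        rw [← Real.exp_add]; congr 1; push_cast; ring
      show (p * pw p q m (z - 2) + q * pw p q m (z - 3)) * Real.exp (θ * z) = _
      rw [add_mul]
      congr 1
      · rw [e1]; ring
      · rw [e2]; ring
    rw [e]
    exact this

/-- the sum is concentrated -/
lemma conc (hp : 0 ≤ p) (hq : 0 ≤ q) (h : p + q = 1) {m : ℕ} (hm : 1 ≤ m) (W : Finset ℤ)
    (hW : ∀ z : ℤ, |(z : ℝ) - (2 + q) * m| ≤ 3 * √(m : ℝ) → z ∈ W) :
    1 / 2 ≤ ∑ z ∈ W, pw p q m z := by
  classical
  have hm0 : (0 : ℝ) < m := by exact_mod_cast hm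
  obtain ⟨s, hs⟩ : ∃ s : ℝ, s = √(m : ℝ) := ⟨_, rfl⟩
  have hs2 : s ^ 2 = m := by rw [hs]; exact Real.sq_sqrt hm0.le
  have hs0 : 0 < s := by rw [hs]; exact Real.sqrt_pos.2 hm0
  have hs1 : 1 ≤ s := by
    have : (1 : ℝ) ≤ m := by exact_mod_cast hm
    nlinarith
  obtain ⟨θ, hθ⟩ : ∃ θ : ℝ, θ = 1 / s := ⟨_, rfl⟩
  have hθ0 : 0 < θ := by rw [hθ]; positivity
  have hθ1 : θ ≤ 1 := by rw [hθ, div_le_one hs0]; exact hs1
  have hθs : θ * s = 1 := by rw [hθ]; field_simp
  have T := hasSum_pw hp hq 0 m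
  have Tp := hasSum_pw hp hq θ m
  have Tm := hasSum_pw hp hq (-θ) m
  simp only [zero_mul, Real.exp_zero, mul_one, mul_zero] at T
  rw [h, one_pow] at T
  have F : HasSum (fun z : ℤ => if z ∈ W then pw p q m z else 0) (∑ z ∈ W, pw p q m z) := by
    have h1 : HasSum (fun z : ℤ => if z ∈ W then pw p q m z else 0)
        (∑ z ∈ W, if z ∈ W then pw p q m z else 0) :=
      hasSum_sum_of_ne_finset_zero (fun z hz => if_neg hz)
    have h2 : ∑ z ∈ W, (if z ∈ W then pw p q m z else 0) = ∑ z ∈ W, pw p q m z :=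
      sum_congr rfl fun z hz => if_pos hz
    rwa [h2] at h1
  have key := hasSum_le (fun z : ℤ => ?_) T ((F.add (Tp.mul_left
    (Real.exp (-(θ * ((2 + q) * m + 3 * s)))))).add (Tm.mul_left
      (Real.exp (θ * ((2 + q) * m - 3 * s)))))
  · have b1 := mgf hp hq h (show |θ| ≤ 1 by rw [abs_of_pos hθ0]; exact hθ1)
    have b2 := mgf hp hq h (show |-θ| ≤ 1 by rw [abs_neg, abs_of_pos hθ0]; exact hθ1)
    have n1 : 0 ≤ p * Real.exp (2 * θ) + q * Real.exp (3 * θ) := by positivity
    have n2 : 0 ≤ p * Real.exp (2 * -θ) + q * Real.exp (3 * -θ) := by positivity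
    have c1 := pow_le_pow_left₀ n1 b1 m
    have c2 := pow_le_pow_left₀ n2 b2 m
    rw [← Real.exp_nat_mul] at c1 c2
    have d1 : Real.exp (-(θ * ((2 + q) * m + 3 * s))) *
        (p * Real.exp (2 * θ) + q * Real.exp (3 * θ)) ^ m ≤ Real.exp (-2) := by
      refine (mul_le_mul_of_nonneg_left c1 (Real.exp_pos _).le).trans (le_of_eq ?_)
      rw [← Real.exp_add]
      congr 1
      have : (m : ℝ) * θ ^ 2 = 1 := by rw [← hs2, ← mul_pow, mul_comm s, hθs, one_pow]
      linear_combination this - 3 * hθs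
    have d2 : Real.exp (θ * ((2 + q) * m - 3 * s)) *
        (p * Real.exp (2 * -θ) + q * Real.exp (3 * -θ)) ^ m ≤ Real.exp (-2) := by
      refine (mul_le_mul_of_nonneg_left c2 (Real.exp_pos _).le).trans (le_of_eq ?_)
      rw [← Real.exp_add]
      congr 1
      have : (m : ℝ) * θ ^ 2 = 1 := by rw [← hs2, ← mul_pow, mul_comm s, hθs, one_pow]
      linear_combination this - 3 * hθs
    have e4 : Real.exp (-2) ≤ 1 / 4 := by
      have h1 := Real.add_one_le_exp (1 : ℝ)
      have h2 : Real.exp 2 = Real.exp 1 * Real.exp 1 := by rw [← Real.exp_add]; norm_num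
      rw [Real.exp_neg, inv_eq_one_div]
      apply one_div_le_one_div_of_le (by norm_num)
      rw [h2]
      nlinarith
    linarith
  · beta_reduce
    have hn := pw_nonneg hp hq m z
    have x1 := (Real.exp_pos (θ * z)).le
    have x2 := (Real.exp_pos (-θ * z)).le
    have y1 := (Real.exp_pos (-(θ * ((2 + q) * m + 3 * s)))).le
    have y2 := (Real.exp_pos (θ * ((2 + q) * m - 3 * s))).le
    by_cases hz : z ∈ W
    · rw [if_pos hz]
      have : 0 ≤ Real.exp (-(θ * ((2 + q) * m + 3 * s))) * (pw p q m z * Real.exp (θ * z)) :=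
        mul_nonneg y1 (mul_nonneg hn x1)
      have : 0 ≤ Real.exp (θ * ((2 + q) * m - 3 * s)) * (pw p q m z * Real.exp (-θ * z)) :=
        mul_nonneg y2 (mul_nonneg hn x2)
      linarith
    · rw [if_neg hz, zero_add]
      have hz2 : ¬ |(z : ℝ) - (2 + q) * m| ≤ 3 * √(m : ℝ) := fun hh => hz (hW z hh)
      rw [← hs, not_le] at hz2
      have : 1 ≤ Real.exp (-(θ * ((2 + q) * m + 3 * s))) * Real.exp (θ * z) +
          Real.exp (θ * ((2 + q) * m - 3 * s)) * Real.exp (-θ * z) := by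
        rw [← Real.exp_add, ← Real.exp_add]
        rcases lt_abs.1 hz2 with h1 | h1
        · have h2 : 1 ≤ Real.exp (-(θ * ((2 + q) * m + 3 * s)) + θ * z) :=
            Real.one_le_exp (by nlinarith)
          have := Real.exp_pos (θ * ((2 + q) * m - 3 * s) + -θ * z)
          linarith
        · have h2 : 1 ≤ Real.exp (θ * ((2 + q) * m - 3 * s) + -θ * z) :=
            Real.one_le_exp (by nlinarith)
          have := Real.exp_pos (-(θ * ((2 + q) * m + 3 * s)) + θ * z)
          linarith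
      calc pw p q m z = pw p q m z * 1 := (mul_one _).symm
        _ ≤ pw p q m z * _ := mul_le_mul_of_nonneg_left this hn
        _ = _ := by ring

end Pool.Agent.D0H94.T12
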